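import Mathlib
import Pool.Agent.H5R2.ON.Defs
import Pool.Agent.H5R2.ON.Basic

/-!
# Two-dimensional O(N) models: conditional expectations with boundary conditions, local rotations

Definitions for the proof of strong decay of correlations (helper716).
-/

set_option autoImplicit false

noncomputable section

namespace Pool.Agent.H716R2.ON

open MeasureTheory Pool.Agent.H5R2.ON

variable {N L : ℕ} [NeZero L]

/-- the `i`-th coordinate of the spin at the site `x` -/
def co (S : Conf N L) (x : Tor L) (i : Fin N) : ℝ := (S x : EuclideanSpace ℝ (Fin N)) i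

/-- sum over the oriented nearest neighbour pairs `(z, z + e₁)`, `(z, z + e₂)` -/
def esum (F : Tor L → Tor L → ℝ) : ℝ := ∑ z : Tor L, (F z (z + (1, 0)) + F z (z + (0, 1)))

omit [NeZero L] in
/-- the configuration equal to `σ` on `V` and to `τ` off `V` -/
def glue (V : Finset (Tor L)) (σ τ : Conf N L) : Conf N L := fun x => if x ∈ V then σ x else τ x

/-- unnormalised conditional expectation -/
def II (β : ℝ) (V : Finset (Tor L)) (φ : Conf N L → ℝ) (τ : Conf N L) : ℝ :=
  ∫ σ, Real.exp (β * pairSum (glue V σ τ)) * φ (glue V σ τ) ∂(prior N L)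

/-- the expectation of `φ` given that the spins off `V` are those of `τ` -/
def KK (β : ℝ) (V : Finset (Tor L)) (φ : Conf N L → ℝ) (τ : Conf N L) : ℝ :=
  II β V φ τ / II β V (fun _ => 1) τ

/-- `F` does not depend on the spins in `U` -/
def Off (U : Finset (Tor L)) (F : Conf N L → ℝ) : Prop := ∀ σ τ : Conf N L, F (glue U σ τ) = F τ

/-- two sets of sites without common points and without nearest neighbour pairs between them -/
def Far (U V : Finset (Tor L)) : Prop :=
  ∀ u ∈ U, ∀ v ∈ V, u ≠ v ∧ v ≠ u + (1, 0) ∧ v ≠ u + (0, 1) ∧ u ≠ v + (1, 0) ∧ u ≠ v + (0, 1)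

/-- Dirichlet energy of a profile -/
def Wd (a : Tor L → ℝ) : ℝ := esum fun y z => (a z - a y) ^ 2

/-- the derivative of `pairSum` under the infinitesimal rotation `a x • b` of the spin at `x` -/
def Hb (a : Tor L → ℝ) (b : Fin N → Fin N → ℝ) (S : Conf N L) : ℝ :=
  esum fun y z => (a z - a y) * ∑ i, ∑ j, co S y i * b i j * co S z j

omit [NeZero L] in
/-- the generator of the rotations of the plane `(p, k)` -/
def gen (p k : Fin N) : Fin N → Fin N → ℝ := fun i j =>
  (if i = k ∧ j = p then 1 else 0) - (if i = p ∧ j = k then 1 else 0)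

omit [NeZero L] in
/-- antisymmetric matrices -/
def Anti (b : Fin N → Fin N → ℝ) : Prop := ∀ i j, b i j = - b j i

/-- the discs of the torus -/
def disc (c : Tor L) (r : ℝ) : Finset (Tor L) := Finset.univ.filter fun z => tnorm (z - c) ≤ r

/-- the boxes of the torus -/
def box (c : Tor L) (r : ℕ) : Finset (Tor L) :=
  Finset.univ.filter fun z => (z.1 - c.1).valMinAbs.natAbs ≤ r ∧ (z.2 - c.2).valMinAbs.natAbs ≤ r

/-- traceless part of the matrix `S_y ⊗ S_z` -/
def Mat0 (y z : Tor L) (i j : Fin N) (S : Conf N L) : ℝ :=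
  co S y i * co S z j - (if i = j then (∑ m, co S y m * co S z m) / N else 0)

/-- antisymmetric part (the current) of the matrix `S_y ⊗ S_z` -/
def Asy (y z : Tor L) (i j : Fin N) (S : Conf N L) : ℝ := co S y i * co S z j - co S y j * co S z i

end Pool.Agent.H716R2.ON
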