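import Mathlib
import Pool.Agent.H716R2.ON.Base
import Pool.Agent.H5R2.ON.Dist

/-!
# Task B: boxes of the torus
-/

set_option autoImplicit false

noncomputable section

namespace Pool.Agent.H716R2.ON

open MeasureTheory Pool.Agent.H5R2.ON

variable {N L : ℕ} [NeZero L]

namespace BoxAux

/-- distance to zero in `ZMod L` -/
def nz (u : ZMod L) : ℕ := u.valMinAbs.natAbs

omit [NeZero L] in
theorem nz_add_le (u v : ZMod L) : nz (u + v) ≤ nz u + nz v :=
  (ZMod.natAbs_valMinAbs_add_le u v).trans (Int.natAbs_add_le _ _)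

omit [NeZero L] in
theorem nz_neg (u : ZMod L) : nz (-u) = nz u := ZMod.natAbs_valMinAbs_neg u

omit [NeZero L] in
theorem nz_one : nz (1 : ZMod L) ≤ 1 := natAbs_one_le 1 (Or.inl rfl)

theorem nz_le (u : ZMod L) (y : ℤ) (h : (y : ZMod L) = u) : nz u ≤ y.natAbs := by
  unfold nz
  refine ZMod.natAbs_min_of_le_div_two L u.valMinAbs y ?_ (ZMod.natAbs_valMinAbs_le u)
  rw [ZMod.coe_valMinAbs, h]

theorem mem_box {c z : Tor L} {r : ℕ} : z ∈ box c r ↔ nz (z.1 - c.1) ≤ r ∧ nz (z.2 - c.2) ≤ r := by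
  unfold box nz
  simp

/-- the two positions where one coordinate crosses -/
theorem cross (a : ZMod L) (R : ℕ) (h : ¬ (nz (a + 1) ≤ R ↔ nz a ≤ R)) :
    a = ((R : ℤ) : ZMod L) ∨ a = ((-(R : ℤ) - 1 : ℤ) : ZMod L) := by
  by_cases h1 : nz a ≤ R
  · left
    have h2 : ¬ nz (a + 1) ≤ R := fun h3 => h ⟨fun _ => h1, fun _ => h3⟩
    have h3 : a.valMinAbs.natAbs ≤ R := h1
    by_contra h4
    have h5 : a.valMinAbs ≠ R := by
      intro h6
      apply h4
      rw [← h6, ZMod.coe_valMinAbs]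
    apply h2
    refine (nz_le (a + 1) (a.valMinAbs + 1) (by push_cast; rfl)).trans ?_
    omega
  · right
    have h2 : nz (a + 1) ≤ R := by
      by_contra h3
      exact h ⟨fun h4 => absurd h4 h3, fun h4 => absurd h4 h1⟩
    have h3 : (a + 1).valMinAbs.natAbs ≤ R := h2
    have h7 : a = (((a + 1).valMinAbs - 1 : ℤ) : ZMod L) := by
      push_cast
      ring
    by_contra h4
    have h5 : (a + 1).valMinAbs ≠ -(R : ℤ) := by
      intro h6
      apply h4
      rw [← h6]
      exact h7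
    apply h1
    refine (nz_le a ((a + 1).valMinAbs - 1) h7.symm).trans ?_
    omega

omit [NeZero L] in
theorem coe_of_nz {a : ZMod L} {R : ℕ} (h : nz a ≤ R) :
    ∃ t ∈ Finset.Icc (-(R : ℤ)) R, a = (t : ZMod L) := by
  refine ⟨a.valMinAbs, ?_, (ZMod.coe_valMinAbs a).symm⟩
  have h3 : a.valMinAbs.natAbs ≤ R := h
  rw [Finset.mem_Icc]
  omega

end BoxAux

open BoxAux

theorem disc_subset_box (c : Tor L) (r : ℕ) : disc c (r : ℝ) ⊆ box c r := by
  intro z hz
  unfold disc at hz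
  rw [Finset.mem_filter] at hz
  have h := crd_mem _ _ hz.2
  rw [Nat.floor_natCast, Finset.mem_product, Finset.mem_Icc, Finset.mem_Icc] at h
  unfold crd at h
  simp only [Prod.fst_sub, Prod.snd_sub] at h
  rw [mem_box]
  unfold nz
  omega

theorem box_mono (c : Tor L) {r s : ℕ} (h : r ≤ s) : box c r ⊆ box c s := by
  intro z hz
  rw [mem_box] at hz ⊢
  exact ⟨hz.1.trans h, hz.2.trans h⟩

theorem box_succ (c : Tor L) (r : ℕ) (y z : Tor L) (h : z = y + (1, 0) ∨ z = y + (0, 1)) :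
    (y ∈ box c r → z ∈ box c (r + 1)) ∧ (z ∈ box c r → y ∈ box c (r + 1)) := by
  have h1 := nz_one (L := L)
  have h1' : nz (-1 : ZMod L) ≤ 1 := by rw [nz_neg]; exact h1
  rw [mem_box, mem_box, mem_box, mem_box]
  rcases h with rfl | rfl
  · have e1 : (y + (1, 0)).1 - c.1 = (y.1 - c.1) + 1 := by simp; ring
    have e2 : (y + (1, 0)).2 - c.2 = y.2 - c.2 := by simp
    have e3 : y.1 - c.1 = ((y.1 - c.1) + 1) + (-1) := by ring
    rw [e1, e2]
    have k1 := nz_add_le (y.1 - c.1) 1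
    have k2 := nz_add_le ((y.1 - c.1) + 1) (-1)
    rw [← e3] at k2
    omega
  · have e1 : (y + (0, 1)).2 - c.2 = (y.2 - c.2) + 1 := by simp; ring
    have e2 : (y + (0, 1)).1 - c.1 = y.1 - c.1 := by simp
    have e3 : y.2 - c.2 = ((y.2 - c.2) + 1) + (-1) := by ring
    rw [e1, e2]
    have k1 := nz_add_le (y.2 - c.2) 1
    have k2 := nz_add_le ((y.2 - c.2) + 1) (-1)
    rw [← e3] at k2
    omega

theorem box_trans (c y : Tor L) {r s : ℕ} (hy : y ∈ box c r) : box y s ⊆ box c (r + s) := by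
  intro z hz
  rw [mem_box] at hy hz ⊢
  have e1 : z.1 - c.1 = (y.1 - c.1) + (z.1 - y.1) := by ring
  have e2 : z.2 - c.2 = (y.2 - c.2) + (z.2 - y.2) := by ring
  rw [e1, e2]
  have k1 := nz_add_le (y.1 - c.1) (z.1 - y.1)
  have k2 := nz_add_le (y.2 - c.2) (z.2 - y.2)
  omega

theorem BoxAux.box_symm {y u : Tor L} {w : ℕ} (h : u ∈ box y w) : y ∈ box u w := by
  rw [mem_box] at h ⊢
  rw [← nz_neg, ← nz_neg (y.2 - u.2), neg_sub, neg_sub]
  exact h

/-- a box around a point off a large box is far from a smaller box -/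
theorem box_far (c y : Tor L) {R w : ℕ} (hy : y ∉ box c (R + w + 1)) :
    Far (box y w) (box c R) := by
  intro u hu v hv
  have key : u ∉ box c (R + 1) := by
    intro h
    have h1 := box_trans c u (s := w) h (box_symm hu)
    rw [show R + 1 + w = R + w + 1 by ring] at h1
    exact hy h1
  refine ⟨?_, ?_, ?_, ?_, ?_⟩
  · rintro rfl
    exact key (box_mono c (Nat.le_succ _) hv)
  · intro h
    exact key ((box_succ c R u v (Or.inl h)).2 hv)
  · intro h
    exact key ((box_succ c R u v (Or.inr h)).2 hv)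
  · intro h
    exact key ((box_succ c R v u (Or.inl h)).1 hv)
  · intro h
    exact key ((box_succ c R v u (Or.inr h)).1 hv)

theorem box_cut_card (c : Tor L) (R : ℕ) :
    (Finset.univ.filter fun y : Tor L => ¬ ((y + (1, 0) ∈ box c R) ↔ (y ∈ box c R))).card +
      (Finset.univ.filter fun y : Tor L => ¬ ((y + (0, 1) ∈ box c R) ↔ (y ∈ box c R))).card ≤
        8 * R + 4 := by
  have hI : (Finset.Icc (-(R : ℤ)) R).card = 2 * R + 1 := by
    rw [Int.card_Icc]; omega
  have hP : (({(R : ℤ), -(R : ℤ) - 1} : Finset ℤ)).card ≤ 2 := Finset.card_le_two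
  have h1 : (Finset.univ.filter fun y : Tor L =>
      ¬ ((y + (1, 0) ∈ box c R) ↔ (y ∈ box c R))).card ≤ 2 * (2 * R + 1) := by
    have hsub : (Finset.univ.filter fun y : Tor L => ¬ ((y + (1, 0) ∈ box c R) ↔ (y ∈ box c R))) ⊆
        (({(R : ℤ), -(R : ℤ) - 1} : Finset ℤ) ×ˢ Finset.Icc (-(R : ℤ)) R).image
          (fun p : ℤ × ℤ => (((p.1 : ZMod L) + c.1, (p.2 : ZMod L) + c.2) : Tor L)) := by
      intro y hy
      rw [Finset.mem_filter, mem_box, mem_box] at hy
      have e1 : (y + (1, 0)).1 - c.1 = (y.1 - c.1) + 1 := by simp; ring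
      have e2 : (y + (1, 0)).2 - c.2 = y.2 - c.2 := by simp
      rw [e1, e2] at hy
      have h2 : nz (y.2 - c.2) ≤ R := by
        by_contra h3
        exact hy.2 ⟨fun h => absurd h.2 h3, fun h => absurd h.2 h3⟩
      have h3 : ¬ (nz (y.1 - c.1 + 1) ≤ R ↔ nz (y.1 - c.1) ≤ R) := by
        intro h
        exact hy.2 ⟨fun h' => ⟨h.1 h'.1, h2⟩, fun h' => ⟨h.2 h'.1, h2⟩⟩
      obtain ⟨t, ht, ht'⟩ := coe_of_nz h2
      rw [Finset.mem_image]
      rcases cross _ R h3 with h4 | h4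
      · refine ⟨((R : ℤ), t), Finset.mem_product.2 ⟨by simp, ht⟩, ?_⟩
        simp only
        rw [← h4, ← ht', sub_add_cancel, sub_add_cancel]
      · refine ⟨(-(R : ℤ) - 1, t), Finset.mem_product.2 ⟨by simp, ht⟩, ?_⟩
        simp only
        rw [← h4, ← ht', sub_add_cancel, sub_add_cancel]
    refine (Finset.card_le_card hsub).trans (Finset.card_image_le.trans ?_)
    rw [Finset.card_product, hI]
    exact Nat.mul_le_mul_right _ hP
  have h2 : (Finset.univ.filter fun y : Tor L =>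
      ¬ ((y + (0, 1) ∈ box c R) ↔ (y ∈ box c R))).card ≤ 2 * (2 * R + 1) := by
    have hsub : (Finset.univ.filter fun y : Tor L => ¬ ((y + (0, 1) ∈ box c R) ↔ (y ∈ box c R))) ⊆
        (({(R : ℤ), -(R : ℤ) - 1} : Finset ℤ) ×ˢ Finset.Icc (-(R : ℤ)) R).image
          (fun p : ℤ × ℤ => (((p.2 : ZMod L) + c.1, (p.1 : ZMod L) + c.2) : Tor L)) := by
      intro y hy
      rw [Finset.mem_filter, mem_box, mem_box] at hy
      have e1 : (y + (0, 1)).2 - c.2 = (y.2 - c.2) + 1 := by simp; ring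
      have e2 : (y + (0, 1)).1 - c.1 = y.1 - c.1 := by simp
      rw [e1, e2] at hy
      have h2 : nz (y.1 - c.1) ≤ R := by
        by_contra h3
        exact hy.2 ⟨fun h => absurd h.1 h3, fun h => absurd h.1 h3⟩
      have h3 : ¬ (nz (y.2 - c.2 + 1) ≤ R ↔ nz (y.2 - c.2) ≤ R) := by
        intro h
        exact hy.2 ⟨fun h' => ⟨h2, h.1 h'.2⟩, fun h' => ⟨h2, h.2 h'.2⟩⟩
      obtain ⟨t, ht, ht'⟩ := coe_of_nz h2
      rw [Finset.mem_image]
      rcases cross _ R h3 with h4 | h4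
      · refine ⟨((R : ℤ), t), Finset.mem_product.2 ⟨by simp, ht⟩, ?_⟩
        simp only
        rw [← h4, ← ht', sub_add_cancel, sub_add_cancel]
      · refine ⟨(-(R : ℤ) - 1, t), Finset.mem_product.2 ⟨by simp, ht⟩, ?_⟩
        simp only
        rw [← h4, ← ht', sub_add_cancel, sub_add_cancel]
    refine (Finset.card_le_card hsub).trans (Finset.card_image_le.trans ?_)
    rw [Finset.card_product, hI]
    exact Nat.mul_le_mul_right _ hP
  omega

end Pool.Agent.H716R2.ON
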