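import Mathlib
import Pool.Agent.H716R2.ON.Base

/-! Casimir identities (task C) -/

set_option autoImplicit false

noncomputable section

namespace Pool.Agent.H716R2.ON

open MeasureTheory Pool.Agent.H5R2.ON

variable {N : ℕ}

theorem C_gen_sum (p k i : Fin N) (f : Fin N → ℝ) :
    ∑ j, gen p k i j * f j = (if i = k then f p else 0) - (if i = p then f k else 0) := by
  unfold gen
  have : ∀ j, ((if i = k ∧ j = p then (1 : ℝ) else 0) - (if i = p ∧ j = k then 1 else 0)) * f j =
      (if j = p then (if i = k then f p else 0) else 0) -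
        (if j = k then (if i = p then f k else 0) else 0) := by
    intro j
    by_cases h1 : j = p
    · subst h1
      by_cases h2 : j = k
      · subst h2; by_cases h3 : i = j <;> simp [h3]
      · by_cases h3 : i = k <;> simp [h2, h3]
    · by_cases h2 : j = k
      · subst h2
        by_cases h3 : i = p <;> simp [h1, h3]
      · simp [h1, h2]
  rw [Finset.sum_congr rfl fun j _ => this j, Finset.sum_sub_distrib, Finset.sum_ite_eq',
    Finset.sum_ite_eq']
  simp

theorem cas_vec (f : Fin N → ℝ) :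
    ∑ p, ∑ k, ∑ i, (∑ j, gen p k i j * f j) ^ 2 = 2 * (N - 1) * ∑ i, f i ^ 2 := by
  have h : ∀ p k i : Fin N, (∑ j, gen p k i j * f j) ^ 2 =
      (if i = k then f p ^ 2 else 0) + (if i = p then f k ^ 2 else 0) -
        2 * (if i = k then (if k = p then f p ^ 2 else 0) else 0) := by
    intro p k i
    rw [C_gen_sum]
    by_cases h1 : i = k <;> by_cases h2 : i = p <;> by_cases h3 : k = p <;>
      simp only [h1, h2, h3, if_true, if_false] <;> (try subst_vars) <;> simp_all <;> ring
  simp_rw [h]
  simp only [Finset.sum_add_distrib, Finset.sum_sub_distrib, ← Finset.mul_sum, Finset.sum_ite_eq',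
    Finset.mem_univ, if_true, Finset.sum_const, Finset.card_univ, Fintype.card_fin, nsmul_eq_mul]
  ring

theorem C_aux (c : Fin N) (g : Fin N → ℝ) :
    ∑ i : Fin N, ∑ j, (if i = c then g j else 0) = ∑ j, g j := by
  rw [Finset.sum_comm]
  simp

theorem cas_mat (f : Fin N → Fin N → ℝ) :
    ∑ p, ∑ k, ∑ i, ∑ j, (∑ m, gen p k i m * f m j + ∑ m, gen p k j m * f i m) ^ 2 =
      4 * (N - 1) * (∑ i, ∑ j, f i j ^ 2) - 4 * (∑ i, f i i) ^ 2 +
        4 * ∑ i, ∑ j, f i j * f j i := by
  have h : ∀ p k i j : Fin N, (∑ m, gen p k i m * f m j + ∑ m, gen p k j m * f i m) ^ 2 =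
      (if i = k then f p j ^ 2 else 0) + (if i = p then f k j ^ 2 else 0)
      + (if j = k then f i p ^ 2 else 0) + (if j = p then f i k ^ 2 else 0)
      - 2 * (if i = k then (if k = p then f p j ^ 2 else 0) else 0)
      - 2 * (if j = k then (if k = p then f i p ^ 2 else 0) else 0)
      + 2 * (if j = k then (if i = k then f p k * f k p else 0) else 0)
      + 2 * (if j = p then (if i = p then f k p * f p k else 0) else 0)
      - 2 * (if j = p then (if i = k then f p p * f k k else 0) else 0)
      - 2 * (if j = k then (if i = p then f p p * f k k else 0) else 0) := by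
    intro p k i j
    rw [C_gen_sum p k i (fun m => f m j), C_gen_sum p k j (fun m => f i m)]
    by_cases h1 : i = k <;> by_cases h2 : i = p <;> by_cases h3 : j = k <;> by_cases h4 : j = p <;>
      by_cases h5 : k = p <;>
      first
        | (exfalso; subst_vars; simp_all; done)
        | (subst_vars; simp_all; done)
        | (subst_vars; simp_all; ring)
  simp_rw [h]
  simp only [Finset.sum_add_distrib, Finset.sum_sub_distrib, ← Finset.mul_sum, Finset.sum_ite_eq',
    Finset.mem_univ, if_true, Finset.sum_const, Finset.card_univ, Fintype.card_fin, nsmul_eq_mul]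
  have e2 : ∑ x, ∑ x_1, f x_1 x ^ 2 = ∑ x, ∑ x_1, f x x_1 ^ 2 := Finset.sum_comm
  have e3 : ∑ i, ∑ i_1, f i_1 i * f i i_1 = ∑ i, ∑ i_1, f i i_1 * f i_1 i :=
    Finset.sum_congr rfl fun i _ => Finset.sum_congr rfl fun j _ => mul_comm _ _
  simp only [C_aux, ← Finset.sum_mul, Finset.sum_const, Finset.card_univ, Fintype.card_fin,
    nsmul_eq_mul, e2, e3, ← Finset.mul_sum]
  ring

theorem cas_mat_ge (f : Fin N → Fin N → ℝ) (hf : ∑ i, f i i = 0) :
    4 * ((N : ℝ) - 2) * (∑ i, ∑ j, f i j ^ 2) ≤
      ∑ p, ∑ k, ∑ i, ∑ j, (∑ m, gen p k i m * f m j + ∑ m, gen p k j m * f i m) ^ 2 := by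
  rw [cas_mat, hf]
  have h1 : -(∑ i, ∑ j, f i j ^ 2) ≤ ∑ i, ∑ j, f i j * f j i := by
    have h2 : ∑ i, ∑ j, f j i ^ 2 = ∑ i, ∑ j, f i j ^ 2 := Finset.sum_comm
    have h3 : 0 ≤ ∑ i, ∑ j, (f i j + f j i) ^ 2 :=
      Finset.sum_nonneg fun i _ => Finset.sum_nonneg fun j _ => sq_nonneg _
    have h4 : ∑ i, ∑ j, (f i j + f j i) ^ 2 = ∑ i, ∑ j, f i j ^ 2 + ∑ i, ∑ j, f j i ^ 2 +
        2 * ∑ i, ∑ j, f i j * f j i := by
      simp only [Finset.mul_sum, ← Finset.sum_add_distrib]
      exact Finset.sum_congr rfl fun i _ => Finset.sum_congr rfl fun j _ => by ring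
    rw [h4, h2] at h3
    linarith
  nlinarith

theorem sum_gen (b : Fin N → Fin N → ℝ) (hb : Anti b) (i j : Fin N) :
    ∑ p, ∑ k, b p k * gen p k i j = - 2 * b i j := by
  have h : ∀ p k : Fin N, b p k * gen p k i j =
      (if k = i then (if p = j then b j i else 0) else 0) -
        (if k = j then (if p = i then b i j else 0) else 0) := by
    intro p k
    unfold gen
    by_cases h1 : k = i <;> by_cases h2 : p = j <;> by_cases h3 : k = j <;> by_cases h4 : p = i <;>
      first
        | (exfalso; subst_vars; simp_all; done)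
        | (subst_vars; simp_all [eq_comm]; done)
        | (subst_vars; simp_all [eq_comm]; ring)
  simp_rw [h]
  simp only [Finset.sum_sub_distrib, Finset.sum_ite_eq', Finset.mem_univ, if_true]
  rw [hb j i]
  ring

end Pool.Agent.H716R2.ON
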