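import Mathlib
import Pool.Agent.H716R2.ON.Base
import Pool.Agent.H5R2.ON.Dist
import Pool.Agent.H5R2.ON.Disc

/-!
# Task E (helper483): logarithmic profiles on annuli
-/

set_option autoImplicit false

noncomputable section

namespace Pool.Agent.H716R2.ON

open MeasureTheory Pool.Agent.H5R2.ON

variable {L : ℕ} [NeZero L]

/-! ### the energy of the truncated logarithm -/

lemma taskE_sum_En {R : ℝ} (hR : 4 ≤ R) (hL : 2 * R + 4 < L) (c : Tor L) :
    ∑ z : Tor L, Dsc.En R c z ≤ Real.pi * Real.log (R + 1) + 300 := by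
  have h1 : ∑ z : Tor L, Dsc.En R c z =
      ∑ z ∈ Finset.univ.filter (fun z : Tor L => tnorm (z - c) < R + 1), Dsc.En R c z := by
    symm
    apply Finset.sum_subset (Finset.filter_subset _ _)
    intro z _ hz
    apply Dsc.En_far (by linarith)
    by_contra hcon
    exact hz (Finset.mem_filter.2 ⟨Finset.mem_univ _, not_le.1 hcon⟩)
  rw [h1]
  refine (Finset.sum_le_sum fun z _ => Dsc.En_le_Gf hR hL c z).trans ?_
  refine le_trans ?_ (Dsc.Gf_box (by linarith : (1 : ℝ) ≤ R + 1))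
  have hinj : Set.InjOn (fun z : Tor L => crd (z - c))
      (Finset.univ.filter (fun z : Tor L => tnorm (z - c) < R + 1)) :=
    fun z _ z' _ h => sub_left_injective (crd_injective h)
  rw [← Finset.sum_image (g := fun z : Tor L => crd (z - c)) (f := Dsc.Gf) hinj]
  apply Finset.sum_le_sum_of_subset_of_nonneg
  · intro p hp
    obtain ⟨z, hz, rfl⟩ := Finset.mem_image.1 hp
    exact crd_mem _ (R + 1) (Finset.mem_filter.1 hz).2.le
  · intro p _ _
    exact Dsc.Gf_nonneg p

lemma taskE_Wd_lg {R : ℝ} (hR : 4 ≤ R) (hL : 2 * R + 4 < L) (c : Tor L) :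
    Wd (fun z : Tor L => Dsc.lg R (tnorm (z - c))) ≤ 2 * Real.pi * Real.log (R + 1) + 600 := by
  obtain ⟨f, hf⟩ : ∃ f : Tor L → ℝ, f = fun z => Dsc.lg R (tnorm (z - c)) := ⟨_, rfl⟩
  rw [← hf]
  have h1 : Wd f = 2 * ∑ z : Tor L, Dsc.En R c z := by
    have e1 : ∀ e : Tor L, ∑ z : Tor L, (f z - f (z - e)) ^ 2 =
        ∑ z : Tor L, (f (z + e) - f z) ^ 2 := by
      intro e
      rw [← Equiv.sum_comp (Equiv.addRight e) (fun z => (f z - f (z - e)) ^ 2)]
      refine Finset.sum_congr rfl fun z _ => ?_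
      simp only [Equiv.coe_addRight, add_sub_cancel_right]
    have e2 : ∀ z : Tor L, Dsc.En R c z = (1 / 4) * ((f z - f (z + (1, 0))) ^ 2 +
        (f z - f (z - (1, 0))) ^ 2 + (f z - f (z + (0, 1))) ^ 2 +
        (f z - f (z - (0, 1))) ^ 2) := by
      intro z
      rw [hf]
      rfl
    simp_rw [e2]
    rw [← Finset.mul_sum, Finset.sum_add_distrib, Finset.sum_add_distrib,
      Finset.sum_add_distrib, e1, e1]
    have e3 : ∀ e : Tor L, ∑ z : Tor L, (f z - f (z + e)) ^ 2 =
        ∑ z : Tor L, (f (z + e) - f z) ^ 2 := by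
      intro e
      exact Finset.sum_congr rfl fun z _ => by ring
    rw [e3, e3]
    unfold Wd esum
    rw [Finset.sum_add_distrib]
    ring
  rw [h1]
  have h2 := taskE_sum_En hR hL c
  linarith

/-! ### the profile -/

/-- logarithmic profile between `u` and `v` -/
def taskE_P (u v t : ℝ) : ℝ :=
  max 0 (min 1 ((Real.log v - Real.log (max 1 t)) / (Real.log v - Real.log u)))

lemma taskE_P_one {u v t : ℝ} (hu : 1 ≤ u) (huv : u < v) (ht : t ≤ u) : taskE_P u v t = 1 := by
  have h1 : Real.log u < Real.log v := Real.log_lt_log (by linarith) huv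
  have h2 : Real.log (max 1 t) ≤ Real.log u :=
    Real.log_le_log (lt_of_lt_of_le one_pos (le_max_left _ _)) (max_le hu ht)
  unfold taskE_P
  have h3 : 1 ≤ (Real.log v - Real.log (max 1 t)) / (Real.log v - Real.log u) := by
    rw [le_div_iff₀ (by linarith)]
    linarith
  rw [min_eq_left h3]
  exact max_eq_right zero_le_one

lemma taskE_P_zero {u v t : ℝ} (hu : 1 ≤ u) (huv : u < v) (ht : v ≤ t) : taskE_P u v t = 0 := by
  have h1 : Real.log u < Real.log v := Real.log_lt_log (by linarith) huv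
  have h2 : Real.log v ≤ Real.log (max 1 t) :=
    Real.log_le_log (by linarith) (ht.trans (le_max_right _ _))
  unfold taskE_P
  have h3 : (Real.log v - Real.log (max 1 t)) / (Real.log v - Real.log u) ≤ 0 :=
    div_nonpos_of_nonpos_of_nonneg (by linarith) (by linarith)
  exact max_eq_left ((min_le_right _ _).trans h3)

lemma taskE_clamp (x y : ℝ) : |max 0 (min 1 x) - max 0 (min 1 y)| ≤ |x - y| := by
  have h1 : |max 0 (min 1 x) - max 0 (min 1 y)| ≤ |min 1 x - min 1 y| := by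
    rw [max_comm 0, max_comm 0]
    exact abs_max_sub_max_le_abs _ _ _
  refine h1.trans ((abs_min_sub_min_le_max 1 x 1 y).trans ?_)
  rw [sub_self, abs_zero]
  exact max_le (abs_nonneg _) le_rfl

lemma taskE_P_diff {u v : ℝ} (hu : 1 ≤ u) (huv : u < v) (t t' : ℝ) :
    |taskE_P u v t - taskE_P u v t'| ≤
      |Real.log (max 1 t) - Real.log (max 1 t')| / (Real.log v - Real.log u) := by
  have h1 : Real.log u < Real.log v := Real.log_lt_log (by linarith) huv
  unfold taskE_P
  refine (taskE_clamp _ _).trans (le_of_eq ?_)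
  rw [← sub_div, abs_div, abs_of_pos (by linarith : 0 < Real.log v - Real.log u)]
  congr 1
  rw [abs_sub_comm]
  congr 1
  ring

/-! ### one edge -/

lemma taskE_edge {g lam r₀ η : ℝ} (hlam : 1 < lam) (hg : 2 ≤ g) (hr₀ : 4 ≤ r₀)
    (hl : ∀ k : ℕ, (1 - η) * Real.log lam ≤
      Real.log (r₀ * lam ^ (k + 1) - g) - Real.log (r₀ * lam ^ k + 2)) (hη : η < 1)
    (huv : ∀ k : ℕ, r₀ * lam ^ k + 2 < r₀ * lam ^ (k + 1) - g) (n : ℕ) {t t' : ℝ}
    (ht : |t - t'| ≤ 1) :
    ∑ k ∈ Finset.range n, (taskE_P (r₀ * lam ^ k + 2) (r₀ * lam ^ (k + 1) - g) t' -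
        taskE_P (r₀ * lam ^ k + 2) (r₀ * lam ^ (k + 1) - g) t) ^ 2 ≤
      (Dsc.lg (r₀ * lam ^ n) t' - Dsc.lg (r₀ * lam ^ n) t) ^ 2 / ((1 - η) * Real.log lam) ^ 2 := by
  have hlog : 0 < Real.log lam := Real.log_pos hlam
  have hℓ : 0 < (1 - η) * Real.log lam := mul_pos (by linarith) hlog
  have hmono : ∀ k k' : ℕ, k ≤ k' → r₀ * lam ^ k ≤ r₀ * lam ^ k' := fun k k' h =>
    mul_le_mul_of_nonneg_left (pow_le_pow_right₀ hlam.le h) (by linarith)
  have hr : ∀ k : ℕ, 4 ≤ r₀ * lam ^ k := fun k =>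
    calc (4 : ℝ) ≤ r₀ * lam ^ 0 := by simpa using hr₀
      _ ≤ _ := hmono 0 k (Nat.zero_le k)
  have hab := abs_le.1 ht
  -- information from a nonconstant edge
  have info : ∀ k : ℕ, taskE_P (r₀ * lam ^ k + 2) (r₀ * lam ^ (k + 1) - g) t' ≠
      taskE_P (r₀ * lam ^ k + 2) (r₀ * lam ^ (k + 1) - g) t →
      (r₀ * lam ^ k + 2 < max t t') ∧ (min t t' < r₀ * lam ^ (k + 1) - g) := by
    intro k hk
    have h4 := hr k
    constructor
    · by_contra hcon
      rw [not_lt] at hcon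
      apply hk
      rw [taskE_P_one (by linarith) (huv k) ((le_max_right t t').trans hcon),
        taskE_P_one (by linarith) (huv k) ((le_max_left t t').trans hcon)]
    · by_contra hcon
      rw [not_lt] at hcon
      apply hk
      rw [taskE_P_zero (by linarith) (huv k) (hcon.trans (min_le_right t t')),
        taskE_P_zero (by linarith) (huv k) (hcon.trans (min_le_left t t'))]
  have hMm : max t t' ≤ min t t' + 1 := by
    rcases le_total t t' with h | h
    · rw [max_eq_right h, min_eq_left h]; linarith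
    · rw [max_eq_left h, min_eq_right h]; linarith
  have huniq : ∀ k k' : ℕ, k < k' → (min t t' < r₀ * lam ^ (k + 1) - g) →
      (r₀ * lam ^ k' + 2 < max t t') → False := by
    intro k k' hkk h1 h2
    have h3 := hmono (k + 1) k' hkk
    linarith
  by_cases hex : ∃ k ∈ Finset.range n, taskE_P (r₀ * lam ^ k + 2) (r₀ * lam ^ (k + 1) - g) t' ≠
      taskE_P (r₀ * lam ^ k + 2) (r₀ * lam ^ (k + 1) - g) t
  · obtain ⟨k, hk, hne⟩ := hex
    obtain ⟨hk1, hk2⟩ := info k hne
    rw [Finset.sum_eq_single k]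
    · have h1 := taskE_P_diff (by have := hr k; linarith) (huv k) t' t
      have hMR : max t t' ≤ r₀ * lam ^ n := by
        have h2 := hmono (k + 1) n (Finset.mem_range.1 hk)
        linarith
      have hR := hr n
      have h2 : ∀ s : ℝ, s ≤ r₀ * lam ^ n → Dsc.lg (r₀ * lam ^ n) s =
          Real.log (r₀ * lam ^ n) - Real.log (max 1 s) := by
        intro s hs
        unfold Dsc.lg
        apply max_eq_right
        have h3 : Real.log (max 1 s) ≤ Real.log (r₀ * lam ^ n) :=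
          Real.log_le_log (lt_of_lt_of_le one_pos (le_max_left _ _)) (max_le (by linarith) hs)
        linarith
      have h3 : |Real.log (max 1 t') - Real.log (max 1 t)| =
          |Dsc.lg (r₀ * lam ^ n) t' - Dsc.lg (r₀ * lam ^ n) t| := by
        rw [h2 t' ((le_max_right _ _).trans hMR), h2 t ((le_max_left _ _).trans hMR),
          abs_sub_comm]
        congr 1
        ring
      rw [h3] at h1
      have h4 : |taskE_P (r₀ * lam ^ k + 2) (r₀ * lam ^ (k + 1) - g) t' -
          taskE_P (r₀ * lam ^ k + 2) (r₀ * lam ^ (k + 1) - g) t| ≤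
          |Dsc.lg (r₀ * lam ^ n) t' - Dsc.lg (r₀ * lam ^ n) t| / ((1 - η) * Real.log lam) :=
        h1.trans (div_le_div_of_nonneg_left (abs_nonneg _) hℓ (hl k))
      have h5 := pow_le_pow_left₀ (abs_nonneg _) h4 2
      rwa [sq_abs, div_pow, sq_abs] at h5
    · intro k' hk' hkk
      by_contra hcon
      have hne' : taskE_P (r₀ * lam ^ k' + 2) (r₀ * lam ^ (k' + 1) - g) t' ≠
          taskE_P (r₀ * lam ^ k' + 2) (r₀ * lam ^ (k' + 1) - g) t := by
        intro h
        apply hcon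
        rw [h, sub_self]
        norm_num
      obtain ⟨hk1', hk2'⟩ := info k' hne'
      rcases lt_or_gt_of_ne hkk with h | h
      · exact huniq k' k h hk2' hk1
      · exact huniq k k' h hk2 hk1'
    · intro h
      exact absurd hk h
  · push Not at hex
    rw [Finset.sum_eq_zero]
    · positivity
    · intro k hk
      rw [hex k hk, sub_self]
      norm_num

theorem profiles (lam : ℝ) (hlam : 1 < lam) (η : ℝ) (hη : 0 < η) (hη1 : η < 1) (g : ℝ)
    (hg : 2 ≤ g) :
    ∃ r₀ : ℝ, 4 ≤ r₀ ∧ ∀ (n L : ℕ) [NeZero L] (c : Tor L), 2 * (r₀ * lam ^ n) + 8 < L →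
      ∃ a : ℕ → Tor L → ℝ,
        (∀ k < n, (∀ z, tnorm (z - c) ≤ r₀ * lam ^ k + 2 → a k z = 1) ∧
          (∀ z, r₀ * lam ^ (k + 1) - g ≤ tnorm (z - c) → a k z = 0) ∧ 0 ≤ Wd (a k)) ∧
        ∑ k ∈ Finset.range n, Wd (a k) ≤
          (2 * Real.pi * Real.log (r₀ * lam ^ n + 1) + 600) / ((1 - η) * Real.log lam) ^ 2 := by
  have hlog : 0 < Real.log lam := Real.log_pos hlam
  obtain ⟨θ, hθ⟩ : ∃ θ : ℝ, θ = Real.exp (-(η * Real.log lam)) := ⟨_, rfl⟩
  have hθ0 : 0 < θ := by rw [hθ]; exact Real.exp_pos _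
  have hθ1 : θ < 1 := by
    rw [hθ, Real.exp_lt_one_iff]
    have := mul_pos hη hlog
    linarith
  have hr1 : 4 ≤ max 4 ((g + 2) / (1 - θ)) := le_max_left _ _
  have hr2 : (g + 2) / (1 - θ) ≤ max 4 ((g + 2) / (1 - θ)) := le_max_right _ _
  obtain ⟨r₀, hr₀⟩ : ∃ r₀ : ℝ, r₀ = max 4 ((g + 2) / (1 - θ)) := ⟨_, rfl⟩
  rw [← hr₀] at hr1 hr2
  rw [div_le_iff₀ (by linarith)] at hr2
  have hmono : ∀ k : ℕ, r₀ ≤ r₀ * lam ^ k := fun k =>
    le_mul_of_one_le_right (by linarith) (one_le_pow₀ hlam.le)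
  have key : ∀ k : ℕ, θ * lam * (r₀ * lam ^ k + 2) ≤ r₀ * lam ^ (k + 1) - g := by
    intro k
    have h1 := hmono k
    have h2 : (g + 2) ≤ (r₀ * lam ^ k) * (1 - θ) :=
      hr2.trans (mul_le_mul_of_nonneg_right h1 (by linarith))
    have h3 : lam * (g + 2) ≤ lam * ((r₀ * lam ^ k) * (1 - θ)) :=
      mul_le_mul_of_nonneg_left h2 (by linarith)
    have h4 : 0 ≤ (lam - 1) * g := mul_nonneg (by linarith) (by linarith)
    have h5 : 0 ≤ lam * (1 - θ) := mul_nonneg (by linarith) (by linarith)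
    have h6 : r₀ * lam ^ (k + 1) = lam * (r₀ * lam ^ k) := by rw [pow_succ]; ring
    rw [h6]
    nlinarith
  have hl : ∀ k : ℕ, (1 - η) * Real.log lam ≤
      Real.log (r₀ * lam ^ (k + 1) - g) - Real.log (r₀ * lam ^ k + 2) := by
    intro k
    have h1 := hmono k
    have h2 : 0 < r₀ * lam ^ k + 2 := by linarith
    have h3 : 0 < θ * lam := mul_pos hθ0 (by linarith)
    have h4 := Real.log_le_log (mul_pos h3 h2) (key k)
    rw [Real.log_mul h3.ne' h2.ne', Real.log_mul hθ0.ne' (by linarith : lam ≠ 0) , hθ,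
      Real.log_exp] at h4
    linarith
  have huv : ∀ k : ℕ, r₀ * lam ^ k + 2 < r₀ * lam ^ (k + 1) - g := by
    intro k
    have h1 := hmono k
    have h2 : 0 < r₀ * lam ^ k + 2 := by linarith
    have h3 : 0 < θ * lam := mul_pos hθ0 (by linarith)
    have h4 := key k
    have h5 := hl k
    have h6 : 0 < (1 - η) * Real.log lam := mul_pos (by linarith) hlog
    have h7 : 0 < r₀ * lam ^ (k + 1) - g := lt_of_lt_of_le (mul_pos h3 h2) h4
    exact (Real.log_lt_log_iff h2 h7).1 (by linarith)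
  refine ⟨r₀, hr1, ?_⟩
  intro n L _ c hL
  refine ⟨fun k z => taskE_P (r₀ * lam ^ k + 2) (r₀ * lam ^ (k + 1) - g) (tnorm (z - c)), ?_, ?_⟩
  · intro k _
    have h1 := hmono k
    refine ⟨fun z hz => taskE_P_one (by linarith) (huv k) hz,
      fun z hz => taskE_P_zero (by linarith) (huv k) hz, ?_⟩
    unfold Wd esum
    exact Finset.sum_nonneg fun z _ => by positivity
  · have hR : 4 ≤ r₀ * lam ^ n := hr1.trans (hmono n)
    have h1 := taskE_Wd_lg hR (by linarith : 2 * (r₀ * lam ^ n) + 4 < (L : ℝ)) c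
    have hℓ : 0 < (1 - η) * Real.log lam := mul_pos (by linarith) hlog
    have h2 : ∑ k ∈ Finset.range n, Wd (fun z : Tor L =>
        taskE_P (r₀ * lam ^ k + 2) (r₀ * lam ^ (k + 1) - g) (tnorm (z - c))) ≤
        Wd (fun z : Tor L => Dsc.lg (r₀ * lam ^ n) (tnorm (z - c))) /
          ((1 - η) * Real.log lam) ^ 2 := by
      unfold Wd esum
      rw [Finset.sum_comm, Finset.sum_div]
      refine Finset.sum_le_sum fun z _ => ?_
      rw [Finset.sum_add_distrib, add_div]
      exact add_le_add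
        (taskE_edge hlam hg hr1 hl hη1 huv n (Dsc.step c z _ Dsc.u1))
        (taskE_edge hlam hg hr1 hl hη1 huv n (Dsc.step c z _ Dsc.u3))
    exact h2.trans (div_le_div_of_nonneg_right h1 (by positivity))

end Pool.Agent.H716R2.ON
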