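import Mathlib
import Pool.Agent.H716R2.ON.Base
import Pool.Agent.H12R2.ON.LocRot

/-! # Integration by parts for local rotations (task I1, helper512) -/

set_option autoImplicit false

noncomputable section

namespace Pool.Agent.H716R2.ON

open MeasureTheory Pool.Agent.H5R2.ON Pool.Agent.H12R2.ON

variable {N L : ℕ} [NeZero L]

omit [NeZero L] in
theorem i1_gen_apply (p k i : Fin N) (v : Fin N → ℝ) :
    ∑ j, gen p k i j * v j = (if i = k then v p else 0) - (if i = p then v k else 0) := by
  simp only [gen, sub_mul, ite_mul, one_mul, zero_mul, Finset.sum_sub_distrib]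
  congr 1
  · by_cases h : i = k <;> simp [h]
  · by_cases h : i = p <;> simp [h]

omit [NeZero L] in
theorem i1_gen_anti (p k : Fin N) : Anti (gen p k) := by
  intro i j
  simp only [gen]
  have h1 : (i = k ∧ j = p) ↔ (j = p ∧ i = k) := and_comm
  have h2 : (i = p ∧ j = k) ↔ (j = k ∧ i = p) := and_comm
  simp only [h1, h2]
  ring

omit [NeZero L] in
theorem i1_rotF_add {p k : Fin N} (h : p ≠ k) (s t : ℝ) (v : EuclideanSpace ℝ (Fin N)) :
    rotF p k (s + t) v = rotF p k s (rotF p k t v) := by
  ext i
  by_cases h1 : i = p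
  · subst h1
    simp only [rotF_p, rotF_k h, Real.cos_add, Real.sin_add]
    ring
  · by_cases h2 : i = k
    · subst h2
      simp only [rotF_p, rotF_k h, Real.cos_add, Real.sin_add]
      ring
    · simp [rotF_o h1 h2]

omit [NeZero L] in
theorem i1_rotF_zero {p k : Fin N} (h : p ≠ k) (v : EuclideanSpace ℝ (Fin N)) :
    rotF p k 0 v = v := by
  ext i
  by_cases h1 : i = p
  · subst h1; simp [rotF_p]
  · by_cases h2 : i = k
    · subst h2; simp [rotF_k h]
    · simp [rotF_o h1 h2]

omit [NeZero L] in
theorem i1_rotC_add {p k : Fin N} (h : p ≠ k) (a : Tor L → ℝ) (s t : ℝ) (S : Conf N L) :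
    rotC p k h (fun x => (s + t) * a x) S =
      rotC p k h (fun x => s * a x) (rotC p k h (fun x => t * a x) S) := by
  funext x
  apply Subtype.ext
  rw [rotC_apply, rotC_apply, rotC_apply, add_mul, i1_rotF_add h]

omit [NeZero L] in
theorem i1_rotC_zero {p k : Fin N} (h : p ≠ k) (a : Tor L → ℝ) (S : Conf N L) :
    rotC p k h (fun x => 0 * a x) S = S := by
  funext x
  apply Subtype.ext
  rw [rotC_apply, zero_mul, i1_rotF_zero h]

omit [NeZero L] in
theorem i1_rotC_glue {p k : Fin N} (h : p ≠ k) (V : Finset (Tor L)) (a : Tor L → ℝ)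
    (ha : ∀ x ∉ V, a x = 0) (t : ℝ) (σ τ : Conf N L) :
    rotC p k h (fun x => t * a x) (glue V σ τ) =
      glue V (rotC p k h (fun x => t * a x) σ) τ := by
  funext x
  apply Subtype.ext
  by_cases hx : x ∈ V
  · have e1 : glue V σ τ x = σ x := by simp [glue, hx]
    have e2 : glue V (rotC p k h (fun x => t * a x) σ) τ x =
      rotC p k h (fun x => t * a x) σ x := by simp [glue, hx]
    rw [e2, rotC_apply, rotC_apply, e1]
  · have e1 : glue V σ τ x = τ x := by simp [glue, hx]
    have e2 : glue V (rotC p k h (fun x => t * a x) σ) τ x = τ x := by simp [glue, hx]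
    rw [e2, rotC_apply, e1, ha x hx, mul_zero, i1_rotF_zero h]

omit [NeZero L] in
theorem i1_cont_rotC {p k : Fin N} (h : p ≠ k) (φ : Tor L → ℝ) :
    Continuous fun S : Conf N L => rotC p k h φ S :=
  continuous_pi fun x => (rotH p k h (φ x)).continuous.comp (continuous_apply x)

omit [NeZero L] in
theorem i1_cont_glue (V : Finset (Tor L)) (τ : Conf N L) :
    Continuous fun σ : Conf N L => glue V σ τ := by
  refine continuous_pi fun x => ?_
  by_cases hx : x ∈ V
  · simp only [glue, hx, if_true]
    exact continuous_apply x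
  · simp only [glue, hx, if_false]
    exact continuous_const

omit [NeZero L] in
theorem i1_cont_co (x : Tor L) (i : Fin N) : Continuous fun S : Conf N L => co S x i := by
  have h1 : Continuous fun S : Conf N L => (S x : EuclideanSpace ℝ (Fin N)) :=
    continuous_subtype_val.comp (continuous_apply x)
  exact (EuclideanSpace.proj (𝕜 := ℝ) i).continuous.comp h1

theorem i1_cont_Hb (a : Tor L → ℝ) (b : Fin N → Fin N → ℝ) :
    Continuous fun S : Conf N L => Hb a b S := by
  unfold Hb esum
  have h := fun (x : Tor L) (i : Fin N) => i1_cont_co (N := N) (L := L) x i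
  refine continuous_finsetSum _ fun z _ => Continuous.add ?_ ?_
  · refine continuous_const.mul (continuous_finsetSum _ fun i _ =>
      continuous_finsetSum _ fun j _ => ?_)
    exact ((h _ _).mul continuous_const).mul (h _ _)
  · refine continuous_const.mul (continuous_finsetSum _ fun i _ =>
      continuous_finsetSum _ fun j _ => ?_)
    exact ((h _ _).mul continuous_const).mul (h _ _)

omit [NeZero L] in
/-- the derivative of a coordinate along the rotations -/
theorem i1_deriv_co {p k : Fin N} (h : p ≠ k) (a : Tor L → ℝ) (S : Conf N L) (x : Tor L)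
    (i : Fin N) :
    HasDerivAt (fun θ : ℝ => co (rotC p k h (fun x => θ * a x) S) x i)
      (a x * ∑ j, gen p k i j * co S x j) 0 := by
  have hf : (fun θ : ℝ => co (rotC p k h (fun x => θ * a x) S) x i) =
      fun θ : ℝ => rotF p k (θ * a x) (S x : EuclideanSpace ℝ (Fin N)) i := by
    funext θ
    rw [co, rotC_apply]
  rw [hf]
  have hl : HasDerivAt (fun θ : ℝ => θ * a x) (a x) 0 := by
    simpa using (hasDerivAt_id (0 : ℝ)).mul_const (a x)
  have hc : HasDerivAt (fun θ : ℝ => Real.cos (θ * a x)) 0 0 := by
    have := hl.cos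
    simpa using this
  have hs : HasDerivAt (fun θ : ℝ => Real.sin (θ * a x)) (a x) 0 := by
    have := hl.sin
    simpa using this
  rw [i1_gen_apply p k i (fun j => co S x j)]
  by_cases h1 : i = p
  · subst h1
    simp only [rotF_p, h, if_true, if_false]
    have := (hc.mul_const ((S x : EuclideanSpace ℝ (Fin N)) i)).sub
      (hs.mul_const ((S x : EuclideanSpace ℝ (Fin N)) k))
    refine this.congr_deriv ?_
    simp only [co]
    ring
  · by_cases h2 : i = k
    · subst h2
      simp only [rotF_k h, h.symm, if_true, if_false]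
      have := (hs.mul_const ((S x : EuclideanSpace ℝ (Fin N)) p)).add
        (hc.mul_const ((S x : EuclideanSpace ℝ (Fin N)) i))
      refine this.congr_deriv ?_
      simp only [co]
      ring
    · simp only [rotF_o h1 h2, h1, h2, if_false, sub_self, mul_zero]
      exact hasDerivAt_const _ _

omit [NeZero L] in
theorem i1_bond {p k : Fin N} (h : p ≠ k) (a : Tor L → ℝ) (S : Conf N L) (y z : Tor L) :
    HasDerivAt (fun θ : ℝ => inner ℝ
      ((rotC p k h (fun x => θ * a x) S) y : EuclideanSpace ℝ (Fin N))
      ((rotC p k h (fun x => θ * a x) S) z))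
      ((a z - a y) * ∑ i, ∑ j, co S y i * gen p k i j * co S z j) 0 := by
  have hf : (fun θ : ℝ => inner ℝ
      ((rotC p k h (fun x => θ * a x) S) y : EuclideanSpace ℝ (Fin N))
      ((rotC p k h (fun x => θ * a x) S) z)) = fun θ : ℝ => ∑ i,
        co (rotC p k h (fun x => θ * a x) S) y i * co (rotC p k h (fun x => θ * a x) S) z i := by
    funext θ
    rw [inner_sum]
    rfl
  rw [hf]
  have hd := HasDerivAt.fun_sum (u := Finset.univ) fun (i : Fin N) _ =>
    (i1_deriv_co h a S y i).mul (i1_deriv_co h a S z i)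
  refine hd.congr_deriv ?_
  simp only [i1_rotC_zero h]
  have hanti := i1_gen_anti p k
  have e1 : ∑ i, ∑ j, co S y i * gen p k i j * co S z j =
      ∑ i, co S y i * ∑ j, gen p k i j * co S z j := by
    refine Finset.sum_congr rfl fun i _ => ?_
    rw [Finset.mul_sum]
    exact Finset.sum_congr rfl fun j _ => by ring
  have e2 : ∑ i, ∑ j, co S y i * gen p k i j * co S z j =
      - ∑ i, (∑ j, gen p k i j * co S y j) * co S z i := by
    rw [Finset.sum_comm, ← Finset.sum_neg_distrib]
    refine Finset.sum_congr rfl fun j _ => ?_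
    rw [Finset.sum_mul, ← Finset.sum_neg_distrib]
    refine Finset.sum_congr rfl fun i _ => ?_
    rw [hanti i j]
    ring
  calc ∑ i, (a y * (∑ j, gen p k i j * co S y j) * co S z i +
        co S y i * (a z * ∑ j, gen p k i j * co S z j))
      = a y * (∑ i, (∑ j, gen p k i j * co S y j) * co S z i) +
        a z * ∑ i, co S y i * ∑ j, gen p k i j * co S z j := by
        rw [Finset.mul_sum, Finset.mul_sum, ← Finset.sum_add_distrib]
        exact Finset.sum_congr rfl fun i _ => by ring
    _ = (a z - a y) * ∑ i, ∑ j, co S y i * gen p k i j * co S z j := by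
        rw [← e1]
        linear_combination (a y) * e2

/-- the derivative of the energy along the rotations -/
theorem i1_deriv_pairSum {p k : Fin N} (h : p ≠ k) (a : Tor L → ℝ) (S : Conf N L) :
    HasDerivAt (fun θ : ℝ => pairSum (rotC p k h (fun x => θ * a x) S)) (Hb a (gen p k) S) 0 := by
  unfold pairSum Hb esum
  exact HasDerivAt.fun_sum fun z _ => (i1_bond h a S z (z + (1, 0))).add (i1_bond h a S z (z + (0, 1)))

omit [NeZero L] in
/-- derivative at a general angle -/
theorem i1_deriv_at {p k : Fin N} (h : p ≠ k) (a : Tor L → ℝ) {F F' : Conf N L → ℝ}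
    (hd : ∀ S : Conf N L, HasDerivAt
      (fun θ : ℝ => F (rotC p k h (fun x => θ * a x) S)) (F' S) 0) (S : Conf N L) (t : ℝ) :
    HasDerivAt (fun θ : ℝ => F (rotC p k h (fun x => θ * a x) S))
      (F' (rotC p k h (fun x => t * a x) S)) t := by
  have h1 := hd (rotC p k h (fun x => t * a x) S)
  have h3 : HasDerivAt (fun θ : ℝ => F (rotC p k h (fun x => θ * a x)
      (rotC p k h (fun x => t * a x) S))) (F' (rotC p k h (fun x => t * a x) S)) (t - t) := by
    rw [sub_self]; exact h1
  have h4 := HasDerivAt.comp_sub_const t t h3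
  refine h4.congr_of_eventuallyEq (Filter.Eventually.of_forall fun θ => ?_)
  simp only
  rw [← i1_rotC_add h, sub_add_cancel]

/-- `a` vanishes off `V`. General form: `F` is continuous, `F'` is its derivative along the
rotations of angle `θ * a x` in the plane `(p, k)`. -/
theorem ibp (hN : N ≠ 0) (β : ℝ) (V : Finset (Tor L)) (a : Tor L → ℝ) (ha : ∀ x ∉ V, a x = 0)
    {p k : Fin N} (hpk : p ≠ k) {F F' : Conf N L → ℝ} (hF : Continuous F) (hF' : Continuous F')
    (hd : ∀ S : Conf N L, HasDerivAt
      (fun θ : ℝ => F (Pool.Agent.H12R2.ON.rotC p k hpk (fun x => θ * a x) S)) (F' S) 0)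
    (τ : Conf N L) :
    KK β V F' τ + β * KK β V (fun S => F S * Hb a (gen p k) S) τ = 0 := by
  have hPc : Continuous (pairSum : Conf N L → ℝ) := continuous_pairSum N L
  have hEc : Continuous fun S : Conf N L => Real.exp (β * pairSum S) :=
    Real.continuous_exp.comp (continuous_const.mul hPc)
  have hHc := i1_cont_Hb (N := N) a (gen p k)
  set G : Conf N L → ℝ := fun S => Real.exp (β * pairSum S) * F S with hG
  set G' : Conf N L → ℝ := fun S => Real.exp (β * pairSum S) *
    (F' S + β * (F S * Hb a (gen p k) S)) with hG'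
  have hGc : Continuous G := hEc.mul hF
  have hG'c : Continuous G' := hEc.mul (hF'.add (continuous_const.mul (hF.mul hHc)))
  have hGd : ∀ S : Conf N L, HasDerivAt
      (fun θ : ℝ => G (rotC p k hpk (fun x => θ * a x) S)) (G' S) 0 := by
    intro S
    have h1 := ((i1_deriv_pairSum hpk a S).const_mul β).exp
    have h2 := h1.mul (hd S)
    refine h2.congr_deriv ?_
    simp only [i1_rotC_zero hpk, hG']
    ring
  obtain ⟨M, hM⟩ := (isCompact_univ (X := Conf N L)).exists_bound_of_continuousOn
    hG'c.continuousOn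
  have hcg : ∀ θ : ℝ, Continuous fun σ : Conf N L =>
      rotC p k hpk (fun x => θ * a x) (glue V σ τ) := fun θ =>
    (i1_cont_rotC hpk _).comp (i1_cont_glue V τ)
  have hder := hasDerivAt_integral_of_dominated_loc_of_deriv_le
    (μ := prior N L) (F := fun (θ : ℝ) (σ : Conf N L) =>
      G (rotC p k hpk (fun x => θ * a x) (glue V σ τ)))
    (F' := fun (θ : ℝ) (σ : Conf N L) =>
      G' (rotC p k hpk (fun x => θ * a x) (glue V σ τ))) (x₀ := (0 : ℝ)) (s := Set.univ)
    Filter.univ_mem (bound := fun _ => M)
    (Filter.Eventually.of_forall fun θ => (hGc.comp (hcg θ)).aestronglyMeasurable)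
    (integrable_prior N L (hGc.comp (hcg 0)))
    ((hG'c.comp (hcg 0)).aestronglyMeasurable)
    (Filter.Eventually.of_forall fun σ θ _ => hM _ (Set.mem_univ _))
    (integrable_const M)
    (Filter.Eventually.of_forall fun σ θ _ => i1_deriv_at hpk a hGd (glue V σ τ) θ)
  have hconst : (fun θ : ℝ => ∫ σ, G (rotC p k hpk (fun x => θ * a x) (glue V σ τ)) ∂(prior N L)) =
      fun _ => ∫ σ, G (glue V σ τ) ∂(prior N L) := by
    funext θ
    simp_rw [i1_rotC_glue hpk V a ha]
    exact (mp_rotC hN p k hpk (fun x => θ * a x)).integral_comp' (fun σ => G (glue V σ τ))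
  have h0 : ∫ σ, G' (glue V σ τ) ∂(prior N L) = 0 := by
    have h1 := hder.2
    rw [hconst] at h1
    have h2 := h1.unique (hasDerivAt_const (0 : ℝ) _)
    simpa only [i1_rotC_zero hpk] using h2
  have hsplit : II β V F' τ + β * II β V (fun S => F S * Hb a (gen p k) S) τ = 0 := by
    unfold II
    rw [← integral_const_mul, ← integral_add]
    · rw [← h0]
      refine integral_congr_ae (Filter.Eventually.of_forall fun σ => ?_)
      simp only [hG']
      ring
    · exact integrable_prior N L ((hEc.mul hF').comp (i1_cont_glue V τ))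
    · exact (integrable_prior N L ((hEc.mul (hF.mul hHc)).comp (i1_cont_glue V τ))).const_mul β
  unfold KK
  rw [← mul_div_assoc, ← add_div, hsplit, zero_div]

end Pool.Agent.H716R2.ON
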