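import Mathlib
import Pool.Agent.H716R2.ON.Base
import Pool.Agent.H716R2.ON.Cas
import Pool.Agent.H716R2.ON.IBP1

/-! # Integration by parts, part 2 (task I2, helper512) -/

set_option autoImplicit false

noncomputable section

namespace Pool.Agent.H716R2.ON

open MeasureTheory Pool.Agent.H5R2.ON Pool.Agent.H12R2.ON

variable {N L : ℕ} [NeZero L]

private theorem i2_int (β : ℝ) (V : Finset (Tor L)) {φ : Conf N L → ℝ} (hφ : Continuous φ)
    (τ : Conf N L) :
    Integrable (fun σ => Real.exp (β * pairSum (glue V σ τ)) * φ (glue V σ τ)) (prior N L) := by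
  have h1 : Continuous fun S : Conf N L => Real.exp (β * pairSum S) * φ S :=
    (Real.continuous_exp.comp (continuous_const.mul (continuous_pairSum N L))).mul hφ
  exact integrable_prior N L (h1.comp (i1_cont_glue V τ))

private theorem i2_sum (β : ℝ) (V : Finset (Tor L)) {ι : Type*} (s : Finset ι)
    {φ : ι → Conf N L → ℝ} (hφ : ∀ i ∈ s, Continuous (φ i)) (τ : Conf N L) :
    KK β V (fun S => ∑ i ∈ s, φ i S) τ = ∑ i ∈ s, KK β V (φ i) τ := by
  unfold KK
  rw [← Finset.sum_div]
  congr 1
  unfold II
  rw [← integral_finsetSum]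
  · refine integral_congr_ae (Filter.Eventually.of_forall fun σ => ?_)
    simp only [Finset.mul_sum]
  · exact fun i hi => i2_int β V (hφ i hi) τ

private theorem i2_cmul (β : ℝ) (V : Finset (Tor L)) (c : ℝ) (φ : Conf N L → ℝ) (τ : Conf N L) :
    KK β V (fun S => c * φ S) τ = c * KK β V φ τ := by
  unfold KK II
  rw [← mul_div_assoc, ← integral_const_mul]
  congr 2
  funext σ
  ring

private theorem i2_add (β : ℝ) (V : Finset (Tor L)) {φ ψ : Conf N L → ℝ} (hφ : Continuous φ)
    (hψ : Continuous ψ) (τ : Conf N L) :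
    KK β V (fun S => φ S + ψ S) τ = KK β V φ τ + KK β V ψ τ := by
  unfold KK
  rw [← add_div]
  congr 1
  unfold II
  rw [← integral_add (i2_int β V hφ τ) (i2_int β V hψ τ)]
  refine integral_congr_ae (Filter.Eventually.of_forall fun σ => ?_)
  simp only [mul_add]

/-- `Hb` is linear in the matrix -/
theorem i2_Hb_lin (a : Tor L → ℝ) (c : Fin N → Fin N → ℝ) {b : Fin N → Fin N → ℝ}
    (hb : ∀ i j, b i j = ∑ p, ∑ k, c p k * gen p k i j) (S : Conf N L) :
    Hb a b S = ∑ p, ∑ k, c p k * Hb a (gen p k) S := by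
  have h1 : ∀ y z : Tor L, ∑ i, ∑ j, co S y i * b i j * co S z j =
      ∑ p, ∑ k, c p k * ∑ i, ∑ j, co S y i * gen p k i j * co S z j := by
    intro y z
    calc ∑ i, ∑ j, co S y i * b i j * co S z j
        = ∑ i, ∑ j, ∑ p, ∑ k, c p k * (co S y i * gen p k i j * co S z j) := by
          refine Finset.sum_congr rfl fun i _ => Finset.sum_congr rfl fun j _ => ?_
          rw [hb i j, Finset.mul_sum, Finset.sum_mul]
          refine Finset.sum_congr rfl fun p _ => ?_
          rw [Finset.mul_sum, Finset.sum_mul]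
          exact Finset.sum_congr rfl fun k _ => by ring
      _ = ∑ i, ∑ p, ∑ k, ∑ j, c p k * (co S y i * gen p k i j * co S z j) := by
          refine Finset.sum_congr rfl fun i _ => ?_
          rw [Finset.sum_comm]
          refine Finset.sum_congr rfl fun p _ => ?_
          rw [Finset.sum_comm]
      _ = ∑ p, ∑ k, ∑ i, ∑ j, c p k * (co S y i * gen p k i j * co S z j) := by
          rw [Finset.sum_comm]
          refine Finset.sum_congr rfl fun p _ => ?_
          rw [Finset.sum_comm]
      _ = ∑ p, ∑ k, c p k * ∑ i, ∑ j, co S y i * gen p k i j * co S z j := by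
          refine Finset.sum_congr rfl fun p _ => Finset.sum_congr rfl fun k _ => ?_
          rw [Finset.mul_sum]
          exact Finset.sum_congr rfl fun i _ => by rw [Finset.mul_sum]
  have h2 : ∀ p k : Fin N, Hb a (gen p k) S = ∑ z : Tor L,
      ((a (z + (1, 0)) - a z) * (∑ i, ∑ j, co S z i * gen p k i j * co S (z + (1, 0)) j) +
      (a (z + (0, 1)) - a z) * (∑ i, ∑ j, co S z i * gen p k i j * co S (z + (0, 1)) j)) :=
    fun p k => rfl
  unfold Hb esum
  calc ∑ z : Tor L, ((a (z + (1, 0)) - a z) * (∑ i, ∑ j, co S z i * b i j * co S (z + (1, 0)) j) +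
      (a (z + (0, 1)) - a z) * (∑ i, ∑ j, co S z i * b i j * co S (z + (0, 1)) j))
      = ∑ z : Tor L, ∑ p, ∑ k, c p k *
        ((a (z + (1, 0)) - a z) * (∑ i, ∑ j, co S z i * gen p k i j * co S (z + (1, 0)) j) +
        (a (z + (0, 1)) - a z) * (∑ i, ∑ j, co S z i * gen p k i j * co S (z + (0, 1)) j)) := by
        refine Finset.sum_congr rfl fun z _ => ?_
        rw [h1, h1, Finset.mul_sum, Finset.mul_sum, ← Finset.sum_add_distrib]
        refine Finset.sum_congr rfl fun p _ => ?_
        rw [Finset.mul_sum, Finset.mul_sum, ← Finset.sum_add_distrib]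
        exact Finset.sum_congr rfl fun k _ => by ring
    _ = ∑ p, ∑ k, ∑ z : Tor L, c p k *
        ((a (z + (1, 0)) - a z) * (∑ i, ∑ j, co S z i * gen p k i j * co S (z + (1, 0)) j) +
        (a (z + (0, 1)) - a z) * (∑ i, ∑ j, co S z i * gen p k i j * co S (z + (0, 1)) j)) := by
        rw [Finset.sum_comm]
        refine Finset.sum_congr rfl fun p _ => ?_
        rw [Finset.sum_comm]
    _ = _ := by
        refine Finset.sum_congr rfl fun p _ => Finset.sum_congr rfl fun k _ => ?_
        rw [← Finset.mul_sum]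

/-- the general form of the integration by parts for antisymmetric matrices -/
theorem i2_general (hN : N ≠ 0) (β : ℝ) (V : Finset (Tor L)) (a : Tor L → ℝ)
    (ha : ∀ x ∉ V, a x = 0) {F : Conf N L → ℝ} (hF : Continuous F)
    (D : (Fin N → Fin N → ℝ) → Conf N L → ℝ) (hDc : ∀ b, Continuous (D b))
    (hDl : ∀ (c b : Fin N → Fin N → ℝ), (∀ i j, b i j = ∑ p, ∑ k, c p k * gen p k i j) →
      ∀ S, D b S = ∑ p, ∑ k, c p k * D (gen p k) S)
    (hd : ∀ (p k : Fin N) (hpk : p ≠ k) (S : Conf N L), HasDerivAt
      (fun θ : ℝ => F (rotC p k hpk (fun x => θ * a x) S)) (D (gen p k) S) 0)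
    {b : Fin N → Fin N → ℝ} (hb : Anti b) (τ : Conf N L) :
    KK β V (D b) τ + β * KK β V (fun S => F S * Hb a b S) τ = 0 := by
  have hbs : ∀ i j, b i j = ∑ p, ∑ k, (-(b p k) / 2) * gen p k i j := by
    intro i j
    have h := sum_gen b hb i j
    have h2 : ∑ p, ∑ k, (-(b p k) / 2) * gen p k i j =
        (-1 / 2) * ∑ p, ∑ k, b p k * gen p k i j := by
      rw [Finset.mul_sum]
      refine Finset.sum_congr rfl fun p _ => ?_
      rw [Finset.mul_sum]
      exact Finset.sum_congr rfl fun k _ => by ring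
    rw [h2, h]
    ring
  have hH : ∀ p k : Fin N, Continuous fun S : Conf N L => F S * Hb a (gen p k) S := fun p k =>
    hF.mul (i1_cont_Hb a _)
  have e1 : KK β V (D b) τ = ∑ p, ∑ k, (-(b p k) / 2) * KK β V (D (gen p k)) τ := by
    have h0 : D b = fun S => ∑ p, ∑ k, (-(b p k) / 2) * D (gen p k) S := by
      funext S
      exact hDl _ _ hbs S
    rw [h0, i2_sum]
    · refine Finset.sum_congr rfl fun p _ => ?_
      rw [i2_sum]
      · exact Finset.sum_congr rfl fun k _ => i2_cmul β V _ _ τ
      · exact fun k _ => continuous_const.mul (hDc _)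
    · exact fun p _ => continuous_finsetSum _ fun k _ => continuous_const.mul (hDc _)
  have e2 : KK β V (fun S => F S * Hb a b S) τ =
      ∑ p, ∑ k, (-(b p k) / 2) * KK β V (fun S => F S * Hb a (gen p k) S) τ := by
    have h0 : (fun S : Conf N L => F S * Hb a b S) =
        fun S => ∑ p, ∑ k, (-(b p k) / 2) * (F S * Hb a (gen p k) S) := by
      funext S
      rw [i2_Hb_lin a _ hbs S, Finset.mul_sum]
      refine Finset.sum_congr rfl fun p _ => ?_
      rw [Finset.mul_sum]
      exact Finset.sum_congr rfl fun k _ => by ring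
    rw [h0, i2_sum]
    · refine Finset.sum_congr rfl fun p _ => ?_
      rw [i2_sum]
      · exact Finset.sum_congr rfl fun k _ => i2_cmul β V _ _ τ
      · exact fun k _ => continuous_const.mul (hH p k)
    · exact fun p _ => continuous_finsetSum _ fun k _ => continuous_const.mul (hH p k)
  rw [e1, e2, Finset.mul_sum, ← Finset.sum_add_distrib]
  refine Finset.sum_eq_zero fun p _ => ?_
  rw [Finset.mul_sum, ← Finset.sum_add_distrib]
  refine Finset.sum_eq_zero fun k _ => ?_
  by_cases hpk : p = k
  · subst hpk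
    have : b p p = 0 := by have := hb p p; linarith
    rw [this]
    ring
  · have h := ibp hN β V a ha hpk hF (hDc (gen p k)) (hd p k hpk) τ
    linear_combination (-(b p k) / 2) * h

omit [NeZero L] in
theorem i2_cont_act (b : Fin N → Fin N → ℝ) (x : Tor L) (i : Fin N) :
    Continuous fun S : Conf N L => ∑ j, b i j * co S x j :=
  continuous_finsetSum _ fun j _ => continuous_const.mul (i1_cont_co x j)

omit [NeZero L] in
theorem i2_act_lin (c : Fin N → Fin N → ℝ) {b : Fin N → Fin N → ℝ}
    (hb : ∀ i j, b i j = ∑ p, ∑ k, c p k * gen p k i j) (i : Fin N) (v : Fin N → ℝ) :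
    ∑ j, b i j * v j = ∑ p, ∑ k, c p k * ∑ j, gen p k i j * v j := by
  calc ∑ j, b i j * v j = ∑ j, ∑ p, ∑ k, c p k * (gen p k i j * v j) := by
        refine Finset.sum_congr rfl fun j _ => ?_
        rw [hb i j, Finset.sum_mul]
        refine Finset.sum_congr rfl fun p _ => ?_
        rw [Finset.sum_mul]
        exact Finset.sum_congr rfl fun k _ => by ring
    _ = ∑ p, ∑ k, ∑ j, c p k * (gen p k i j * v j) := by
        rw [Finset.sum_comm]
        refine Finset.sum_congr rfl fun p _ => ?_
        rw [Finset.sum_comm]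
    _ = _ := by
        refine Finset.sum_congr rfl fun p _ => Finset.sum_congr rfl fun k _ => ?_
        rw [Finset.mul_sum]

theorem ibp_one (hN : N ≠ 0) (β : ℝ) (V : Finset (Tor L)) (a : Tor L → ℝ)
    (ha : ∀ x ∉ V, a x = 0) {b : Fin N → Fin N → ℝ} (hb : Anti b) (x : Tor L) (i : Fin N)
    (τ : Conf N L) :
    KK β V (fun S => a x * ∑ j, b i j * co S x j) τ +
      β * KK β V (fun S => co S x i * Hb a b S) τ = 0 := by
  refine i2_general hN β V a ha (F := fun S => co S x i) (i1_cont_co x i)
    (fun b S => a x * ∑ j, b i j * co S x j) (fun b => continuous_const.mul (i2_cont_act b x i))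
    ?_ ?_ hb τ
  · intro c b hcb S
    rw [i2_act_lin c hcb i, Finset.mul_sum]
    refine Finset.sum_congr rfl fun p _ => ?_
    rw [Finset.mul_sum]
    exact Finset.sum_congr rfl fun k _ => by ring
  · intro p k hpk S
    exact i1_deriv_co hpk a S x i

theorem ibp_two (hN : N ≠ 0) (β : ℝ) (V : Finset (Tor L)) (a : Tor L → ℝ)
    (ha : ∀ x ∉ V, a x = 0) {b : Fin N → Fin N → ℝ} (hb : Anti b) (y z : Tor L) (i j : Fin N)
    (τ : Conf N L) :
    KK β V (fun S => a y * (∑ m, b i m * co S y m) * co S z j +
        a z * co S y i * ∑ m, b j m * co S z m) τ +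
      β * KK β V (fun S => co S y i * co S z j * Hb a b S) τ = 0 := by
  refine i2_general hN β V a ha (F := fun S => co S y i * co S z j)
    ((i1_cont_co y i).mul (i1_cont_co z j))
    (fun b S => a y * (∑ m, b i m * co S y m) * co S z j +
        a z * co S y i * ∑ m, b j m * co S z m) (fun b => ?_) ?_ ?_ hb τ
  · exact ((continuous_const.mul (i2_cont_act b y i)).mul (i1_cont_co z j)).add
      ((continuous_const.mul (i1_cont_co y i)).mul (i2_cont_act b z j))
  · intro c b hcb S
    rw [i2_act_lin c hcb i, i2_act_lin c hcb j, Finset.mul_sum, Finset.mul_sum, Finset.sum_mul,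
      ← Finset.sum_add_distrib]
    refine Finset.sum_congr rfl fun p _ => ?_
    rw [Finset.mul_sum, Finset.mul_sum, Finset.sum_mul, ← Finset.sum_add_distrib]
    exact Finset.sum_congr rfl fun k _ => by ring
  · intro p k hpk S
    have h := (i1_deriv_co hpk a S y i).mul (i1_deriv_co hpk a S z j)
    refine h.congr_deriv ?_
    simp only [i1_rotC_zero hpk]
    ring

theorem KK_Hb_zero (hN : N ≠ 0) (β : ℝ) (hβ : β ≠ 0) (V : Finset (Tor L)) (a : Tor L → ℝ)
    (ha : ∀ x ∉ V, a x = 0) {b : Fin N → Fin N → ℝ} (hb : Anti b) (τ : Conf N L) :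
    KK β V (Hb a b) τ = 0 := by
  have h := i2_general hN β V a ha (F := fun _ => 1) continuous_const
    (fun _ _ => 0) (fun _ => continuous_const) (fun c b _ S => by simp)
    (fun p k hpk S => hasDerivAt_const _ _) hb τ
  have h0 : KK β V (fun _ : Conf N L => (0 : ℝ)) τ = 0 := by
    simp [KK, II]
  rw [h0, zero_add] at h
  have h1 : (fun S : Conf N L => (1 : ℝ) * Hb a b S) = Hb a b := by
    funext S
    rw [one_mul]
  rw [h1] at h
  exact (mul_eq_zero.1 h).resolve_left hβ

/-- the bond term of the square -/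
private theorem i2_bond (hN : N ≠ 0) (β : ℝ) (V : Finset (Tor L)) (a : Tor L → ℝ)
    (ha : ∀ x ∉ V, a x = 0) {b : Fin N → Fin N → ℝ} (hb : Anti b) (y z : Tor L) (τ : Conf N L) :
    β * KK β V (fun S => (∑ i, ∑ j, co S y i * b i j * co S z j) * Hb a b S) τ =
      (a z - a y) *
        KK β V (fun S => ∑ i, (∑ j, b i j * co S y j) * ∑ j, b i j * co S z j) τ := by
  have hc2 : ∀ i j, Continuous fun S : Conf N L => co S y i * co S z j * Hb a b S := fun i j =>
    ((i1_cont_co y i).mul (i1_cont_co z j)).mul (i1_cont_Hb a b)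
  have hD : ∀ i j, Continuous fun S : Conf N L => a y * (∑ m, b i m * co S y m) * co S z j +
        a z * co S y i * ∑ m, b j m * co S z m := fun i j =>
    ((continuous_const.mul (i2_cont_act b y i)).mul (i1_cont_co z j)).add
      ((continuous_const.mul (i1_cont_co y i)).mul (i2_cont_act b z j))
  have e1 : KK β V (fun S => (∑ i, ∑ j, co S y i * b i j * co S z j) * Hb a b S) τ =
      ∑ i, ∑ j, b i j * KK β V (fun S => co S y i * co S z j * Hb a b S) τ := by
    have h0 : (fun S : Conf N L => (∑ i, ∑ j, co S y i * b i j * co S z j) * Hb a b S) =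
        fun S => ∑ i, ∑ j, b i j * (co S y i * co S z j * Hb a b S) := by
      funext S
      rw [Finset.sum_mul]
      refine Finset.sum_congr rfl fun i _ => ?_
      rw [Finset.sum_mul]
      exact Finset.sum_congr rfl fun j _ => by ring
    rw [h0, i2_sum]
    · refine Finset.sum_congr rfl fun i _ => ?_
      rw [i2_sum]
      · exact Finset.sum_congr rfl fun j _ => i2_cmul β V _ _ τ
      · exact fun j _ => continuous_const.mul (hc2 i j)
    · exact fun i _ => continuous_finsetSum _ fun j _ => continuous_const.mul (hc2 i j)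
  have e2 : β * ∑ i, ∑ j, b i j * KK β V (fun S => co S y i * co S z j * Hb a b S) τ =
      - ∑ i, ∑ j, b i j * KK β V (fun S => a y * (∑ m, b i m * co S y m) * co S z j +
        a z * co S y i * ∑ m, b j m * co S z m) τ := by
    rw [Finset.mul_sum, ← Finset.sum_neg_distrib]
    refine Finset.sum_congr rfl fun i _ => ?_
    rw [Finset.mul_sum, ← Finset.sum_neg_distrib]
    refine Finset.sum_congr rfl fun j _ => ?_
    linear_combination (b i j) * ibp_two hN β V a ha hb y z i j τ
  have e3 : ∑ i, ∑ j, b i j * KK β V (fun S => a y * (∑ m, b i m * co S y m) * co S z j +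
        a z * co S y i * ∑ m, b j m * co S z m) τ =
      KK β V (fun S => ∑ i, ∑ j, b i j * (a y * (∑ m, b i m * co S y m) * co S z j +
        a z * co S y i * ∑ m, b j m * co S z m)) τ := by
    rw [i2_sum]
    · refine Finset.sum_congr rfl fun i _ => ?_
      rw [i2_sum]
      · exact Finset.sum_congr rfl fun j _ => (i2_cmul β V _ _ τ).symm
      · exact fun j _ => continuous_const.mul (hD i j)
    · exact fun i _ => continuous_finsetSum _ fun j _ => continuous_const.mul (hD i j)
  have e4 : (fun S : Conf N L => ∑ i, ∑ j, b i j * (a y * (∑ m, b i m * co S y m) * co S z j +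
        a z * co S y i * ∑ m, b j m * co S z m)) =
      fun S => (-(a z - a y)) * ∑ i, (∑ j, b i j * co S y j) * ∑ j, b i j * co S z j := by
    funext S
    have f1 : ∑ i, ∑ j, b i j * (a y * (∑ m, b i m * co S y m) * co S z j) =
        a y * ∑ i, (∑ j, b i j * co S y j) * ∑ j, b i j * co S z j := by
      rw [Finset.mul_sum]
      refine Finset.sum_congr rfl fun i _ => ?_
      generalize (∑ m, b i m * co S y m) = P
      rw [Finset.mul_sum, Finset.mul_sum]
      exact Finset.sum_congr rfl fun j _ => by ring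
    have f2 : ∑ i, ∑ j, b i j * (a z * co S y i * ∑ m, b j m * co S z m) =
        -(a z) * ∑ i, (∑ j, b i j * co S y j) * ∑ j, b i j * co S z j := by
      rw [Finset.sum_comm, Finset.mul_sum]
      refine Finset.sum_congr rfl fun j _ => ?_
      rw [Finset.sum_mul, Finset.mul_sum]
      refine Finset.sum_congr rfl fun i _ => ?_
      rw [hb i j]
      ring
    calc ∑ i, ∑ j, b i j * (a y * (∑ m, b i m * co S y m) * co S z j +
          a z * co S y i * ∑ m, b j m * co S z m)
        = ∑ i, ∑ j, b i j * (a y * (∑ m, b i m * co S y m) * co S z j) +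
          ∑ i, ∑ j, b i j * (a z * co S y i * ∑ m, b j m * co S z m) := by
          rw [← Finset.sum_add_distrib]
          refine Finset.sum_congr rfl fun i _ => ?_
          rw [← Finset.sum_add_distrib]
          exact Finset.sum_congr rfl fun j _ => by ring
      _ = _ := by rw [f1, f2]; ring
  rw [e1, e2, e3, e4, i2_cmul]
  ring

theorem KK_Hb_sq (hN : N ≠ 0) (β : ℝ) (V : Finset (Tor L)) (a : Tor L → ℝ)
    (ha : ∀ x ∉ V, a x = 0) {b : Fin N → Fin N → ℝ} (hb : Anti b) (τ : Conf N L) :
    β * KK β V (fun S => Hb a b S ^ 2) τ =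
      esum fun y z => (a z - a y) ^ 2 *
        KK β V (fun S => ∑ i, (∑ j, b i j * co S y j) * ∑ j, b i j * co S z j) τ := by
  have hcB : ∀ y z : Tor L, Continuous fun S : Conf N L =>
      (∑ i, ∑ j, co S y i * b i j * co S z j) * Hb a b S := fun y z =>
    (continuous_finsetSum _ fun i _ => continuous_finsetSum _ fun j _ =>
      ((i1_cont_co y i).mul continuous_const).mul (i1_cont_co z j)).mul (i1_cont_Hb a b)
  have h0 : (fun S : Conf N L => Hb a b S ^ 2) = fun S => ∑ z : Tor L,
      ((a (z + (1, 0)) - a z) *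
          ((∑ i, ∑ j, co S z i * b i j * co S (z + (1, 0)) j) * Hb a b S) +
        (a (z + (0, 1)) - a z) *
          ((∑ i, ∑ j, co S z i * b i j * co S (z + (0, 1)) j) * Hb a b S)) := by
    funext S
    have h1 : Hb a b S = ∑ z : Tor L,
      ((a (z + (1, 0)) - a z) * (∑ i, ∑ j, co S z i * b i j * co S (z + (1, 0)) j) +
      (a (z + (0, 1)) - a z) * (∑ i, ∑ j, co S z i * b i j * co S (z + (0, 1)) j)) := rfl
    have h2 : Hb a b S ^ 2 = (∑ z : Tor L,
      ((a (z + (1, 0)) - a z) * (∑ i, ∑ j, co S z i * b i j * co S (z + (1, 0)) j) +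
      (a (z + (0, 1)) - a z) * (∑ i, ∑ j, co S z i * b i j * co S (z + (0, 1)) j))) * Hb a b S := by
      rw [← h1, sq]
    rw [h2, Finset.sum_mul]
    exact Finset.sum_congr rfl fun z _ => by ring
  rw [h0, i2_sum]
  · unfold esum
    rw [Finset.mul_sum]
    refine Finset.sum_congr rfl fun z _ => ?_
    rw [i2_add, i2_cmul, i2_cmul]
    · linear_combination (a (z + (1, 0)) - a z) * i2_bond hN β V a ha hb z (z + (1, 0)) τ +
        (a (z + (0, 1)) - a z) * i2_bond hN β V a ha hb z (z + (0, 1)) τ
    · exact continuous_const.mul (hcB _ _)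
    · exact continuous_const.mul (hcB _ _)
  · exact fun z _ => (continuous_const.mul (hcB _ _)).add (continuous_const.mul (hcB _ _))

end Pool.Agent.H716R2.ON
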