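import Mathlib
import Pool.Agent.H716R2.ON.Base

/-!
# Basics of `glue`, `II` and `KK` (task K1)
-/

set_option autoImplicit false

noncomputable section

namespace Pool.Agent.H716R2.ON

open MeasureTheory Pool.Agent.H5R2.ON

variable {N L : ℕ} [NeZero L]

omit [NeZero L] in
theorem continuous_glue (V : Finset (Tor L)) :
    Continuous fun p : Conf N L × Conf N L => glue V p.1 p.2 := by
  refine continuous_pi fun x => ?_
  unfold glue
  by_cases hx : x ∈ V
  · simp only [hx, if_true]
    exact (continuous_apply x).comp continuous_fst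
  · simp only [hx, if_false]
    exact (continuous_apply x).comp continuous_snd

omit [NeZero L] in
theorem continuous_co (x : Tor L) (i : Fin N) : Continuous fun S : Conf N L => co S x i := by
  unfold co
  exact (EuclideanSpace.proj (𝕜 := ℝ) i).continuous.comp
    (continuous_subtype_val.comp (continuous_apply x))

omit [NeZero L] in
theorem abs_co_le (S : Conf N L) (x : Tor L) (i : Fin N) : |co S x i| ≤ 1 := by
  have h1 : ‖(S x : EuclideanSpace ℝ (Fin N))‖ = 1 := by simp
  have h2 := PiLp.norm_apply_le (S x : EuclideanSpace ℝ (Fin N)) i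
  rw [h1, Real.norm_eq_abs] at h2
  exact h2

omit [NeZero L] in
theorem sum_co_sq (S : Conf N L) (x : Tor L) : ∑ i, co S x i ^ 2 = 1 := by
  have h1 : ‖(S x : EuclideanSpace ℝ (Fin N))‖ = 1 := by simp
  have h2 := EuclideanSpace.norm_sq_eq (S x : EuclideanSpace ℝ (Fin N))
  rw [h1] at h2
  simp only [Real.norm_eq_abs, sq_abs] at h2
  unfold co
  rw [← h2]
  norm_num

omit [NeZero L] in
theorem inner_eq_co (S : Conf N L) (x y : Tor L) :
    inner ℝ (S x : EuclideanSpace ℝ (Fin N)) (S y) = ∑ i, co S x i * co S y i := by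
  rw [PiLp.inner_apply]
  unfold co
  exact Finset.sum_congr rfl fun i _ => by simp [mul_comm]

theorem pairSum_eq (S : Conf N L) : pairSum S = esum fun y z => ∑ i, co S y i * co S z i := by
  unfold pairSum esum
  refine Finset.sum_congr rfl fun x _ => ?_
  rw [inner_eq_co, inner_eq_co]

private theorem k1_cont (β : ℝ) (V : Finset (Tor L)) {φ : Conf N L → ℝ} (hφ : Continuous φ) :
    Continuous fun p : Conf N L × Conf N L =>
      Real.exp (β * pairSum (glue V p.2 p.1)) * φ (glue V p.2 p.1) := by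
  have hg : Continuous fun p : Conf N L × Conf N L => glue V p.2 p.1 :=
    (continuous_glue V).comp continuous_swap
  exact (Real.continuous_exp.comp
    (continuous_const.mul ((continuous_pairSum N L).comp hg))).mul (hφ.comp hg)

private theorem k1_cont1 (β : ℝ) (V : Finset (Tor L)) {φ : Conf N L → ℝ} (hφ : Continuous φ)
    (τ : Conf N L) : Continuous fun σ : Conf N L =>
      Real.exp (β * pairSum (glue V σ τ)) * φ (glue V σ τ) := by
  have hp : Continuous fun σ : Conf N L => ((σ, τ) : Conf N L × Conf N L) :=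
    Continuous.prodMk_left τ
  have hg : Continuous fun σ : Conf N L => glue V σ τ := (continuous_glue V).comp hp
  exact (Real.continuous_exp.comp
    (continuous_const.mul ((continuous_pairSum N L).comp hg))).mul (hφ.comp hg)

private theorem k1_int (β : ℝ) (V : Finset (Tor L)) {φ : Conf N L → ℝ} (hφ : Continuous φ)
    (τ : Conf N L) : Integrable (fun σ : Conf N L =>
      Real.exp (β * pairSum (glue V σ τ)) * φ (glue V σ τ)) (prior N L) :=
  integrable_prior N L (k1_cont1 β V hφ τ)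

theorem continuous_II (β : ℝ) (V : Finset (Tor L)) {φ : Conf N L → ℝ} (hφ : Continuous φ) :
    Continuous (II β V φ) := by
  have h := continuous_parametric_integral_of_continuous (μ := prior N L)
    (f := fun (τ : Conf N L) (σ : Conf N L) =>
      Real.exp (β * pairSum (glue V σ τ)) * φ (glue V σ τ)) (k1_cont β V hφ)
    (isCompact_univ : IsCompact (Set.univ : Set (Conf N L)))
  simp only [Measure.restrict_univ] at h
  exact h

theorem II_one_pos (hN : N ≠ 0) (β : ℝ) (V : Finset (Tor L)) (τ : Conf N L) :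
    0 < II β V (fun _ => 1) τ := by
  have := prior_isProbabilityMeasure N L hN
  unfold II
  simp only [mul_one]
  apply integral_exp_pos
  have h := k1_int β V (φ := fun _ => 1) continuous_const τ
  simpa only [mul_one] using h

theorem continuous_KK (hN : N ≠ 0) (β : ℝ) (V : Finset (Tor L)) {φ : Conf N L → ℝ}
    (hφ : Continuous φ) : Continuous (KK β V φ) :=
  (continuous_II β V hφ).div (continuous_II β V continuous_const)
    (fun τ => (II_one_pos hN β V τ).ne')

private theorem II_const_mul (β : ℝ) (V : Finset (Tor L)) (c : ℝ) (φ : Conf N L → ℝ)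
    (τ : Conf N L) : II β V (fun S => c * φ S) τ = c * II β V φ τ := by
  unfold II
  rw [← integral_const_mul]
  congr 1
  funext σ
  ring

theorem KK_const_mul (β : ℝ) (V : Finset (Tor L)) (c : ℝ) (φ : Conf N L → ℝ) (τ : Conf N L) :
    KK β V (fun S => c * φ S) τ = c * KK β V φ τ := by
  unfold KK
  rw [II_const_mul, mul_div_assoc]

theorem KK_const (hN : N ≠ 0) (β : ℝ) (V : Finset (Tor L)) (c : ℝ) (τ : Conf N L) :
    KK β V (fun _ => c) τ = c := by
  have h := KK_const_mul β V c (fun _ : Conf N L => (1 : ℝ)) τ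
  simp only [mul_one] at h
  rw [h]
  unfold KK
  rw [div_self (II_one_pos hN β V τ).ne', mul_one]

theorem KK_add (β : ℝ) (V : Finset (Tor L)) {φ ψ : Conf N L → ℝ} (hφ : Continuous φ)
    (hψ : Continuous ψ) (τ : Conf N L) :
    KK β V (fun S => φ S + ψ S) τ = KK β V φ τ + KK β V ψ τ := by
  unfold KK
  rw [← add_div]
  congr 1
  unfold II
  rw [← integral_add (k1_int β V hφ τ) (k1_int β V hψ τ)]
  congr 1
  funext σ
  ring

theorem KK_sub (β : ℝ) (V : Finset (Tor L)) {φ ψ : Conf N L → ℝ} (hφ : Continuous φ)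
    (hψ : Continuous ψ) (τ : Conf N L) :
    KK β V (fun S => φ S - ψ S) τ = KK β V φ τ - KK β V ψ τ := by
  unfold KK
  rw [← sub_div]
  congr 1
  unfold II
  rw [← integral_sub (k1_int β V hφ τ) (k1_int β V hψ τ)]
  congr 1
  funext σ
  ring

theorem KK_sum (β : ℝ) (V : Finset (Tor L)) {ι : Type*} (s : Finset ι) {φ : ι → Conf N L → ℝ}
    (hφ : ∀ i ∈ s, Continuous (φ i)) (τ : Conf N L) :
    KK β V (fun S => ∑ i ∈ s, φ i S) τ = ∑ i ∈ s, KK β V (φ i) τ := by
  unfold KK
  rw [← Finset.sum_div]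
  congr 1
  unfold II
  rw [← integral_finsetSum s (fun i hi => k1_int β V (hφ i hi) τ)]
  congr 1
  funext σ
  rw [Finset.mul_sum]

theorem KK_mono (hN : N ≠ 0) (β : ℝ) (V : Finset (Tor L)) {φ ψ : Conf N L → ℝ}
    (hφ : Continuous φ) (hψ : Continuous ψ) (h : ∀ S, φ S ≤ ψ S) (τ : Conf N L) :
    KK β V φ τ ≤ KK β V ψ τ := by
  unfold KK
  apply div_le_div_of_nonneg_right _ (II_one_pos hN β V τ).le
  unfold II
  apply integral_mono (k1_int β V hφ τ) (k1_int β V hψ τ)
  intro σ
  exact mul_le_mul_of_nonneg_left (h _) (Real.exp_nonneg _)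

theorem abs_KK_le (hN : N ≠ 0) (β : ℝ) (V : Finset (Tor L)) {φ : Conf N L → ℝ}
    (hφ : Continuous φ) {M : ℝ} (h : ∀ S, |φ S| ≤ M) (τ : Conf N L) : |KK β V φ τ| ≤ M := by
  rw [abs_le]
  constructor
  · have h1 := KK_mono hN β V (φ := fun _ => -M) (ψ := φ) continuous_const hφ
      (fun S => (abs_le.mp (h S)).1) τ
    rwa [KK_const hN] at h1
  · have h1 := KK_mono hN β V (φ := φ) (ψ := fun _ => M) hφ continuous_const
      (fun S => (abs_le.mp (h S)).2) τ
    rwa [KK_const hN] at h1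

private theorem KK_nonneg (hN : N ≠ 0) (β : ℝ) (V : Finset (Tor L)) {φ : Conf N L → ℝ}
    (hφ : Continuous φ) (h : ∀ S, 0 ≤ φ S) (τ : Conf N L) : 0 ≤ KK β V φ τ := by
  have h1 := KK_mono hN β V (φ := fun _ => 0) (ψ := φ) continuous_const hφ h τ
  rwa [KK_const hN] at h1

theorem KK_cs (hN : N ≠ 0) (β : ℝ) (V : Finset (Tor L)) {ι : Type*} (s : Finset ι)
    {φ ψ : ι → Conf N L → ℝ} (hφ : ∀ i ∈ s, Continuous (φ i)) (hψ : ∀ i ∈ s, Continuous (ψ i))
    (τ : Conf N L) :
    (KK β V (fun S => ∑ i ∈ s, φ i S * ψ i S) τ) ^ 2 ≤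
      KK β V (fun S => ∑ i ∈ s, φ i S ^ 2) τ * KK β V (fun S => ∑ i ∈ s, ψ i S ^ 2) τ := by
  have c1 : Continuous fun S : Conf N L => ∑ i ∈ s, φ i S ^ 2 :=
    continuous_finsetSum _ fun i hi => (hφ i hi).pow 2
  have c2 : Continuous fun S : Conf N L => ∑ i ∈ s, φ i S * ψ i S :=
    continuous_finsetSum _ fun i hi => (hφ i hi).mul (hψ i hi)
  have c3 : Continuous fun S : Conf N L => ∑ i ∈ s, ψ i S ^ 2 :=
    continuous_finsetSum _ fun i hi => (hψ i hi).pow 2
  set A := KK β V (fun S => ∑ i ∈ s, φ i S ^ 2) τ with hA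
  set B := KK β V (fun S => ∑ i ∈ s, φ i S * ψ i S) τ with hB
  set C := KK β V (fun S => ∑ i ∈ s, ψ i S ^ 2) τ with hC
  have key : ∀ t : ℝ, 0 ≤ C * (t * t) + (2 * B) * t + A := by
    intro t
    have c4 : Continuous fun S : Conf N L => ∑ i ∈ s, (φ i S + t * ψ i S) ^ 2 :=
      continuous_finsetSum _ fun i hi => ((hφ i hi).add (continuous_const.mul (hψ i hi))).pow 2
    have h0 := KK_nonneg hN β V c4 (fun S => Finset.sum_nonneg fun i _ => sq_nonneg _) τ
    have h1 : (fun S : Conf N L => ∑ i ∈ s, (φ i S + t * ψ i S) ^ 2) =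
        fun S => ((∑ i ∈ s, φ i S ^ 2) + (2 * t) * (∑ i ∈ s, φ i S * ψ i S)) +
          t ^ 2 * (∑ i ∈ s, ψ i S ^ 2) := by
      funext S
      rw [Finset.mul_sum, Finset.mul_sum, ← Finset.sum_add_distrib, ← Finset.sum_add_distrib]
      refine Finset.sum_congr rfl fun i _ => ?_
      ring
    have c5 : Continuous fun S : Conf N L => (2 * t) * (∑ i ∈ s, φ i S * ψ i S) :=
      continuous_const.mul c2
    have c6 : Continuous fun S : Conf N L => t ^ 2 * (∑ i ∈ s, ψ i S ^ 2) :=
      continuous_const.mul c3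
    have c7 : Continuous fun S : Conf N L =>
        (∑ i ∈ s, φ i S ^ 2) + (2 * t) * (∑ i ∈ s, φ i S * ψ i S) := c1.add c5
    rw [h1, KK_add β V c7 c6, KK_add β V c1 c5, KK_const_mul, KK_const_mul,
      ← hA, ← hB, ← hC] at h0
    linarith [h0]
  have h := discrim_le_zero key
  unfold discrim at h
  nlinarith [h]

/-- Jensen for vectors: the norm of the conditional expectation -/
theorem KK_norm_sq_le (hN : N ≠ 0) (β : ℝ) (V : Finset (Tor L)) {ι : Type*} (s : Finset ι)
    {φ : ι → Conf N L → ℝ} (hφ : ∀ i ∈ s, Continuous (φ i)) (τ : Conf N L) :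
    ∑ i ∈ s, (KK β V (φ i) τ) ^ 2 ≤ KK β V (fun S => ∑ i ∈ s, φ i S ^ 2) τ := by
  have c1 : Continuous fun S : Conf N L => ∑ i ∈ s, φ i S ^ 2 :=
    continuous_finsetSum _ fun i hi => (hφ i hi).pow 2
  set c : ι → ℝ := fun i => KK β V (φ i) τ with hc
  have c2 : ∀ i ∈ s, Continuous fun S : Conf N L => c i * φ i S :=
    fun i hi => continuous_const.mul (hφ i hi)
  have c3 : Continuous fun S : Conf N L => ∑ i ∈ s, c i * φ i S := continuous_finsetSum _ c2
  have c4 : Continuous fun S : Conf N L => ∑ i ∈ s, (φ i S - c i) ^ 2 :=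
    continuous_finsetSum _ fun i hi => ((hφ i hi).sub continuous_const).pow 2
  have h0 := KK_nonneg hN β V c4 (fun S => Finset.sum_nonneg fun i _ => sq_nonneg _) τ
  have h1 : (fun S : Conf N L => ∑ i ∈ s, (φ i S - c i) ^ 2) =
      fun S => ((∑ i ∈ s, φ i S ^ 2) + (-2) * (∑ i ∈ s, c i * φ i S)) + ∑ i ∈ s, c i ^ 2 := by
    funext S
    rw [Finset.mul_sum, ← Finset.sum_add_distrib, ← Finset.sum_add_distrib]
    refine Finset.sum_congr rfl fun i _ => ?_
    ring
  have c5 : Continuous fun S : Conf N L => (-2) * (∑ i ∈ s, c i * φ i S) :=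
    continuous_const.mul c3
  have c6 : Continuous fun S : Conf N L =>
      (∑ i ∈ s, φ i S ^ 2) + (-2) * (∑ i ∈ s, c i * φ i S) := c1.add c5
  have c7 : Continuous fun _ : Conf N L => ∑ i ∈ s, c i ^ 2 := continuous_const
  rw [h1, KK_add β V c6 c7, KK_add β V c1 c5, KK_const_mul, KK_sum β V s c2,
    KK_const hN] at h0
  have h2 : ∑ i ∈ s, KK β V (fun S => c i * φ i S) τ = ∑ i ∈ s, c i ^ 2 := by
    refine Finset.sum_congr rfl fun i _ => ?_
    rw [KK_const_mul]
    simp only [hc]
    ring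
  rw [h2] at h0
  have h3 : ∑ i ∈ s, (KK β V (φ i) τ) ^ 2 = ∑ i ∈ s, c i ^ 2 := rfl
  rw [h3]
  linarith

end Pool.Agent.H716R2.ON
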