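import Mathlib
import Pool.Agent.H716R2.ON.Base
import Pool.Agent.H5R2.ON.Basic

/-!
# Locality, tower property, Markov property of the kernels `KK`, relation to the Gibbs measure
-/

set_option autoImplicit false

noncomputable section

namespace Pool.Agent.H716R2.ON

open MeasureTheory Pool.Agent.H5R2.ON

variable {N L : ℕ} [NeZero L]

omit [NeZero L] in
private theorem K2_glue_glue (V : Finset (Tor L)) (s r t : Conf N L) :
    glue V s (glue V r t) = glue V s t := by
  funext x
  unfold glue
  by_cases hx : x ∈ V <;> simp [hx]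

omit [NeZero L] in
private theorem K2_glue_sub {V W : Finset (Tor L)} (h : V ⊆ W) (s r t : Conf N L) :
    glue W (glue V s r) t = glue V s (glue W r t) := by
  funext x
  unfold glue
  by_cases hx : x ∈ V
  · simp [hx, h hx]
  · simp [hx]

omit [NeZero L] in
private theorem K2_continuous_glue (V : Finset (Tor L)) :
    Continuous fun p : Conf N L × Conf N L => glue V p.1 p.2 := by
  refine continuous_pi fun x => ?_
  unfold glue
  by_cases hx : x ∈ V
  · simp only [hx, if_true]
    exact (continuous_apply x).comp continuous_fst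
  · simp only [hx, if_false]
    exact (continuous_apply x).comp continuous_snd

private theorem K2_continuous_integrand (β : ℝ) (V : Finset (Tor L)) {φ : Conf N L → ℝ}
    (hφ : Continuous φ) : Continuous fun p : Conf N L × Conf N L =>
      Real.exp (β * pairSum (glue V p.1 p.2)) * φ (glue V p.1 p.2) := by
  have hg := K2_continuous_glue (N := N) (L := L) V
  exact (Real.continuous_exp.comp
    (continuous_const.mul ((continuous_pairSum N L).comp hg))).mul (hφ.comp hg)

private theorem K2_continuous_II (β : ℝ) (V : Finset (Tor L)) {φ : Conf N L → ℝ}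
    (hφ : Continuous φ) : Continuous (II β V φ) := by
  have h0 : Continuous fun p : Conf N L × Conf N L =>
      Real.exp (β * pairSum (glue V p.2 p.1)) * φ (glue V p.2 p.1) :=
    (K2_continuous_integrand β V hφ).comp (g := fun p : Conf N L × Conf N L =>
      Real.exp (β * pairSum (glue V p.1 p.2)) * φ (glue V p.1 p.2))
      (f := fun p : Conf N L × Conf N L => (p.2, p.1)) (continuous_snd.prodMk continuous_fst)
  have h2 := continuous_parametric_integral_of_continuous (μ := prior N L)
    (f := fun (t s : Conf N L) => Real.exp (β * pairSum (glue V s t)) * φ (glue V s t)) h0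
    (isCompact_univ (X := Conf N L))
  simp only [Measure.restrict_univ] at h2
  exact h2

private theorem K2_II_one_pos (hN : N ≠ 0) (β : ℝ) (V : Finset (Tor L)) (τ : Conf N L) :
    0 < II β V (fun _ => 1) τ := by
  have := prior_isProbabilityMeasure N L hN
  unfold II
  simp only [mul_one]
  refine integral_exp_pos (integrable_prior N L ?_)
  exact Real.continuous_exp.comp (continuous_const.mul ((continuous_pairSum N L).comp
    ((K2_continuous_glue V).comp (continuous_id.prodMk continuous_const))))

private theorem K2_continuous_KK (hN : N ≠ 0) (β : ℝ) (V : Finset (Tor L)) {φ : Conf N L → ℝ}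
    (hφ : Continuous φ) : Continuous (KK β V φ) := by
  unfold KK
  exact (K2_continuous_II β V hφ).div (K2_continuous_II β V continuous_const)
    fun τ => (K2_II_one_pos hN β V τ).ne'

private theorem K2_II_off (β : ℝ) (V : Finset (Tor L)) (φ : Conf N L → ℝ) :
    Off V (II β V φ) := by
  intro σ τ
  unfold II
  simp only [K2_glue_glue]

theorem KK_off (β : ℝ) (V : Finset (Tor L)) (φ : Conf N L → ℝ) : Off V (KK β V φ) := by
  intro σ τ
  unfold KK
  rw [K2_II_off β V φ σ τ, K2_II_off β V (fun _ => 1) σ τ]

theorem KK_mul_off (β : ℝ) (V : Finset (Tor L)) (g φ : Conf N L → ℝ) (hg : Off V g)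
    (τ : Conf N L) : KK β V (fun S => g S * φ S) τ = g τ * KK β V φ τ := by
  unfold KK
  have h1 : II β V (fun S => g S * φ S) τ = g τ * II β V φ τ := by
    unfold II
    rw [← integral_const_mul]
    refine integral_congr_ae (Filter.Eventually.of_forall fun σ => ?_)
    simp only
    rw [hg σ τ]
    ring
  rw [h1, mul_div_assoc]

theorem KK_of_off (hN : N ≠ 0) (β : ℝ) (V : Finset (Tor L)) (g : Conf N L → ℝ) (hg : Off V g)
    (τ : Conf N L) : KK β V g τ = g τ := by
  have h1 := KK_mul_off β V g (fun _ => 1) hg τ
  simp only [mul_one] at h1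
  rw [h1]
  unfold KK
  rw [div_self (K2_II_one_pos hN β V τ).ne', mul_one]

private theorem K2_mp_glue (hN : N ≠ 0) (V : Finset (Tor L)) :
    MeasurePreserving (fun p : Conf N L × Conf N L => glue V p.2 p.1)
      ((prior N L).prod (prior N L)) (prior N L) := by
  classical
  have h1 := unif_isProbabilityMeasure N hN
  have h2 := prior_isProbabilityMeasure N L hN
  have hm : Measurable (fun p : Conf N L × Conf N L => glue V p.2 p.1) :=
    ((K2_continuous_glue V).comp continuous_swap).measurable
  refine ⟨hm, ?_⟩
  symm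
  unfold prior
  refine Measure.pi_eq fun s hs => ?_
  rw [Measure.map_apply hm (MeasurableSet.univ_pi hs)]
  have hpre : (fun p : Conf N L × Conf N L => glue V p.2 p.1) ⁻¹' (Set.pi Set.univ s) =
      (Set.pi Set.univ fun i => if i ∈ V then Set.univ else s i) ×ˢ
        (Set.pi Set.univ fun i => if i ∈ V then s i else Set.univ) := by
    ext p
    simp only [Set.mem_preimage, Set.mem_pi, Set.mem_univ, true_implies, Set.mem_prod, glue]
    constructor
    · intro h
      constructor
      · intro i
        by_cases hi : i ∈ V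
        · simp [hi]
        · have := h i
          simpa [hi] using this
      · intro i
        by_cases hi : i ∈ V
        · have := h i
          simpa [hi] using this
        · simp [hi]
    · rintro ⟨h1, h2⟩ i
      by_cases hi : i ∈ V
      · have := h2 i
        simpa [hi] using this
      · have := h1 i
        simpa [hi] using this
  rw [hpre, Measure.prod_prod, Measure.pi_pi, Measure.pi_pi, ← Finset.prod_mul_distrib]
  refine Finset.prod_congr rfl fun i _ => ?_
  by_cases hi : i ∈ V
  · simp [hi]
  · simp [hi]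

theorem prior_resample (V : Finset (Tor L)) (F : Conf N L → ℝ) (hF : Continuous F) :
    ∫ S, F S ∂(prior N L) = ∫ S, ∫ σ, F (glue V σ S) ∂(prior N L) ∂(prior N L) := by
  rcases Nat.eq_zero_or_pos N with rfl | hN
  · have h0 : IsEmpty (Sph 0) := by
      refine ⟨fun s => ?_⟩
      have h1 : ‖(s : EuclideanSpace ℝ (Fin 0))‖ = 1 := by simp
      rw [Subsingleton.elim (s : EuclideanSpace ℝ (Fin 0)) 0, norm_zero] at h1
      exact zero_ne_one h1
    have h1 : IsEmpty (Conf 0 L) := ⟨fun S => h0.elim (S 0)⟩
    rw [Measure.eq_zero_of_isEmpty (prior 0 L)]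
    simp
  · have h2 := prior_isProbabilityMeasure N L hN.ne'
    have hmp := K2_mp_glue hN.ne' V
    have hc : Continuous fun p : Conf N L × Conf N L => F (glue V p.2 p.1) :=
      hF.comp ((K2_continuous_glue V).comp continuous_swap)
    have h3 : Integrable (fun p : Conf N L × Conf N L => F (glue V p.2 p.1))
        ((prior N L).prod (prior N L)) :=
      hc.integrable_of_hasCompactSupport (HasCompactSupport.of_compactSpace _)
    rw [← integral_prod (fun p : Conf N L × Conf N L => F (glue V p.2 p.1)) h3]
    have h4 : ∫ S, F S ∂(prior N L) = ∫ S, F S ∂(Measure.map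
        (fun p : Conf N L × Conf N L => glue V p.2 p.1) ((prior N L).prod (prior N L))) := by
      rw [hmp.map_eq]
    rw [h4]
    exact integral_map hmp.measurable.aemeasurable hF.aestronglyMeasurable

private theorem K2_II_tower (hN : N ≠ 0) (β : ℝ) {V W : Finset (Tor L)} (h : V ⊆ W)
    {φ : Conf N L → ℝ} (hφ : Continuous φ) (τ : Conf N L) :
    II β W (KK β V φ) τ = II β W φ τ := by
  have hgl : Continuous fun S : Conf N L => glue W S τ :=
    (K2_continuous_glue W).comp (continuous_id.prodMk continuous_const)
  have hE : Continuous fun S : Conf N L => Real.exp (β * pairSum (glue W S τ)) :=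
    Real.continuous_exp.comp (continuous_const.mul ((continuous_pairSum N L).comp hgl))
  have hG := K2_continuous_KK hN β V hφ
  have e1 : II β W (KK β V φ) τ = ∫ S, II β V φ (glue W S τ) ∂(prior N L) := by
    unfold II
    rw [prior_resample V (fun S => Real.exp (β * pairSum (glue W S τ)) *
      KK β V φ (glue W S τ)) (hE.mul (hG.comp hgl))]
    refine integral_congr_ae (Filter.Eventually.of_forall fun S => ?_)
    simp only
    have h1 : ∀ σ : Conf N L, Real.exp (β * pairSum (glue W (glue V σ S) τ)) *
        KK β V φ (glue W (glue V σ S) τ) =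
        Real.exp (β * pairSum (glue V σ (glue W S τ))) * KK β V φ (glue W S τ) := by
      intro σ
      rw [K2_glue_sub h, KK_off β V φ σ (glue W S τ)]
    simp only [h1]
    rw [integral_mul_const]
    have h2 : (∫ σ, Real.exp (β * pairSum (glue V σ (glue W S τ))) ∂(prior N L)) =
        II β V (fun _ => 1) (glue W S τ) := by
      unfold II
      simp only [mul_one]
    rw [h2]
    unfold KK
    rw [mul_div_cancel₀ _ (K2_II_one_pos hN β V _).ne']
    rfl
  have e2 : II β W φ τ = ∫ S, II β V φ (glue W S τ) ∂(prior N L) := by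
    unfold II
    rw [prior_resample V (fun S => Real.exp (β * pairSum (glue W S τ)) *
      φ (glue W S τ)) (hE.mul (hφ.comp hgl))]
    refine integral_congr_ae (Filter.Eventually.of_forall fun S => ?_)
    simp only [K2_glue_sub h]
  rw [e1, e2]

theorem KK_tower (hN : N ≠ 0) (β : ℝ) {V W : Finset (Tor L)} (h : V ⊆ W) {φ : Conf N L → ℝ}
    (hφ : Continuous φ) (τ : Conf N L) : KK β W (KK β V φ) τ = KK β W φ τ := by
  have h1 := K2_II_tower hN β h hφ τ
  unfold KK at h1 ⊢
  rw [h1]

theorem Off_co {U : Finset (Tor L)} {x : Tor L} (hx : x ∉ U) (i : Fin N) :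
    Off U fun S : Conf N L => co S x i := by
  intro σ τ
  simp only [co, glue, hx, if_false]

private theorem K2_inner_far {U V : Finset (Tor L)} (s r t : Conf N L) (x y : Tor L)
    (h : (x ∉ U ∧ y ∉ U) ∨ (x ∉ V ∧ y ∉ V)) :
    (inner ℝ (glue V s (glue U r t) x : EuclideanSpace ℝ (Fin N)) (glue V s (glue U r t) y)) +
      inner ℝ (t x : EuclideanSpace ℝ (Fin N)) (t y) =
    (inner ℝ (glue V s t x : EuclideanSpace ℝ (Fin N)) (glue V s t y)) +
      inner ℝ (glue U r t x : EuclideanSpace ℝ (Fin N)) (glue U r t y) := by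
  rcases h with ⟨h1, h2⟩ | ⟨h1, h2⟩
  · simp only [glue, h1, h2, if_false]
  · simp only [glue, h1, h2, if_false]
    rw [add_comm]

private theorem K2_edge {U V : Finset (Tor L)} (h : Far U V) (x e : Tor L)
    (he : e = (1, 0) ∨ e = (0, 1)) :
    (x ∉ U ∧ x + e ∉ U) ∨ (x ∉ V ∧ x + e ∉ V) := by
  by_contra hcon
  push Not at hcon
  obtain ⟨h1, h2⟩ := hcon
  by_cases hxU : x ∈ U
  · have hxV : x ∉ V := fun hv => (h x hxU x hv).1 rfl
    have h3 := h2 hxV
    have h4 := h x hxU _ h3
    rcases he with rfl | rfl
    · exact h4.2.1 rfl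
    · exact h4.2.2.1 rfl
  · have h3 := h1 hxU
    have hV : x + e ∉ V := fun hv => (h _ h3 _ hv).1 rfl
    by_cases hxV : x ∈ V
    · have h4 := h _ h3 x hxV
      rcases he with rfl | rfl
      · exact h4.2.2.2.1 rfl
      · exact h4.2.2.2.2 rfl
    · exact hV (h2 hxV)

private theorem K2_pairSum_far {U V : Finset (Tor L)} (h : Far U V) (s r t : Conf N L) :
    pairSum (glue V s (glue U r t)) + pairSum t = pairSum (glue V s t) + pairSum (glue U r t) := by
  unfold pairSum
  rw [← Finset.sum_add_distrib, ← Finset.sum_add_distrib]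
  refine Finset.sum_congr rfl fun x _ => ?_
  have h1 := K2_inner_far s r t x (x + (1, 0)) (K2_edge h x (1, 0) (Or.inl rfl))
  have h2 := K2_inner_far s r t x (x + (0, 1)) (K2_edge h x (0, 1) (Or.inr rfl))
  linarith

omit [NeZero L] in
private theorem K2_glue_comm {U V : Finset (Tor L)} (h : Far U V) (s r t : Conf N L) :
    glue V s (glue U r t) = glue U r (glue V s t) := by
  funext x
  unfold glue
  by_cases hV : x ∈ V
  · have hU : x ∉ U := fun hu => (h x hu x hV).1 rfl
    simp [hV, hU]
  · simp [hV]

private theorem K2_II_far (β : ℝ) {U V : Finset (Tor L)} (h : Far U V) {φ : Conf N L → ℝ}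
    (hφ : Off U φ) (r t : Conf N L) :
    II β V φ (glue U r t) =
      Real.exp (β * (pairSum (glue U r t) - pairSum t)) * II β V φ t := by
  unfold II
  rw [← integral_const_mul]
  refine integral_congr_ae (Filter.Eventually.of_forall fun s => ?_)
  simp only
  have h1 : pairSum (glue V s (glue U r t)) =
      (pairSum (glue U r t) - pairSum t) + pairSum (glue V s t) := by
    have := K2_pairSum_far h s r t
    linarith
  rw [h1, mul_add, Real.exp_add, K2_glue_comm h, hφ r (glue V s t)]
  ring

theorem KK_markov (β : ℝ) {U V : Finset (Tor L)} (h : Far U V) {φ : Conf N L → ℝ}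
    (hφ : Off U φ) : Off U (KK β V φ) := by
  intro r t
  unfold KK
  rw [K2_II_far β h hφ r t, K2_II_far β h (φ := fun _ => 1) (fun _ _ => rfl) r t]
  exact mul_div_mul_left _ _ (Real.exp_pos _).ne'

private theorem K2_glue_univ (s t : Conf N L) : glue Finset.univ s t = s := by
  funext x
  simp [glue]

private theorem K2_gm_eq (hN : N ≠ 0) (β : ℝ) (φ : Conf N L → ℝ) (τ : Conf N L) :
    ∫ S, φ S ∂(gm N L β) = KK β Finset.univ φ τ := by
  rw [integral_gm N L hN]
  unfold KK II
  simp only [K2_glue_univ, mul_one, smul_eq_mul]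
  rw [← integral_div]
  refine integral_congr_ae (Filter.Eventually.of_forall fun S => ?_)
  simp only [Zpart]
  ring

theorem gm_KK (hN : N ≠ 0) (β : ℝ) (V : Finset (Tor L)) {φ : Conf N L → ℝ} (hφ : Continuous φ) :
    ∫ S, KK β V φ S ∂(gm N L β) = ∫ S, φ S ∂(gm N L β) := by
  have h2 := prior_isProbabilityMeasure N L hN
  obtain ⟨τ⟩ : Nonempty (Conf N L) := by
    by_contra hcon
    rw [not_nonempty_iff] at hcon
    have h3 := h2.measure_univ
    rw [Measure.eq_zero_of_isEmpty (prior N L)] at h3
    simp at h3
  rw [K2_gm_eq hN β _ τ, K2_gm_eq hN β _ τ]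
  exact KK_tower hN β (Finset.subset_univ V) hφ τ

end Pool.Agent.H716R2.ON
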