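import Mathlib
import Pool.Agent.H716R2.ON.Base
import Pool.Agent.H716R2.ON.Ker1
import Pool.Agent.H716R2.ON.Ker2
import Pool.Agent.H716R2.ON.Cas
import Pool.Agent.H716R2.ON.IBP2

/-!
# The flux step
-/

set_option autoImplicit false

noncomputable section

namespace Pool.Agent.H716R2.ON

open MeasureTheory Pool.Agent.H5R2.ON

variable {N L : ℕ} [NeZero L]

omit [NeZero L] in
private theorem flux_continuous_Asy (y z : Tor L) (i j : Fin N) :
    Continuous fun S : Conf N L => Asy y z i j S := by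
  unfold Asy
  exact ((continuous_co y i).mul (continuous_co z j)).sub
    ((continuous_co y j).mul (continuous_co z i))

private theorem flux_continuous_Hb (a : Tor L → ℝ) (b : Fin N → Fin N → ℝ) :
    Continuous fun S : Conf N L => Hb a b S := by
  unfold Hb esum
  have h : ∀ y z : Tor L, Continuous fun S : Conf N L =>
      (a z - a y) * ∑ i, ∑ j, co S y i * b i j * co S z j := by
    intro y z
    refine continuous_const.mul (continuous_finsetSum _ fun i _ => continuous_finsetSum _ fun j _ => ?_)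
    exact ((continuous_co y i).mul continuous_const).mul (continuous_co z j)
  exact continuous_finsetSum _ fun z _ => (h _ _).add (h _ _)

/-- the two nearest neighbours in the positive directions -/
private def fnb (b : Bool) (y : Tor L) : Tor L := if b then y + (1, 0) else y + (0, 1)

private theorem flux_esum_eq (F : Tor L → Tor L → ℝ) :
    esum F = ∑ e : Tor L × Bool, F e.1 (fnb e.2 e.1) := by
  rw [Fintype.sum_prod_type]
  unfold esum
  refine Finset.sum_congr rfl fun z _ => ?_
  rw [Fintype.sum_bool]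
  simp [fnb]

omit [NeZero L] in
private theorem fnb_edge (b : Bool) (y : Tor L) :
    fnb b y = y + (1, 0) ∨ fnb b y = y + (0, 1) := by
  cases b
  · right; simp [fnb]
  · left; simp [fnb]

omit [NeZero L] in
private theorem flux_gen (p k : Fin N) (y z : Tor L) (S : Conf N L) :
    ∑ i, ∑ j, co S y i * gen p k i j * co S z j = Asy y z k p S := by
  have h : ∀ i j : Fin N, co S y i * gen p k i j * co S z j =
      (if i = k then (if j = p then co S y i * co S z j else 0) else 0) -
        (if i = p then (if j = k then co S y i * co S z j else 0) else 0) := by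
    intro i j
    simp only [gen, ite_and]
    split_ifs <;> ring
  simp_rw [h, Finset.sum_sub_distrib]
  unfold Asy
  congr 1
  · rw [Finset.sum_eq_single k]
    · simp
    · intro i _ hi; simp [hi]
    · simp
  · rw [Finset.sum_eq_single p]
    · simp
    · intro i _ hi; simp [hi]
    · simp

theorem flux (hN : N ≠ 0) {β ε M : ℝ} {n : ℕ} (hβ : 0 < β) (hε : 0 ≤ ε) (hM0 : 0 ≤ M)
    {V₀ V : Finset (Tor L)} (hV : V₀ ⊆ V) (a : Tor L → ℝ) (ha : ∀ x ∉ V, a x = 0)
    (ha01 : ∀ x, a x = 0 ∨ a x = 1)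
    (ha1 : ∀ y z : Tor L, (z = y + (1, 0) ∨ z = y + (0, 1)) → (y ∈ V₀ ∨ z ∈ V₀) → a z = a y)
    (hn : (Finset.univ.filter fun y : Tor L => a (y + (1, 0)) ≠ a y).card +
      (Finset.univ.filter fun y : Tor L => a (y + (0, 1)) ≠ a y).card ≤ n)
    (hcur : ∀ y z : Tor L, (z = y + (1, 0) ∨ z = y + (0, 1)) → a z ≠ a y →
      ∃ U : Finset (Tor L), U ⊆ V ∧ Far U V₀ ∧ ∀ τ : Conf N L,
        ∑ i, ∑ j, (KK β U (Asy y z i j) τ) ^ 2 ≤ ε ^ 2)
    {Λ : Type} [Fintype Λ] (φ : Λ → Conf N L → ℝ) (hφ : ∀ l, Continuous (φ l))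
    (hloc : ∀ U : Finset (Tor L), Far U V₀ → ∀ l, Off U (φ l))
    (hM : ∀ τ : Conf N L, ∑ l, (KK β V₀ (φ l) τ) ^ 2 ≤ M ^ 2) (p k : Fin N) (τ : Conf N L) :
    ∑ l, (β * KK β V (fun S => φ l S * Hb a (gen p k) S) τ) ^ 2 ≤ (β * n * ε * M) ^ 2 := by
  classical
  set f0 : Λ → Conf N L → ℝ := fun l => KK β V₀ (φ l) with hf0
  have hf0c : ∀ l, Continuous (f0 l) := fun l => continuous_KK hN β V₀ (hφ l)
  -- the current through an edge
  have hHb : ∀ S : Conf N L, Hb a (gen p k) S =
      esum fun y z => (a z - a y) * Asy y z k p S := by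
    intro S
    unfold Hb
    simp_rw [flux_gen]
  have hHbc : Continuous fun S : Conf N L => Hb a (gen p k) S := flux_continuous_Hb a _
  -- `Hb` does not see the spins of `V₀`
  have hoff : Off V₀ fun S : Conf N L => Hb a (gen p k) S := by
    intro σ τ
    simp only [hHb, flux_esum_eq]
    refine Finset.sum_congr rfl fun e _ => ?_
    by_cases h : a (fnb e.2 e.1) = a e.1
    · rw [h]; simp
    · have h1 : e.1 ∉ V₀ := fun hh => h (ha1 _ _ (fnb_edge e.2 e.1) (Or.inl hh))
      have h2 : fnb e.2 e.1 ∉ V₀ := fun hh => h (ha1 _ _ (fnb_edge e.2 e.1) (Or.inr hh))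
      unfold Asy co glue
      simp only [h1, h2, if_false]
  -- step 1
  have hst1 : ∀ l, KK β V (fun S => φ l S * Hb a (gen p k) S) τ =
      KK β V (fun S => Hb a (gen p k) S * f0 l S) τ := by
    intro l
    rw [← KK_tower hN β hV (φ := fun S => φ l S * Hb a (gen p k) S) ((hφ l).mul hHbc)]
    congr 1
    funext S
    rw [show (fun S => φ l S * Hb a (gen p k) S) = fun S => Hb a (gen p k) S * φ l S from
      funext fun S => mul_comm _ _]
    exact KK_mul_off β V₀ _ (φ l) hoff S
  -- step 2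
  have hst2 : ∀ l, KK β V (fun S => Hb a (gen p k) S * f0 l S) τ =
      ∑ e : Tor L × Bool, (a (fnb e.2 e.1) - a e.1) *
        KK β V (fun S => f0 l S * Asy e.1 (fnb e.2 e.1) k p S) τ := by
    intro l
    have h1 : (fun S : Conf N L => Hb a (gen p k) S * f0 l S) = fun S =>
        ∑ e : Tor L × Bool, (a (fnb e.2 e.1) - a e.1) *
          (f0 l S * Asy e.1 (fnb e.2 e.1) k p S) := by
      funext S
      rw [hHb, flux_esum_eq, Finset.sum_mul]
      refine Finset.sum_congr rfl fun e _ => ?_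
      ring
    rw [h1, KK_sum β V Finset.univ (φ := fun (e : Tor L × Bool) S => (a (fnb e.2 e.1) - a e.1) *
          (f0 l S * Asy e.1 (fnb e.2 e.1) k p S))]
    · refine Finset.sum_congr rfl fun e _ => ?_
      rw [KK_const_mul]
    · intro e _
      exact continuous_const.mul ((hf0c l).mul (flux_continuous_Asy _ _ _ _))
  -- the edges of the cutset
  set E : Finset (Tor L × Bool) := Finset.univ.filter fun e => a (fnb e.2 e.1) ≠ a e.1 with hE
  have hEcard : E.card ≤ n := by
    refine le_trans (le_of_eq ?_) hn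
    rw [hE, Finset.card_filter, Finset.card_filter, Finset.card_filter, Fintype.sum_prod_type,
      ← Finset.sum_add_distrib]
    refine Finset.sum_congr rfl fun z _ => ?_
    rw [Fintype.sum_bool]
    simp [fnb]
  -- step 3: one edge
  have hst3 : ∀ e ∈ E, ∑ l, (KK β V (fun S => f0 l S * Asy e.1 (fnb e.2 e.1) k p S) τ) ^ 2 ≤
      (ε * M) ^ 2 := by
    intro e he
    rw [hE, Finset.mem_filter] at he
    obtain ⟨U, hUV, hUV₀, hU⟩ := hcur e.1 (fnb e.2 e.1) (fnb_edge _ _) he.2
    set c : Conf N L → ℝ := KK β U (Asy e.1 (fnb e.2 e.1) k p) with hc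
    have hcc : Continuous c := continuous_KK hN β U (flux_continuous_Asy _ _ _ _)
    have hcb : ∀ S, c S ^ 2 ≤ ε ^ 2 := by
      intro S
      refine le_trans ?_ (hU S)
      refine le_trans ?_ (Finset.single_le_sum (f := fun i => ∑ j, (KK β U (Asy e.1 (fnb e.2 e.1) i j) S) ^ 2)
        (fun i _ => Finset.sum_nonneg fun j _ => sq_nonneg _) (Finset.mem_univ k))
      exact Finset.single_le_sum (f := fun j => (KK β U (Asy e.1 (fnb e.2 e.1) k j) S) ^ 2)
        (fun j _ => sq_nonneg _) (Finset.mem_univ p)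
    have h1 : ∀ l, KK β V (fun S => f0 l S * Asy e.1 (fnb e.2 e.1) k p S) τ =
        KK β V (fun S => f0 l S * c S) τ := by
      intro l
      rw [← KK_tower hN β hUV (φ := fun S => f0 l S * Asy e.1 (fnb e.2 e.1) k p S)
        ((hf0c l).mul (flux_continuous_Asy _ _ _ _))]
      congr 1
      funext S
      exact KK_mul_off β U (f0 l) _ (KK_markov β hUV₀ (hloc U hUV₀ l)) S
    simp_rw [h1]
    refine le_trans (KK_norm_sq_le hN β V Finset.univ (φ := fun l S => f0 l S * c S)
      (fun l _ => (hf0c l).mul hcc) τ) ?_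
    have h2 : KK β V (fun _ => (ε * M) ^ 2) τ = (ε * M) ^ 2 := KK_const hN β V _ τ
    rw [← h2]
    refine KK_mono hN β V (continuous_finsetSum _ fun l _ => ((hf0c l).mul hcc).pow 2)
      continuous_const (fun S => ?_) τ
    calc ∑ l, (f0 l S * c S) ^ 2 = (∑ l, f0 l S ^ 2) * c S ^ 2 := by
          rw [Finset.sum_mul]; exact Finset.sum_congr rfl fun l _ => by ring
      _ ≤ M ^ 2 * ε ^ 2 := mul_le_mul (hM S) (hcb S) (sq_nonneg _) (sq_nonneg _)
      _ = (ε * M) ^ 2 := by ring
  -- step 4: sum over the edges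
  have hst4 : ∀ l, (KK β V (fun S => φ l S * Hb a (gen p k) S) τ) ^ 2 ≤
      E.card * ∑ e ∈ E, (KK β V (fun S => f0 l S * Asy e.1 (fnb e.2 e.1) k p S) τ) ^ 2 := by
    intro l
    rw [hst1, hst2]
    have h1 : ∑ e : Tor L × Bool, (a (fnb e.2 e.1) - a e.1) *
        KK β V (fun S => f0 l S * Asy e.1 (fnb e.2 e.1) k p S) τ =
        ∑ e ∈ E, (a (fnb e.2 e.1) - a e.1) *
          KK β V (fun S => f0 l S * Asy e.1 (fnb e.2 e.1) k p S) τ := by
      rw [hE, Finset.sum_filter]
      refine Finset.sum_congr rfl fun e _ => ?_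
      by_cases h : a (fnb e.2 e.1) = a e.1
      · simp [h]
      · simp [h]
    rw [h1]
    refine le_trans sq_sum_le_card_mul_sum_sq ?_
    refine mul_le_mul_of_nonneg_left (Finset.sum_le_sum fun e _ => ?_) (Nat.cast_nonneg _)
    rw [mul_pow]
    have h2 : (a (fnb e.2 e.1) - a e.1) ^ 2 ≤ 1 := by
      rcases ha01 (fnb e.2 e.1) with h | h <;> rcases ha01 e.1 with h' | h' <;> rw [h, h'] <;>
        norm_num
    exact mul_le_of_le_one_left (sq_nonneg _) h2
  have hEc : (E.card : ℝ) ≤ n := by exact_mod_cast hEcard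
  calc ∑ l, (β * KK β V (fun S => φ l S * Hb a (gen p k) S) τ) ^ 2
      = β ^ 2 * ∑ l, (KK β V (fun S => φ l S * Hb a (gen p k) S) τ) ^ 2 := by
        rw [Finset.mul_sum]; exact Finset.sum_congr rfl fun l _ => by ring
    _ ≤ β ^ 2 * ∑ l, (E.card * ∑ e ∈ E,
          (KK β V (fun S => f0 l S * Asy e.1 (fnb e.2 e.1) k p S) τ) ^ 2) :=
        mul_le_mul_of_nonneg_left (Finset.sum_le_sum fun l _ => hst4 l) (sq_nonneg _)
    _ = β ^ 2 * (E.card * ∑ e ∈ E, ∑ l,
          (KK β V (fun S => f0 l S * Asy e.1 (fnb e.2 e.1) k p S) τ) ^ 2) := by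
        rw [← Finset.mul_sum, Finset.sum_comm]
    _ ≤ β ^ 2 * (E.card * ∑ e ∈ E, (ε * M) ^ 2) := by
        refine mul_le_mul_of_nonneg_left ?_ (sq_nonneg _)
        exact mul_le_mul_of_nonneg_left (Finset.sum_le_sum fun e he => hst3 e he)
          (Nat.cast_nonneg _)
    _ = β ^ 2 * (E.card * (E.card * (ε * M) ^ 2)) := by
        rw [Finset.sum_const, nsmul_eq_mul]
    _ ≤ β ^ 2 * (n * (n * (ε * M) ^ 2)) := by
        gcongr
    _ = (β * n * ε * M) ^ 2 := by ring

/-- flux step for the spin -/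
theorem flux_vec (hN : 2 ≤ N) {β ε M : ℝ} {n : ℕ} (hβ : 0 < β) (hε : 0 ≤ ε) (hM0 : 0 ≤ M)
    {V₀ V : Finset (Tor L)} (hV : V₀ ⊆ V) (a : Tor L → ℝ) (ha : ∀ x ∉ V, a x = 0)
    (ha01 : ∀ x, a x = 0 ∨ a x = 1)
    (ha1 : ∀ y z : Tor L, (z = y + (1, 0) ∨ z = y + (0, 1)) → (y ∈ V₀ ∨ z ∈ V₀) → a z = a y)
    (hn : (Finset.univ.filter fun y : Tor L => a (y + (1, 0)) ≠ a y).card +
      (Finset.univ.filter fun y : Tor L => a (y + (0, 1)) ≠ a y).card ≤ n)
    (hcur : ∀ y z : Tor L, (z = y + (1, 0) ∨ z = y + (0, 1)) → a z ≠ a y →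
      ∃ U : Finset (Tor L), U ⊆ V ∧ Far U V₀ ∧ ∀ τ : Conf N L,
        ∑ i, ∑ j, (KK β U (Asy y z i j) τ) ^ 2 ≤ ε ^ 2)
    (x : Tor L) (hx : a x = 1) (hx0 : x ∈ V₀)
    (hM : ∀ τ : Conf N L, ∑ i, (KK β V₀ (fun S => co S x i) τ) ^ 2 ≤ M ^ 2) (τ : Conf N L) :
    ∑ i, (KK β V (fun S => co S x i) τ) ^ 2 ≤ (N * β * n * ε * M) ^ 2 := by
  have hN0 : N ≠ 0 := by omega
  have hloc : ∀ U : Finset (Tor L), Far U V₀ → ∀ l : Fin N,
      Off U (fun S : Conf N L => co S x l) := by
    intro U hU l
    exact Off_co (fun hxU => (hU x hxU x hx0).1 rfl) l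
  have hfl : ∀ p k : Fin N, ∑ i, (∑ j, gen p k i j * KK β V (fun S => co S x j) τ) ^ 2 ≤
      (β * n * ε * M) ^ 2 := by
    intro p k
    have h1 := flux hN0 hβ hε hM0 hV a ha ha01 ha1 hn hcur (fun (i : Fin N) (S : Conf N L) => co S x i)
      (fun i => continuous_co x i) hloc hM p k τ
    refine le_trans (le_of_eq ?_) h1
    refine Finset.sum_congr rfl fun i _ => ?_
    have hanti : Anti (gen p k : Fin N → Fin N → ℝ) := by
      intro i j; unfold gen
      by_cases h1 : i = k <;> by_cases h2 : j = p <;> by_cases h3 : i = p <;>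
        by_cases h4 : j = k <;> simp [h1, h2, h3, h4, and_comm]
    have h2 := ibp_one hN0 β V a ha hanti x i τ
    rw [hx] at h2
    have h3 : KK β V (fun S => 1 * ∑ j, gen p k i j * co S x j) τ =
        ∑ j, gen p k i j * KK β V (fun S => co S x j) τ := by
      rw [KK_const_mul, one_mul, KK_sum β V Finset.univ (φ := fun (j : Fin N) S => gen p k i j * co S x j)]
      · exact Finset.sum_congr rfl fun j _ => by rw [KK_const_mul]
      · intro j _; exact continuous_const.mul (continuous_co x j)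
    rw [h3] at h2
    rw [eq_neg_of_add_eq_zero_left h2, neg_sq]
  have hc := cas_vec (fun j => KK β V (fun S => co S x j) τ)
  have h1 : ∑ p : Fin N, ∑ k : Fin N, ∑ i, (∑ j, gen p k i j * KK β V (fun S => co S x j) τ) ^ 2 ≤
      ∑ p : Fin N, ∑ k : Fin N, (β * n * ε * M) ^ 2 :=
    Finset.sum_le_sum fun p _ => Finset.sum_le_sum fun k _ => hfl p k
  rw [hc] at h1
  simp only [Finset.sum_const, Finset.card_univ, Fintype.card_fin, nsmul_eq_mul] at h1
  have h2 : (1 : ℝ) ≤ 2 * ((N : ℝ) - 1) := by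
    have : (2 : ℝ) ≤ N := by exact_mod_cast hN
    linarith
  have h3 : 0 ≤ ∑ i, (KK β V (fun S => co S x i) τ) ^ 2 := Finset.sum_nonneg fun i _ => sq_nonneg _
  nlinarith [mul_le_mul_of_nonneg_right h2 h3]

/-- flux step for the current -/
theorem flux_asy (hN : 3 ≤ N) {β ε M : ℝ} {n : ℕ} (hβ : 0 < β) (hε : 0 ≤ ε) (hM0 : 0 ≤ M)
    {V₀ V : Finset (Tor L)} (hV : V₀ ⊆ V) (a : Tor L → ℝ) (ha : ∀ x ∉ V, a x = 0)
    (ha01 : ∀ x, a x = 0 ∨ a x = 1)
    (ha1 : ∀ y z : Tor L, (z = y + (1, 0) ∨ z = y + (0, 1)) → (y ∈ V₀ ∨ z ∈ V₀) → a z = a y)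
    (hn : (Finset.univ.filter fun y : Tor L => a (y + (1, 0)) ≠ a y).card +
      (Finset.univ.filter fun y : Tor L => a (y + (0, 1)) ≠ a y).card ≤ n)
    (hcur : ∀ y z : Tor L, (z = y + (1, 0) ∨ z = y + (0, 1)) → a z ≠ a y →
      ∃ U : Finset (Tor L), U ⊆ V ∧ Far U V₀ ∧ ∀ τ : Conf N L,
        ∑ i, ∑ j, (KK β U (Asy y z i j) τ) ^ 2 ≤ ε ^ 2)
    (y z : Tor L) (hy : a y = 1) (hz : a z = 1) (hy0 : y ∈ V₀) (hz0 : z ∈ V₀)
    (hM : ∀ τ : Conf N L, ∑ i, ∑ j, (KK β V₀ (Asy y z i j) τ) ^ 2 ≤ M ^ 2) (τ : Conf N L) :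
    ∑ i, ∑ j, (KK β V (Asy y z i j) τ) ^ 2 ≤ (N * β * n * ε * M) ^ 2 := by
  have hN0 : N ≠ 0 := by omega
  have hloc : ∀ U : Finset (Tor L), Far U V₀ → ∀ l : Fin N × Fin N,
      Off U (fun S : Conf N L => Asy y z l.1 l.2 S) := by
    intro U hU l σ τ
    have hyU : y ∉ U := fun hyU => (hU y hyU y hy0).1 rfl
    have hzU : z ∉ U := fun hzU => (hU z hzU z hz0).1 rfl
    unfold Asy co glue
    simp only [hyU, hzU, if_false]
  set F : Fin N → Fin N → ℝ := fun i j => KK β V (Asy y z i j) τ with hF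
  have hcA : ∀ i j : Fin N, Continuous (Asy y z i j : Conf N L → ℝ) :=
    fun i j => flux_continuous_Asy y z i j
  have hfl : ∀ p k : Fin N, ∑ i, ∑ j,
      (∑ m, gen p k i m * F m j + ∑ m, gen p k j m * F i m) ^ 2 ≤ (β * n * ε * M) ^ 2 := by
    intro p k
    have hM' : ∀ τ : Conf N L, ∑ l : Fin N × Fin N,
        (KK β V₀ (fun S => Asy y z l.1 l.2 S) τ) ^ 2 ≤ M ^ 2 := by
      intro τ
      rw [Fintype.sum_prod_type]
      exact hM τ
    have h1 := flux hN0 hβ hε hM0 hV a ha ha01 ha1 hn hcur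
      (fun (l : Fin N × Fin N) (S : Conf N L) => Asy y z l.1 l.2 S)
      (fun l => flux_continuous_Asy y z l.1 l.2) hloc hM' p k τ
    rw [Fintype.sum_prod_type] at h1
    refine le_trans (le_of_eq ?_) h1
    refine Finset.sum_congr rfl fun i _ => Finset.sum_congr rfl fun j _ => ?_
    have hanti : Anti (gen p k : Fin N → Fin N → ℝ) := by
      intro i j; unfold gen
      by_cases h1 : i = k <;> by_cases h2 : j = p <;> by_cases h3 : i = p <;>
        by_cases h4 : j = k <;> simp [h1, h2, h3, h4, and_comm]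
    have h2 := ibp_two hN0 β V a ha hanti y z i j τ
    have h3 := ibp_two hN0 β V a ha hanti y z j i τ
    rw [hy, hz] at h2 h3
    have hcH : Continuous fun S : Conf N L => Hb a (gen p k) S := flux_continuous_Hb a _
    have h4 : KK β V (fun S => Asy y z i j S * Hb a (gen p k) S) τ =
        KK β V (fun S => co S y i * co S z j * Hb a (gen p k) S) τ -
          KK β V (fun S => co S y j * co S z i * Hb a (gen p k) S) τ := by
      rw [← KK_sub β V (φ := fun S => co S y i * co S z j * Hb a (gen p k) S)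
        (ψ := fun S => co S y j * co S z i * Hb a (gen p k) S)
        (((continuous_co y i).mul (continuous_co z j)).mul hcH)
        (((continuous_co y j).mul (continuous_co z i)).mul hcH)]
      congr 1
      funext S
      unfold Asy; ring
    have hA : ∀ i j : Fin N, Continuous fun S : Conf N L =>
        1 * (∑ m, gen p k i m * co S y m) * co S z j +
          1 * co S y i * ∑ m, gen p k j m * co S z m := by
      intro i j
      refine Continuous.add ?_ ?_
      · exact (continuous_const.mul (continuous_finsetSum _ fun m _ =>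
          continuous_const.mul (continuous_co y m))).mul (continuous_co z j)
      · exact (continuous_const.mul (continuous_co y i)).mul (continuous_finsetSum _ fun m _ =>
          continuous_const.mul (continuous_co z m))
    have h5 : KK β V (fun S => 1 * (∑ m, gen p k i m * co S y m) * co S z j +
          1 * co S y i * ∑ m, gen p k j m * co S z m) τ -
        KK β V (fun S => 1 * (∑ m, gen p k j m * co S y m) * co S z i +
          1 * co S y j * ∑ m, gen p k i m * co S z m) τ =
        ∑ m, gen p k i m * F m j + ∑ m, gen p k j m * F i m := by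
      rw [← KK_sub β V (hA i j) (hA j i)]
      have h6 : (fun S : Conf N L => (1 * (∑ m, gen p k i m * co S y m) * co S z j +
          1 * co S y i * ∑ m, gen p k j m * co S z m) -
          (1 * (∑ m, gen p k j m * co S y m) * co S z i +
          1 * co S y j * ∑ m, gen p k i m * co S z m)) =
          fun S => ∑ m, (gen p k i m * Asy y z m j S + gen p k j m * Asy y z i m S) := by
        funext S
        unfold Asy
        rw [Finset.sum_add_distrib]
        simp only [mul_sub, Finset.sum_sub_distrib, one_mul, Finset.mul_sum, Finset.sum_mul]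
        have e1 : ∑ m, gen p k i m * co S y m * co S z j = ∑ m, gen p k i m * (co S y m * co S z j) :=
          Finset.sum_congr rfl fun m _ => by ring
        have e2 : ∑ m, co S y i * (gen p k j m * co S z m) = ∑ m, gen p k j m * (co S y i * co S z m) :=
          Finset.sum_congr rfl fun m _ => by ring
        have e3 : ∑ m, gen p k j m * co S y m * co S z i = ∑ m, gen p k j m * (co S y m * co S z i) :=
          Finset.sum_congr rfl fun m _ => by ring
        have e4 : ∑ m, co S y j * (gen p k i m * co S z m) = ∑ m, gen p k i m * (co S y j * co S z m) :=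
          Finset.sum_congr rfl fun m _ => by ring
        rw [e1, e2, e3, e4]
        ring
      rw [h6, KK_sum β V Finset.univ (φ := fun (m : Fin N) S =>
        gen p k i m * Asy y z m j S + gen p k j m * Asy y z i m S)]
      · rw [← Finset.sum_add_distrib]
        refine Finset.sum_congr rfl fun m _ => ?_
        rw [KK_add β V (φ := fun S => gen p k i m * Asy y z m j S)
          (ψ := fun S => gen p k j m * Asy y z i m S)
          (continuous_const.mul (hcA m j)) (continuous_const.mul (hcA i m)),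
          KK_const_mul, KK_const_mul]
      · intro m _
        exact (continuous_const.mul (hcA m j)).add (continuous_const.mul (hcA i m))
    rw [← h5, h4]
    have h7 : KK β V (fun S => 1 * (∑ m, gen p k i m * co S y m) * co S z j +
          1 * co S y i * ∑ m, gen p k j m * co S z m) τ -
        KK β V (fun S => 1 * (∑ m, gen p k j m * co S y m) * co S z i +
          1 * co S y j * ∑ m, gen p k i m * co S z m) τ =
        -(β * (KK β V (fun S => co S y i * co S z j * Hb a (gen p k) S) τ -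
          KK β V (fun S => co S y j * co S z i * Hb a (gen p k) S) τ)) := by
      linarith
    rw [h7, neg_sq]
  have htr : ∑ i, F i i = 0 := by
    refine Finset.sum_eq_zero fun i _ => ?_
    have h0 : (Asy y z i i : Conf N L → ℝ) = fun _ => 0 := by
      funext S; unfold Asy; ring
    rw [hF]
    simp only [h0]
    exact KK_const hN0 β V 0 τ
  have hc := cas_mat_ge F htr
  have h1 : ∑ p : Fin N, ∑ k : Fin N, ∑ i, ∑ j,
      (∑ m, gen p k i m * F m j + ∑ m, gen p k j m * F i m) ^ 2 ≤
      ∑ p : Fin N, ∑ k : Fin N, (β * n * ε * M) ^ 2 :=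
    Finset.sum_le_sum fun p _ => Finset.sum_le_sum fun k _ => hfl p k
  simp only [Finset.sum_const, Finset.card_univ, Fintype.card_fin, nsmul_eq_mul] at h1
  have h2 : (1 : ℝ) ≤ 4 * ((N : ℝ) - 2) := by
    have : (3 : ℝ) ≤ N := by exact_mod_cast hN
    linarith
  have h3 : 0 ≤ ∑ i, ∑ j, F i j ^ 2 :=
    Finset.sum_nonneg fun i _ => Finset.sum_nonneg fun j _ => sq_nonneg _
  have h4 := mul_le_mul_of_nonneg_right h2 h3
  calc ∑ i, ∑ j, (KK β V (Asy y z i j) τ) ^ 2 = ∑ i, ∑ j, F i j ^ 2 := rfl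
    _ ≤ (N * β * n * ε * M) ^ 2 := by nlinarith

end Pool.Agent.H716R2.ON
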