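import Mathlib

/-!
# Products: pure real analysis
-/

namespace Pool.Agent.H716R2.ON

private theorem iter_F_tangent {C ν B W : ℝ} (hC : 0 ≤ C) (hν : 0 < ν) (hB : 0 ≤ B)
    (hW : 0 ≤ W) :
    (1 + C / (W + ν))⁻¹ ≤ (1 + C / (B + ν))⁻¹ + C * (W - B) / (B + ν + C) ^ 2 := by
  have e1 : ∀ t : ℝ, 0 ≤ t → (1 + C / (t + ν))⁻¹ = (t + ν) / (t + ν + C) := by
    intro t ht
    have h1 : 0 < t + ν := by linarith
    have h2 : 0 < t + ν + C := by linarith
    rw [one_add_div h1.ne', inv_div]
  rw [e1 W hW, e1 B hB]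
  have hu : 0 < W + ν + C := by linarith
  have hv : 0 < B + ν + C := by linarith
  rw [← sub_nonneg]
  have e2 : (B + ν) / (B + ν + C) + C * (W - B) / (B + ν + C) ^ 2 - (W + ν) / (W + ν + C) =
      C * (W - B) ^ 2 / ((B + ν + C) ^ 2 * (W + ν + C)) := by
    field_simp
    ring
  rw [e2]
  positivity

theorem prod_bound {C ν A : ℝ} (hC : 0 ≤ C) (hν : 0 < ν) {n : ℕ} (hn : 0 < n) (W : ℕ → ℝ)
    (hW : ∀ k < n, 0 ≤ W k) (hA : ∑ k ∈ Finset.range n, W k ≤ A) :
    ∏ k ∈ Finset.range n, (1 + C / (W k + ν))⁻¹ ≤ ((1 + C / (A / n + ν))⁻¹) ^ n := by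
  have hn' : (0 : ℝ) < n := by exact_mod_cast hn
  have hA0 : 0 ≤ A :=
    le_trans (Finset.sum_nonneg fun k hk => hW k (Finset.mem_range.mp hk)) hA
  have hB0 : 0 ≤ A / n := by positivity
  set B := A / n with hB
  set h := (1 + C / (B + ν))⁻¹ with hh
  have hhpos : 0 < h := by
    have : 0 < B + ν := by linarith
    positivity
  have hsum : ∑ k ∈ Finset.range n, (1 + C / (W k + ν))⁻¹ ≤ n * h := by
    calc ∑ k ∈ Finset.range n, (1 + C / (W k + ν))⁻¹ ≤
        ∑ k ∈ Finset.range n, (h + C * (W k - B) / (B + ν + C) ^ 2) :=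
          Finset.sum_le_sum fun k hk =>
            iter_F_tangent hC hν hB0 (hW k (Finset.mem_range.mp hk))
      _ = n * h + C * (∑ k ∈ Finset.range n, W k - A) / (B + ν + C) ^ 2 := by
          rw [Finset.sum_add_distrib, Finset.sum_const, Finset.card_range, nsmul_eq_mul,
            ← Finset.sum_div, ← Finset.mul_sum, Finset.sum_sub_distrib, Finset.sum_const,
            Finset.card_range, nsmul_eq_mul, hB, mul_div_cancel₀ _ hn'.ne']
      _ ≤ n * h := by
          have h1 : C * (∑ k ∈ Finset.range n, W k - A) / (B + ν + C) ^ 2 ≤ 0 := by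
            apply div_nonpos_of_nonpos_of_nonneg
            · exact mul_nonpos_of_nonneg_of_nonpos hC (by linarith)
            · positivity
          linarith
  have hterm : ∀ k ∈ Finset.range n, 0 ≤ (1 + C / (W k + ν))⁻¹ / h := by
    intro k hk
    have := hW k (Finset.mem_range.mp hk)
    have h2 : 0 < W k + ν := by linarith
    positivity
  have hprod : ∏ k ∈ Finset.range n, ((1 + C / (W k + ν))⁻¹ / h) ≤ 1 := by
    calc ∏ k ∈ Finset.range n, ((1 + C / (W k + ν))⁻¹ / h) ≤
        ∏ k ∈ Finset.range n, Real.exp ((1 + C / (W k + ν))⁻¹ / h - 1) := by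
          refine Finset.prod_le_prod hterm fun k _ => ?_
          have := Real.add_one_le_exp ((1 + C / (W k + ν))⁻¹ / h - 1)
          linarith
      _ = Real.exp (∑ k ∈ Finset.range n, ((1 + C / (W k + ν))⁻¹ / h - 1)) :=
          (Real.exp_sum _ _).symm
      _ ≤ Real.exp 0 := by
          apply Real.exp_le_exp.mpr
          rw [Finset.sum_sub_distrib, Finset.sum_const, Finset.card_range, nsmul_eq_mul, mul_one,
            ← Finset.sum_div, sub_nonpos, div_le_iff₀ hhpos]
          exact hsum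
      _ = 1 := Real.exp_zero
  rw [Finset.prod_div_distrib, Finset.prod_const, Finset.card_range,
    div_le_one (by positivity)] at hprod
  exact hprod

private theorem iter_eta {η : ℝ} (h0 : 0 < η) (h1 : η ≤ 1 / 4) :
    (1 + η) / (1 - η) ^ 2 ≤ 1 + 12 * η := by
  have h2 : 0 < 1 - η := by linarith
  rw [div_le_iff₀ (by positivity)]
  nlinarith [mul_nonneg h0.le h0.le, mul_nonneg (mul_nonneg h0.le h0.le) h0.le,
    mul_nonneg (mul_nonneg h0.le h0.le) (sub_nonneg.mpr h1)]

theorem iter_real {C q : ℝ} (hC : 0 < C) (hq0 : 0 < q) (hq : q < C / (2 * Real.pi)) :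
    ∃ lam η ν : ℝ, 1 < lam ∧ 0 < η ∧ η < 1 ∧ 0 < ν ∧ ∀ r₀ : ℝ, 4 ≤ r₀ → ∃ K : ℝ, 0 < K ∧
      ∀ (n : ℕ) (W : ℕ → ℝ), (∀ k < n, 0 ≤ W k) →
        ∑ k ∈ Finset.range n, W k ≤
          (2 * Real.pi * Real.log (r₀ * lam ^ n + 1) + 600) / ((1 - η) * Real.log lam) ^ 2 →
        ∏ k ∈ Finset.range n, (1 + C / (W k + ν))⁻¹ ≤ K * (r₀ * lam ^ (n + 1)) ^ (-q) := by
  have hpi : 0 < Real.pi := Real.pi_pos
  have hCq : 2 * Real.pi * q < C := by
    rw [lt_div_iff₀ (by positivity)] at hq
    linarith
  -- the parameters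
  set G := C - 2 * Real.pi * q with hG
  have hGpos : 0 < G := by linarith
  obtain ⟨η, hη0, hη4, hηG⟩ : ∃ η : ℝ, 0 < η ∧ η ≤ 1 / 4 ∧ 2 * Real.pi * q * (12 * η) ≤ G / 2 := by
    refine ⟨min (1 / 4) (G / (48 * Real.pi * q)), lt_min (by norm_num) (by positivity),
      min_le_left _ _, ?_⟩
    calc 2 * Real.pi * q * (12 * min (1 / 4) (G / (48 * Real.pi * q))) ≤
        2 * Real.pi * q * (12 * (G / (48 * Real.pi * q))) := by
          gcongr
          exact min_le_right _ _
      _ = G / 2 := by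
          field_simp
          ring
  set D := 2 * Real.pi * ((1 + η) / (1 - η) ^ 2) with hD
  have h1η : 0 < 1 - η := by linarith
  have hDpos : 0 < D := by positivity
  have hqD : q * D ≤ C - G / 2 := by
    have h1 := iter_eta hη0 hη4
    calc q * D = 2 * Real.pi * q * ((1 + η) / (1 - η) ^ 2) := by rw [hD]; ring
      _ ≤ 2 * Real.pi * q * (1 + 12 * η) := by gcongr
      _ = 2 * Real.pi * q + 2 * Real.pi * q * (12 * η) := by ring
      _ ≤ 2 * Real.pi * q + G / 2 := by linarith
      _ = C - G / 2 := by rw [hG]; ring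
  set x := G / (2 * (q * (1 + C))) with hx
  have hxpos : 0 < x := by positivity
  have hqx : q * (1 + C) * x = G / 2 := by
    rw [hx]
    field_simp
  have hkey : q * (D + x + C * x) ≤ C := by
    have : q * (D + x + C * x) = q * D + q * (1 + C) * x := by ring
    rw [this, hqx]
    linarith
  have hlog : Real.log (Real.exp x) = x := Real.log_exp x
  refine ⟨Real.exp x, η, 1, Real.one_lt_exp_iff.mpr hxpos, hη0, by linarith, one_pos, ?_⟩
  rw [hlog]
  intro r₀ hr₀
  have hr0 : 0 < r₀ := by linarith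
  -- the rate
  have hrate : (1 + C / (D / x + 1))⁻¹ ≤ Real.exp (-(q * x)) := by
    have hy : 0 < C / (D / x + 1) := by positivity
    have h1 : q * x ≤ Real.log (1 + C / (D / x + 1)) := by
      refine le_trans ?_ (Real.one_sub_inv_le_log_of_pos (by linarith))
      have e : 1 - (1 + C / (D / x + 1))⁻¹ = C * x / (D + x + C * x) := by
        have h3 : 0 < D + x := by positivity
        have h4 : 0 < D + x + C * x := by positivity
        have h5 : C / (D / x + 1) = C * x / (D + x) := by
          field_simp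
        rw [h5, one_add_div h3.ne', inv_div]
        field_simp
        ring
      rw [e, le_div_iff₀ (by positivity)]
      calc q * x * (D + x + C * x) = (q * (D + x + C * x)) * x := by ring
        _ ≤ C * x := by gcongr
    rw [Real.exp_neg]
    apply inv_anti₀ (Real.exp_pos _)
    rw [← Real.le_log_iff_exp_le (by linarith)]
    exact h1
  -- the constant
  set c₀ := (2 * Real.pi * Real.log (2 * r₀) + 600) / ((1 - η) * x) ^ 2 with hc₀
  obtain ⟨n₁, hn₁⟩ := exists_nat_ge (c₀ / (2 * Real.pi * η / ((1 - η) ^ 2 * x)))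
  set K := (r₀ * Real.exp x ^ (n₁ + 1)) ^ q with hK
  have hKpos : 0 < K := by positivity
  refine ⟨K, hKpos, ?_⟩
  intro n W hW hsum
  have hexp1 : 1 ≤ Real.exp x := (Real.one_lt_exp_iff.mpr hxpos).le
  by_cases hn : n < n₁ + 1
  · -- few factors
    have h1 : ∏ k ∈ Finset.range n, (1 + C / (W k + 1))⁻¹ ≤ 1 := by
      apply Finset.prod_le_one
      · intro k hk
        have := hW k (Finset.mem_range.mp hk)
        positivity
      · intro k hk
        have := hW k (Finset.mem_range.mp hk)
        apply inv_le_one_of_one_le₀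
        have : 0 ≤ C / (W k + 1) := by positivity
        linarith
    refine h1.trans ?_
    rw [Real.rpow_neg (by positivity), ← div_eq_mul_inv, le_div_iff₀ (by positivity), one_mul, hK]
    apply Real.rpow_le_rpow (by positivity) _ hq0.le
    gcongr
    omega
  · push Not at hn
    have hn0 : 0 < n := by omega
    have hn0' : (0 : ℝ) < n := by exact_mod_cast hn0
    have hn1' : (n₁ : ℝ) ≤ n := by
      have : n₁ ≤ n := by omega
      exact_mod_cast this
    have hprod := prod_bound hC.le one_pos hn0 W hW hsum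
    refine hprod.trans ?_
    -- the bound for A / n
    have hpow1 : 1 ≤ Real.exp x ^ n := one_le_pow₀ hexp1
    have hlogle : Real.log (r₀ * Real.exp x ^ n + 1) ≤ Real.log (2 * r₀) + n * x := by
      have h2 : r₀ * Real.exp x ^ n + 1 ≤ 2 * r₀ * Real.exp x ^ n := by nlinarith
      refine (Real.log_le_log (by positivity) h2).trans (le_of_eq ?_)
      rw [Real.log_mul (by positivity) (by positivity), Real.log_pow, Real.log_exp]
    have hA : (2 * Real.pi * Real.log (r₀ * Real.exp x ^ n + 1) + 600) / ((1 - η) * x) ^ 2 / n ≤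
        D / x := by
      have h3 : (2 * Real.pi * Real.log (r₀ * Real.exp x ^ n + 1) + 600) / ((1 - η) * x) ^ 2 ≤
          c₀ + n * (2 * Real.pi / ((1 - η) ^ 2 * x)) := by
        calc (2 * Real.pi * Real.log (r₀ * Real.exp x ^ n + 1) + 600) / ((1 - η) * x) ^ 2 ≤
            (2 * Real.pi * (Real.log (2 * r₀) + n * x) + 600) / ((1 - η) * x) ^ 2 := by
              gcongr
          _ = c₀ + n * (2 * Real.pi / ((1 - η) ^ 2 * x)) := by
              rw [hc₀]
              field_simp
              ring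
      have h4 : c₀ ≤ n * (2 * Real.pi * η / ((1 - η) ^ 2 * x)) := by
        rw [div_le_iff₀ (by positivity)] at hn₁
        refine hn₁.trans ?_
        gcongr
      rw [div_le_iff₀ hn0']
      calc (2 * Real.pi * Real.log (r₀ * Real.exp x ^ n + 1) + 600) / ((1 - η) * x) ^ 2 ≤
          c₀ + n * (2 * Real.pi / ((1 - η) ^ 2 * x)) := h3
        _ ≤ n * (2 * Real.pi * η / ((1 - η) ^ 2 * x)) + n * (2 * Real.pi / ((1 - η) ^ 2 * x)) := by
            linarith
        _ = D / x * n := by
            rw [hD]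
            field_simp
            ring
    have hA0 : 0 ≤ (2 * Real.pi * Real.log (r₀ * Real.exp x ^ n + 1) + 600) /
        ((1 - η) * x) ^ 2 / n := by
      have h5 : 0 ≤ Real.log (r₀ * Real.exp x ^ n + 1) := by
        apply Real.log_nonneg
        nlinarith
      positivity
    have hF : (1 + C / ((2 * Real.pi * Real.log (r₀ * Real.exp x ^ n + 1) + 600) /
        ((1 - η) * x) ^ 2 / n + 1))⁻¹ ≤ Real.exp (-(q * x)) := by
      refine le_trans ?_ hrate
      apply inv_anti₀ (by positivity)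
      gcongr
    have hF0 : 0 ≤ (1 + C / ((2 * Real.pi * Real.log (r₀ * Real.exp x ^ n + 1) + 600) /
        ((1 - η) * x) ^ 2 / n + 1))⁻¹ := by positivity
    refine (pow_le_pow_left₀ hF0 hF n).trans ?_
    rw [Real.rpow_neg (by positivity), ← div_eq_mul_inv, le_div_iff₀ (by positivity)]
    have e1 : (r₀ * Real.exp x ^ (n + 1)) ^ q =
        (r₀ * Real.exp x ^ 1) ^ q * Real.exp (q * x) ^ n := by
      have e2 : r₀ * Real.exp x ^ (n + 1) = (r₀ * Real.exp x ^ 1) * Real.exp x ^ n := by ring
      rw [e2, Real.mul_rpow (by positivity) (by positivity)]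
      congr 1
      rw [← Real.exp_nat_mul, ← Real.exp_mul, ← Real.exp_nat_mul]
      congr 1
      ring
    rw [e1, mul_comm ((r₀ * Real.exp x ^ 1) ^ q), ← mul_assoc, ← mul_pow, ← Real.exp_add]
    have e3 : -(q * x) + q * x = 0 := by ring
    rw [e3, Real.exp_zero, one_pow, one_mul, hK]
    apply Real.rpow_le_rpow (by positivity) _ hq0.le
    gcongr
    omega

end Pool.Agent.H716R2.ON
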