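import Mathlib

/-!
# Task R2 (helper380): the bootstrap recursion, pure real analysis
-/

set_option autoImplicit false

namespace Pool.Agent.H716R2.ON

open Filter

/-- `log x ^ 2 ≤ 4 x` -/
private theorem R2_log_sq {x : ℝ} (hx : 1 ≤ x) : Real.log x ^ 2 ≤ 4 * x := by
  have h0 : 0 ≤ Real.log x := Real.log_nonneg hx
  have hs : 0 < Real.sqrt x := Real.sqrt_pos.mpr (by linarith)
  have h1 : Real.log x ≤ 2 * Real.sqrt x := by
    have h2 : Real.log (Real.sqrt x) ≤ Real.sqrt x - 1 := Real.log_le_sub_one_of_pos hs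
    rw [Real.log_sqrt (by linarith)] at h2
    linarith
  calc Real.log x ^ 2 ≤ (2 * Real.sqrt x) ^ 2 := pow_le_pow_left₀ h0 h1 2
    _ = 4 * x := by rw [mul_pow, Real.sq_sqrt (by linarith)]; ring

private theorem R2_start (j : ℕ → ℝ) (hj0 : ∀ R, 0 ≤ j R) {C K p : ℝ} (hC : 0 < C) (hp : 1 < p)
    (h3 : ∀ R : ℕ, 1 ≤ R → j R ≤ K * (R : ℝ) ^ (-p)) :
    ∃ R₀ : ℕ, 9 * C * (R₀ + 2) * j R₀ ≤ Real.exp (-1) := by
  have ht : Tendsto (fun x : ℝ => 27 * C * |K| * x ^ (-(p - 1))) atTop (nhds (27 * C * |K| * 0)) :=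
    (tendsto_rpow_neg_atTop (by linarith)).const_mul _
  rw [mul_zero] at ht
  have ht2 := ht.comp tendsto_natCast_atTop_atTop
  have he := (ht2.eventually (gt_mem_nhds (Real.exp_pos (-1)))).and (eventually_ge_atTop 1)
  obtain ⟨R, hR, hR1⟩ := he.exists
  refine ⟨R, ?_⟩
  simp only [Function.comp] at hR
  have hR1' : (1:ℝ) ≤ R := by exact_mod_cast hR1
  have hRpos : (0:ℝ) < R := by linarith
  have h4 : j R ≤ |K| * (R:ℝ) ^ (-p) :=
    (h3 R hR1).trans (mul_le_mul_of_nonneg_right (le_abs_self K) (Real.rpow_nonneg hRpos.le _))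
  have h5 : (R:ℝ) * (R:ℝ) ^ (-p) = (R:ℝ) ^ (-(p - 1)) := by
    rw [show -(p - 1) = 1 + -p by ring, Real.rpow_add hRpos, Real.rpow_one]
  calc 9 * C * (R + 2) * j R ≤ 9 * C * (3 * R) * (|K| * (R:ℝ) ^ (-p)) := by
        apply mul_le_mul _ h4 (hj0 R) (by positivity)
        apply mul_le_mul_of_nonneg_left _ (by positivity)
        linarith
    _ = 27 * C * |K| * (R:ℝ) ^ (-(p - 1)) := by rw [← h5]; ring
    _ ≤ Real.exp (-1) := hR.le

/-- The doubly exponential decay along the radii `3^k (R₀ + 2) - 2`. -/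
private theorem R2_geom (j : ℕ → ℝ) (hj0 : ∀ R, 0 ≤ j R) {C : ℝ} (hC : 0 < C)
    (h1 : ∀ R w : ℕ, j (R + 2 * w + 4) ≤ C * (R + 2 * w + 4) * j w * j R) {R₀ : ℕ}
    (h0 : 9 * C * (R₀ + 2) * j R₀ ≤ Real.exp (-1)) (k : ℕ) :
    ∃ R : ℕ, R + 2 = 3 ^ k * (R₀ + 2) ∧ 9 * C * (R + 2) * j R ≤ Real.exp (-(2 ^ k : ℝ)) := by
  induction k with
  | zero => exact ⟨R₀, by ring, by simpa using h0⟩
  | succ k ih =>
    obtain ⟨R, hR, hb⟩ := ih
    refine ⟨R + 2 * R + 4, ?_, ?_⟩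
    · rw [pow_succ]; linarith [hR]
    · have h2 := h1 R R
      have hR0 : (0:ℝ) ≤ R := by positivity
      have hj := hj0 R
      have ha0 : 0 ≤ 9 * C * (R + 2) * j R := by positivity
      calc 9 * C * (((R + 2 * R + 4 : ℕ) : ℝ) + 2) * j (R + 2 * R + 4)
          ≤ 9 * C * (((R + 2 * R + 4 : ℕ) : ℝ) + 2) * (C * (R + 2 * R + 4) * j R * j R) := by
            apply mul_le_mul_of_nonneg_left h2
            positivity
        _ ≤ (9 * C * (R + 2) * j R) * (9 * C * (R + 2) * j R) := by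
            push_cast
            have e1 : 9 * C * ((R:ℝ) + 2 * R + 4 + 2) * (C * (R + 2 * R + 4) * j R * j R) =
              (27 * C ^ 2 * (j R) ^ 2 * (R + 2)) * (3 * R + 4) := by ring
            have e2 : (9 * C * ((R:ℝ) + 2) * j R) * (9 * C * (R + 2) * j R) =
              (27 * C ^ 2 * (j R) ^ 2 * (R + 2)) * (3 * R + 6) := by ring
            rw [e1, e2]
            apply mul_le_mul_of_nonneg_left (by linarith) (by positivity)
        _ ≤ Real.exp (-(2 ^ k : ℝ)) * Real.exp (-(2 ^ k : ℝ)) := mul_le_mul hb hb ha0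
            (Real.exp_pos _).le
        _ = Real.exp (-(2 ^ (k + 1) : ℝ)) := by rw [← Real.exp_add]; congr 1; ring

/-- Stretched exponential decay of `j`. -/
private theorem R2_stretch (j : ℕ → ℝ) (hj0 : ∀ R, 0 ≤ j R) (hja : Antitone j) {C : ℝ}
    (hC : 0 < C)
    (h1 : ∀ R w : ℕ, j (R + 2 * w + 4) ≤ C * (R + 2 * w + 4) * j w * j R) {R₀ : ℕ}
    (h0 : 9 * C * (R₀ + 2) * j R₀ ≤ Real.exp (-1)) :
    ∃ c : ℝ, 0 < c ∧ ∀ R : ℕ, R₀ ≤ R → j R ≤ 1 / (9 * C) * Real.exp (-(c * Real.sqrt (R + 2))) := by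
  have hD : (0:ℝ) < 3 * (R₀ + 2) := by positivity
  refine ⟨1 / Real.sqrt (3 * (R₀ + 2)), by positivity, ?_⟩
  intro R hR
  set k := Nat.log 3 ((R + 2) / (R₀ + 2)) with hk
  have hdiv : (R + 2) / (R₀ + 2) ≠ 0 := (Nat.div_pos (by omega) (by omega)).ne'
  have k1 : 3 ^ k * (R₀ + 2) ≤ R + 2 := by
    have h2 : 3 ^ k ≤ (R + 2) / (R₀ + 2) := Nat.pow_log_le_self 3 hdiv
    calc 3 ^ k * (R₀ + 2) ≤ (R + 2) / (R₀ + 2) * (R₀ + 2) := Nat.mul_le_mul_right _ h2
      _ ≤ R + 2 := Nat.div_mul_le_self _ _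
  have k2 : R + 2 < 3 ^ (k + 1) * (R₀ + 2) := by
    have h3 : (R + 2) / (R₀ + 2) < 3 ^ (k + 1) := Nat.lt_pow_succ_log_self (by norm_num) _
    exact (Nat.div_lt_iff_lt_mul (by omega)).mp h3
  obtain ⟨Rk, e1, e2⟩ := R2_geom j hj0 hC h1 h0 k
  have e3 : j R ≤ j Rk := hja (by omega)
  have e4 : 9 * C * j Rk ≤ Real.exp (-(2 ^ k : ℝ)) := by
    refine le_trans ?_ e2
    have hRk : (0:ℝ) ≤ Rk := by positivity
    have := hj0 Rk
    have h5 : 9 * C * (Rk + 2) * j Rk = (9 * C * j Rk) * (Rk + 2) := by ring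
    rw [h5]
    exact le_mul_of_one_le_right (by positivity) (by linarith)
  have e5 : 1 / Real.sqrt (3 * (R₀ + 2)) * Real.sqrt (R + 2) ≤ 2 ^ k := by
    rw [div_mul_eq_mul_div, one_mul, div_le_iff₀ (Real.sqrt_pos.mpr hD)]
    have h6 : ((R:ℝ) + 2) ≤ (2 ^ k) ^ 2 * (3 * (R₀ + 2)) := by
      have h7 : ((R:ℝ) + 2) ≤ 3 ^ (k + 1) * (R₀ + 2) := by exact_mod_cast k2.le
      have h8 : (3:ℝ) ^ k ≤ (2 ^ k) ^ 2 := by
        rw [← pow_mul, mul_comm k 2, pow_mul]
        exact pow_le_pow_left₀ (by norm_num) (by norm_num) k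
      calc ((R:ℝ) + 2) ≤ 3 ^ (k + 1) * (R₀ + 2) := h7
        _ = 3 ^ k * (3 * (R₀ + 2)) := by ring
        _ ≤ _ := mul_le_mul_of_nonneg_right h8 hD.le
    calc Real.sqrt (R + 2) ≤ Real.sqrt ((2 ^ k) ^ 2 * (3 * (R₀ + 2))) := Real.sqrt_le_sqrt h6
      _ = 2 ^ k * Real.sqrt (3 * (R₀ + 2)) := by
          rw [Real.sqrt_mul (by positivity), Real.sqrt_sq (by positivity)]
  have e6 : j Rk ≤ 1 / (9 * C) * Real.exp (-(2 ^ k : ℝ)) := by
    rw [div_mul_eq_mul_div, one_mul, le_div_iff₀ (by positivity)]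
    linarith
  refine e3.trans (e6.trans ?_)
  apply mul_le_mul_of_nonneg_left _ (by positivity)
  exact Real.exp_le_exp.mpr (by linarith)

/-- Iteration with a fixed width. -/
private theorem R2_iter (v : ℕ → ℝ) (hv0 : ∀ R, 0 ≤ v R) {C : ℝ} (hC : 0 < C) {jw : ℝ}
    (hjw : 0 ≤ jw) {w : ℕ}
    (h2 : ∀ R : ℕ, v (R + 2 * w + 4) ≤ C * (R + 2 * w + 4) * jw * v R) {R : ℕ}
    (hq : C * (R + 2 * w + 4) * jw ≤ Real.exp (-1)) (m : ℕ) (hm : m * (2 * w + 4) ≤ R) :
    v (m * (2 * w + 4)) ≤ Real.exp (-(m:ℝ)) * v 0 := by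
  induction m with
  | zero => simp
  | succ m ih =>
    have hm' : m * (2 * w + 4) ≤ R := le_trans (Nat.mul_le_mul_right _ (Nat.le_succ m)) hm
    have i1 := ih hm'
    have e1 : (m + 1) * (2 * w + 4) = m * (2 * w + 4) + 2 * w + 4 := by ring
    rw [e1]
    refine (h2 _).trans ?_
    have e2 : C * (((m * (2 * w + 4) : ℕ) : ℝ) + 2 * w + 4) * jw ≤ Real.exp (-1) := by
      refine le_trans ?_ hq
      apply mul_le_mul_of_nonneg_right _ hjw
      apply mul_le_mul_of_nonneg_left _ hC.le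
      have : (((m * (2 * w + 4) : ℕ) : ℝ)) ≤ R := by exact_mod_cast hm'
      linarith
    calc C * (((m * (2 * w + 4) : ℕ) : ℝ) + 2 * w + 4) * jw * v (m * (2 * w + 4))
        ≤ Real.exp (-1) * (Real.exp (-(m:ℝ)) * v 0) :=
          mul_le_mul e2 i1 (hv0 _) (Real.exp_pos _).le
      _ = Real.exp (-((m + 1 : ℕ) : ℝ)) * v 0 := by
          rw [← mul_assoc, ← Real.exp_add]
          congr 2
          push_cast
          ring

theorem rec_real (j v : ℕ → ℝ) (hj0 : ∀ R, 0 ≤ j R) (hv0 : ∀ R, 0 ≤ v R) (hja : Antitone j)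
    (hva : Antitone v) {C : ℝ} (hC : 0 < C)
    (h1 : ∀ R w : ℕ, j (R + 2 * w + 4) ≤ C * (R + 2 * w + 4) * j w * j R)
    (h2 : ∀ R w : ℕ, v (R + 2 * w + 4) ≤ C * (R + 2 * w + 4) * j w * v R)
    {K p : ℝ} (hp : 1 < p) (h3 : ∀ R : ℕ, 1 ≤ R → j R ≤ K * (R : ℝ) ^ (-p)) :
    ∃ c K' : ℝ, 0 < c ∧ 0 < K' ∧ ∀ R : ℕ, v R ≤ K' * Real.exp (-(c * R / Real.log (R + 2) ^ 2)) := by
  obtain ⟨R₀, hR₀⟩ := R2_start j hj0 hC hp h3
  obtain ⟨c, hc, hst⟩ := R2_stretch j hj0 hja hC h1 hR₀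
  set B : ℝ := (3 / c) ^ 2 with hB
  have hBpos : 0 < B := by positivity
  have hl2 : 0 < Real.log 2 := Real.log_pos (by norm_num)
  -- the condition for large `R`
  have hev : ∀ᶠ R : ℕ in atTop, (R₀ : ℝ) ≤ B * Real.log (R + 2) ^ 2 ∧
      (8 * B + 6) * ((R:ℝ) + 2) ^ (-(2:ℝ)) ≤ 9 * Real.exp (-1) := by
    have t0 : Tendsto (fun R : ℕ => (R:ℝ) + 2) atTop atTop :=
      tendsto_atTop_add_const_right _ _ tendsto_natCast_atTop_atTop
    have t1 : Tendsto (fun R : ℕ => B * Real.log ((R:ℝ) + 2) ^ 2) atTop atTop :=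
      ((tendsto_pow_atTop (by norm_num)).comp (Real.tendsto_log_atTop.comp t0)).const_mul_atTop
        hBpos
    have t2 : Tendsto (fun R : ℕ => (8 * B + 6) * ((R:ℝ) + 2) ^ (-(2:ℝ))) atTop (nhds 0) := by
      have := ((tendsto_rpow_neg_atTop (by norm_num : (0:ℝ) < 2)).comp t0).const_mul (8 * B + 6)
      rwa [mul_zero] at this
    exact (t1.eventually_ge_atTop _).and ((t2.eventually (gt_mem_nhds (by positivity))).mono
      (fun _ h => h.le))
  obtain ⟨R₁, hR₁⟩ := eventually_atTop.mp hev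
  set D : ℝ := 2 * B + 6 / Real.log 2 ^ 2 with hD
  have hDpos : 0 < D := by positivity
  set c' : ℝ := 1 / D with hc'
  have hc'pos : 0 < c' := by positivity
  refine ⟨c', Real.exp 1 * v 0 + v 0 * Real.exp (c' * R₁ / Real.log 2 ^ 2) + 1, hc'pos, ?_, ?_⟩
  · have := hv0 0
    positivity
  intro R
  have hv00 := hv0 0
  have hlogR : Real.log 2 ≤ Real.log (R + 2) :=
    Real.log_le_log (by norm_num) (by have : (0:ℝ) ≤ R := by positivity
                                      linarith)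
  have hlog0 : 0 < Real.log ((R:ℝ) + 2) := lt_of_lt_of_le hl2 hlogR
  have hlogsq : Real.log 2 ^ 2 ≤ Real.log ((R:ℝ) + 2) ^ 2 := pow_le_pow_left₀ hl2.le hlogR 2
  rcases Nat.lt_or_ge R R₁ with hlt | hge
  · -- small `R`
    have e1 : v R ≤ v 0 := hva (Nat.zero_le R)
    have e2 : c' * R / Real.log (R + 2) ^ 2 ≤ c' * R₁ / Real.log 2 ^ 2 := by
      have hRR : (R:ℝ) ≤ R₁ := by exact_mod_cast hlt.le
      exact div_le_div₀ (by positivity) (mul_le_mul_of_nonneg_left hRR hc'pos.le) (by positivity)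
        hlogsq
    have e3 : 1 ≤ Real.exp (c' * R₁ / Real.log 2 ^ 2) *
        Real.exp (-(c' * R / Real.log (R + 2) ^ 2)) := by
      rw [← Real.exp_add]
      exact Real.one_le_exp (by linarith)
    calc v R ≤ v 0 * 1 := by linarith
      _ ≤ v 0 * (Real.exp (c' * R₁ / Real.log 2 ^ 2) *
            Real.exp (-(c' * R / Real.log (R + 2) ^ 2))) := mul_le_mul_of_nonneg_left e3 hv00
      _ = (v 0 * Real.exp (c' * R₁ / Real.log 2 ^ 2)) *
            Real.exp (-(c' * R / Real.log (R + 2) ^ 2)) := by ring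
      _ ≤ _ := by
          apply mul_le_mul_of_nonneg_right _ (Real.exp_pos _).le
          have : 0 ≤ Real.exp 1 * v 0 := by positivity
          linarith
  · -- large `R`
    obtain ⟨g1, g2⟩ := hR₁ R hge
    set w : ℕ := ⌈B * Real.log (R + 2) ^ 2⌉₊ with hw
    have w1 : B * Real.log (R + 2) ^ 2 ≤ w := Nat.le_ceil _
    have w2 : (w:ℝ) < B * Real.log (R + 2) ^ 2 + 1 := Nat.ceil_lt_add_one (by positivity)
    have w3 : R₀ ≤ w := by
      have : (R₀:ℝ) ≤ w := g1.trans w1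
      exact_mod_cast this
    have hR2 : (1:ℝ) ≤ R + 2 := by
      have : (0:ℝ) ≤ R := by positivity
      linarith
    have hR2p : (0:ℝ) < R + 2 := by linarith
    have hls := R2_log_sq hR2
    have j1 : j w ≤ 1 / (9 * C) * ((R:ℝ) + 2) ^ (-(3:ℝ)) := by
      refine (hst w w3).trans ?_
      apply mul_le_mul_of_nonneg_left _ (by positivity)
      rw [Real.rpow_def_of_pos hR2p]
      apply Real.exp_le_exp.mpr
      have hsq : 3 / c * Real.log (R + 2) ≤ Real.sqrt (w + 2) := by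
        apply Real.le_sqrt_of_sq_le
        rw [mul_pow, ← hB]
        linarith
      have : c * (3 / c * Real.log (R + 2)) ≤ c * Real.sqrt (w + 2) :=
        mul_le_mul_of_nonneg_left hsq hc.le
      have e : c * (3 / c * Real.log (R + 2)) = 3 * Real.log (R + 2) := by field_simp
      rw [e] at this
      linarith
    have q1 : (R:ℝ) + 2 * w + 4 ≤ (8 * B + 6) * (R + 2) := by
      have : B * Real.log (R + 2) ^ 2 ≤ B * (4 * (R + 2)) := mul_le_mul_of_nonneg_left hls hBpos.le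
      nlinarith
    have hq : C * (R + 2 * w + 4) * j w ≤ Real.exp (-1) := by
      have hw0 : (0:ℝ) ≤ w := by positivity
      calc C * (R + 2 * w + 4) * j w
          ≤ C * ((8 * B + 6) * (R + 2)) * (1 / (9 * C) * ((R:ℝ) + 2) ^ (-(3:ℝ))) := by
            apply mul_le_mul (mul_le_mul_of_nonneg_left q1 hC.le) j1 (hj0 w) (by positivity)
        _ = (8 * B + 6) * (((R:ℝ) + 2) * ((R:ℝ) + 2) ^ (-(3:ℝ))) / 9 := by
            field_simp
        _ = (8 * B + 6) * ((R:ℝ) + 2) ^ (-(2:ℝ)) / 9 := by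
            congr 2
            rw [show (-(2:ℝ)) = 1 + -3 by norm_num, Real.rpow_add hR2p, Real.rpow_one]
        _ ≤ Real.exp (-1) := by linarith
    set m : ℕ := R / (2 * w + 4) with hm
    have m1 : m * (2 * w + 4) ≤ R := Nat.div_mul_le_self _ _
    have m2 : R < (m + 1) * (2 * w + 4) := by
      have := Nat.lt_div_mul_add (a := R) (b := 2 * w + 4) (by omega)
      rw [add_mul, one_mul]
      exact this
    have i1 := R2_iter v hv0 hC (hj0 w) (fun R => h2 R w) hq m m1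
    have i2 : v R ≤ v (m * (2 * w + 4)) := hva m1
    have d1 : ((2 * w + 4 : ℕ) : ℝ) ≤ D * Real.log (R + 2) ^ 2 := by
      push_cast
      have e1 : 6 ≤ 6 / Real.log 2 ^ 2 * Real.log (R + 2) ^ 2 := by
        rw [div_mul_eq_mul_div, le_div_iff₀ (by positivity)]
        linarith
      rw [hD]
      nlinarith
    have d2 : c' * R / Real.log (R + 2) ^ 2 ≤ m + 1 := by
      rw [hc', div_mul_eq_mul_div, one_mul, div_div, div_le_iff₀ (by positivity)]
      have e1 : (R:ℝ) ≤ (m + 1) * ((2 * w + 4 : ℕ) : ℝ) := by exact_mod_cast m2.le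
      exact e1.trans (mul_le_mul_of_nonneg_left d1 (by positivity))
    calc v R ≤ Real.exp (-(m:ℝ)) * v 0 := i2.trans i1
      _ ≤ (Real.exp 1 * Real.exp (-(c' * R / Real.log (R + 2) ^ 2))) * v 0 := by
          apply mul_le_mul_of_nonneg_right _ hv00
          rw [← Real.exp_add]
          exact Real.exp_le_exp.mpr (by linarith)
      _ = (Real.exp 1 * v 0) * Real.exp (-(c' * R / Real.log (R + 2) ^ 2)) := by ring
      _ ≤ _ := by
          apply mul_le_mul_of_nonneg_right _ (Real.exp_pos _).le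
          have : 0 ≤ v 0 * Real.exp (c' * R₁ / Real.log 2 ^ 2) := by positivity
          linarith

end Pool.Agent.H716R2.ON
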