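import Mathlib
import Pool.Agent.H716R2.ON.Base
import Pool.Agent.H716R2.ON.Ker1
import Pool.Agent.H716R2.ON.Ker2
import Pool.Agent.H716R2.ON.IBP2

/-!
# The quadratic form of the local rotations (task S1)
-/

set_option autoImplicit false

noncomputable section

namespace Pool.Agent.H716R2.ON

open MeasureTheory Pool.Agent.H5R2.ON

variable {N L : ℕ} [NeZero L]

/-! ### Sums over edges -/

private theorem esum_le_mul {F G : Tor L → Tor L → ℝ} {c : ℝ}
    (h : ∀ y z : Tor L, (z = y + (1, 0) ∨ z = y + (0, 1)) → F y z ≤ G y z * c) :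
    esum F ≤ esum G * c := by
  unfold esum
  rw [Finset.sum_mul]
  refine Finset.sum_le_sum fun z _ => ?_
  rw [add_mul]
  exact add_le_add (h z _ (Or.inl rfl)) (h z _ (Or.inr rfl))

/-! ### The quadratic form -/

private theorem cont_lin (f : Fin N → ℝ) (y : Tor L) :
    Continuous fun S : Conf N L => ∑ j, f j * co S y j :=
  continuous_finsetSum _ fun j _ => continuous_const.mul (continuous_co y j)

private theorem cont_quad (b : Fin N → Fin N → ℝ) (y z : Tor L) :
    Continuous fun S : Conf N L => ∑ i, (∑ j, b i j * co S y j) * ∑ j, b i j * co S z j :=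
  continuous_finsetSum _ fun i _ => (cont_lin (b i) y).mul (cont_lin (b i) z)

omit [NeZero L] in
private theorem lin_sq_le (f : Fin N → ℝ) (S : Conf N L) (y : Tor L) :
    (∑ j, f j * co S y j) ^ 2 ≤ ∑ j, f j ^ 2 := by
  have h := Finset.sum_mul_sq_le_sq_mul_sq Finset.univ f (fun j => co S y j)
  rw [sum_co_sq, mul_one] at h
  exact h

omit [NeZero L] in
private theorem quad_pt (b : Fin N → Fin N → ℝ) (S : Conf N L) (y z : Tor L) :
    ∑ i, (∑ j, b i j * co S y j) * ∑ j, b i j * co S z j ≤ ∑ i, ∑ j, b i j ^ 2 := by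
  refine Finset.sum_le_sum fun i _ => ?_
  have h1 := lin_sq_le (b i) S y
  have h2 := lin_sq_le (b i) S z
  nlinarith [sq_nonneg ((∑ j, b i j * co S y j) - ∑ j, b i j * co S z j)]

/-- quadratic bound without information -/
theorem quad_crude (hN : N ≠ 0) {β : ℝ} (hβ : 0 < β) (V : Finset (Tor L)) (a : Tor L → ℝ)
    (ha : ∀ x ∉ V, a x = 0) {b : Fin N → Fin N → ℝ} (hb : Anti b) (τ : Conf N L) :
    β ^ 2 * KK β V (fun S => Hb a b S ^ 2) τ ≤ β * Wd a * ∑ i, ∑ j, b i j ^ 2 := by
  have h1 : β ^ 2 * KK β V (fun S => Hb a b S ^ 2) τ =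
      β * (β * KK β V (fun S => Hb a b S ^ 2) τ) := by ring
  rw [h1, KK_Hb_sq hN β V a ha hb τ, mul_assoc]
  refine mul_le_mul_of_nonneg_left ?_ hβ.le
  unfold Wd
  refine esum_le_mul fun y z _ => ?_
  refine mul_le_mul_of_nonneg_left ?_ (sq_nonneg _)
  refine (KK_mono hN β V (cont_quad b y z) continuous_const (fun S => quad_pt b S y z) τ).trans ?_
  rw [KK_const hN]

omit [NeZero L] in
private theorem quad_split (hN : N ≠ 0) (b : Fin N → Fin N → ℝ) (S : Conf N L) (y z : Tor L) :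
    ∑ i, (∑ j, b i j * co S y j) * ∑ j, b i j * co S z j =
      (∑ p : Fin N × Fin N, (∑ i, b i p.1 * b i p.2) * Mat0 y z p.1 p.2 S) +
        ((∑ i, ∑ j, b i j ^ 2) / N) * ∑ m, co S y m * co S z m := by
  have hN' : (N : ℝ) ≠ 0 := by exact_mod_cast hN
  have h1 : ∑ i, (∑ j, b i j * co S y j) * ∑ j, b i j * co S z j =
      ∑ j, ∑ m, (∑ i, b i j * b i m) * (co S y j * co S z m) := by
    calc ∑ i, (∑ j, b i j * co S y j) * ∑ j, b i j * co S z j
        = ∑ i, ∑ j, ∑ m, (b i j * co S y j) * (b i m * co S z m) := by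
          refine Finset.sum_congr rfl fun i _ => ?_
          rw [Finset.sum_mul_sum]
      _ = ∑ j, ∑ i, ∑ m, (b i j * co S y j) * (b i m * co S z m) := Finset.sum_comm
      _ = ∑ j, ∑ m, ∑ i, (b i j * co S y j) * (b i m * co S z m) :=
          Finset.sum_congr rfl fun j _ => Finset.sum_comm
      _ = _ := by
          refine Finset.sum_congr rfl fun j _ => Finset.sum_congr rfl fun m _ => ?_
          rw [Finset.sum_mul]
          exact Finset.sum_congr rfl fun i _ => by ring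
  have h2 : ∀ j m : Fin N, co S y j * co S z m =
      Mat0 y z j m S + (if j = m then (∑ l, co S y l * co S z l) / N else 0) := by
    intro j m
    unfold Mat0
    ring
  have h3 : ∑ j, ∑ m, (∑ i, b i j * b i m) *
      (if j = m then (∑ l, co S y l * co S z l) / N else 0) =
      ((∑ i, ∑ j, b i j ^ 2) / N) * ∑ m, co S y m * co S z m := by
    calc ∑ j, ∑ m, (∑ i, b i j * b i m) *
          (if j = m then (∑ l, co S y l * co S z l) / N else 0)
        = ∑ j, (∑ i, b i j * b i j) * ((∑ l, co S y l * co S z l) / N) := by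
          refine Finset.sum_congr rfl fun j _ => ?_
          rw [Finset.sum_eq_single j]
          · rw [if_pos rfl]
          · intro m _ hm
            rw [if_neg (Ne.symm hm), mul_zero]
          · intro h
            exact absurd (Finset.mem_univ j) h
      _ = (∑ j, ∑ i, b i j * b i j) * ((∑ l, co S y l * co S z l) / N) := by
          rw [Finset.sum_mul]
      _ = (∑ i, ∑ j, b i j ^ 2) * ((∑ l, co S y l * co S z l) / N) := by
          rw [Finset.sum_comm]
          congr 1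
          exact Finset.sum_congr rfl fun i _ => Finset.sum_congr rfl fun j _ => by ring
      _ = _ := by ring
  rw [h1, Fintype.sum_prod_type, ← h3, ← Finset.sum_add_distrib]
  refine Finset.sum_congr rfl fun j _ => ?_
  rw [← Finset.sum_add_distrib]
  refine Finset.sum_congr rfl fun m _ => ?_
  rw [h2 j m]
  ring

private theorem cont_Mat0 (y z : Tor L) (i j : Fin N) : Continuous (Mat0 (N := N) y z i j) := by
  unfold Mat0
  refine ((continuous_co y i).mul (continuous_co z j)).sub ?_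
  by_cases h : i = j
  · simp only [h, if_true]
    exact (continuous_finsetSum _ fun m _ =>
      (continuous_co y m).mul (continuous_co z m)).div_const _
  · simp only [h, if_false]
    exact continuous_const

private theorem sumB_sq (b : Fin N → Fin N → ℝ) :
    ∑ p : Fin N × Fin N, (∑ i, b i p.1 * b i p.2) ^ 2 ≤ (∑ i, ∑ j, b i j ^ 2) ^ 2 := by
  have h1 : ∑ p : Fin N × Fin N, (∑ i, b i p.1 * b i p.2) ^ 2 ≤
      ∑ p : Fin N × Fin N, (∑ i, b i p.1 ^ 2) * (∑ i, b i p.2 ^ 2) :=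
    Finset.sum_le_sum fun p _ => Finset.sum_mul_sq_le_sq_mul_sq Finset.univ _ _
  refine h1.trans (le_of_eq ?_)
  have e : ∑ j, ∑ i, b i j ^ 2 = ∑ i, ∑ j, b i j ^ 2 := Finset.sum_comm
  simp only [Fintype.sum_prod_type]
  rw [← Finset.sum_mul_sum, e, sq]

/-- quadratic bound with isotropy: for every edge with `a z ≠ a y` there is a set `U ⊆ V` on which
the traceless part of `S_y ⊗ S_z` has small conditional expectation. -/
theorem quad_fine (hN : N ≠ 0) {β D : ℝ} (hβ : 0 < β) (hD : 0 ≤ D) (V : Finset (Tor L))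
    (a : Tor L → ℝ) (ha : ∀ x ∉ V, a x = 0)
    (hiso : ∀ y z : Tor L, (z = y + (1, 0) ∨ z = y + (0, 1)) → a z ≠ a y →
      ∃ U : Finset (Tor L), U ⊆ V ∧ ∀ τ : Conf N L,
        ∑ i, ∑ j, (KK β U (Mat0 y z i j) τ) ^ 2 ≤ D ^ 2)
    {b : Fin N → Fin N → ℝ} (hb : Anti b) (τ : Conf N L) :
    β ^ 2 * KK β V (fun S => Hb a b S ^ 2) τ ≤
      β * (1 / N + D) * Wd a * ∑ i, ∑ j, b i j ^ 2 := by
  have h1 : β ^ 2 * KK β V (fun S => Hb a b S ^ 2) τ =
      β * (β * KK β V (fun S => Hb a b S ^ 2) τ) := by ring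
  have h1' : β * (1 / N + D) * Wd a * ∑ i, ∑ j, b i j ^ 2 =
      β * (Wd a * ((1 / N + D) * ∑ i, ∑ j, b i j ^ 2)) := by ring
  rw [h1, h1', KK_Hb_sq hN β V a ha hb τ]
  refine mul_le_mul_of_nonneg_left ?_ hβ.le
  unfold Wd
  refine esum_le_mul fun y z hyz => ?_
  by_cases haz : a z = a y
  · rw [haz]
    simp
  refine mul_le_mul_of_nonneg_left ?_ (sq_nonneg _)
  obtain ⟨U, hU, hUτ⟩ := hiso y z hyz haz
  have hnb : 0 ≤ ∑ i, ∑ j, b i j ^ 2 :=
    Finset.sum_nonneg fun i _ => Finset.sum_nonneg fun j _ => sq_nonneg _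
  -- the conditional expectations of the traceless part
  have hk : ∑ p : Fin N × Fin N, (KK β V (Mat0 y z p.1 p.2) τ) ^ 2 ≤ D ^ 2 := by
    have e1 : ∀ p : Fin N × Fin N, KK β V (Mat0 y z p.1 p.2) τ =
        KK β V (KK β U (Mat0 y z p.1 p.2)) τ := fun p =>
      (KK_tower hN β hU (cont_Mat0 y z p.1 p.2) τ).symm
    have hc : ∀ p : Fin N × Fin N, Continuous (KK β U (Mat0 (N := N) y z p.1 p.2)) := fun p =>
      continuous_KK hN β U (cont_Mat0 y z p.1 p.2)
    calc ∑ p : Fin N × Fin N, (KK β V (Mat0 y z p.1 p.2) τ) ^ 2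
        = ∑ p : Fin N × Fin N, (KK β V (KK β U (Mat0 y z p.1 p.2)) τ) ^ 2 :=
          Finset.sum_congr rfl fun p _ => by rw [e1 p]
      _ ≤ KK β V (fun S => ∑ p : Fin N × Fin N, (KK β U (Mat0 y z p.1 p.2) S) ^ 2) τ :=
          KK_norm_sq_le hN β V Finset.univ (φ := fun p : Fin N × Fin N =>
            KK β U (Mat0 y z p.1 p.2)) (fun p _ => hc p) τ
      _ ≤ KK β V (fun _ => D ^ 2) τ := by
          refine KK_mono hN β V (continuous_finsetSum _ fun p _ => (hc p).pow 2)
            continuous_const (fun S => ?_) τ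
          have h := hUτ S
          rw [Fintype.sum_prod_type]
          exact h
      _ = D ^ 2 := KK_const hN β V _ τ
  have hB := sumB_sq b
  -- Cauchy-Schwarz
  have hcs : ∑ p : Fin N × Fin N, (∑ i, b i p.1 * b i p.2) * KK β V (Mat0 y z p.1 p.2) τ ≤
      (∑ i, ∑ j, b i j ^ 2) * D := by
    have h := Finset.sum_mul_sq_le_sq_mul_sq (Finset.univ : Finset (Fin N × Fin N))
      (fun p => ∑ i, b i p.1 * b i p.2) (fun p => KK β V (Mat0 y z p.1 p.2) τ)
    have h' : (∑ p : Fin N × Fin N, (∑ i, b i p.1 * b i p.2) *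
        KK β V (Mat0 y z p.1 p.2) τ) ^ 2 ≤ ((∑ i, ∑ j, b i j ^ 2) * D) ^ 2 := by
      refine h.trans ?_
      rw [mul_pow]
      exact mul_le_mul hB hk (Finset.sum_nonneg fun p _ => sq_nonneg _) (sq_nonneg _)
    exact (le_abs_self _).trans (abs_le_of_sq_le_sq h' (mul_nonneg hnb hD))
  -- the trace
  have htr : KK β V (fun S => ∑ m, co S y m * co S z m) τ ≤ 1 := by
    refine (KK_mono hN β V (continuous_finsetSum _ fun m _ =>
      (continuous_co y m).mul (continuous_co z m)) continuous_const (ψ := fun _ => (1 : ℝ))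
      (fun S => ?_) τ).trans (le_of_eq (KK_const hN β V _ τ))
    have h2 := sum_co_sq S y
    have h3 := sum_co_sq S z
    have h4 : ∑ m, co S y m * co S z m ≤ ∑ m, (co S y m ^ 2 + co S z m ^ 2) / 2 :=
      Finset.sum_le_sum fun m _ => by nlinarith [sq_nonneg (co S y m - co S z m)]
    rw [← Finset.sum_div, Finset.sum_add_distrib, h2, h3] at h4
    show ∑ m, co S y m * co S z m ≤ (1 : ℝ)
    linarith
  have hsplit : KK β V (fun S => ∑ i, (∑ j, b i j * co S y j) * ∑ j, b i j * co S z j) τ =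
      (∑ p : Fin N × Fin N, (∑ i, b i p.1 * b i p.2) * KK β V (Mat0 y z p.1 p.2) τ) +
        ((∑ i, ∑ j, b i j ^ 2) / N) * KK β V (fun S => ∑ m, co S y m * co S z m) τ := by
    have e : (fun S : Conf N L => ∑ i, (∑ j, b i j * co S y j) * ∑ j, b i j * co S z j) =
        fun S => (∑ p : Fin N × Fin N, (∑ i, b i p.1 * b i p.2) * Mat0 y z p.1 p.2 S) +
          ((∑ i, ∑ j, b i j ^ 2) / N) * ∑ m, co S y m * co S z m := by
      funext S
      exact quad_split hN b S y z
    rw [e, KK_add β V (φ := fun S => ∑ p : Fin N × Fin N,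
        (∑ i, b i p.1 * b i p.2) * Mat0 y z p.1 p.2 S)
      (ψ := fun S => ((∑ i, ∑ j, b i j ^ 2) / N) * ∑ m, co S y m * co S z m)
      (continuous_finsetSum _ fun p _ => continuous_const.mul (cont_Mat0 y z p.1 p.2))
      (continuous_const.mul (continuous_finsetSum _ fun m _ =>
        (continuous_co y m).mul (continuous_co z m))) τ,
      KK_const_mul β V ((∑ i, ∑ j, b i j ^ 2) / N) (fun S => ∑ m, co S y m * co S z m) τ,
      KK_sum β V Finset.univ (φ := fun (p : Fin N × Fin N) S =>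
        (∑ i, b i p.1 * b i p.2) * Mat0 y z p.1 p.2 S)
      (fun p _ => continuous_const.mul (cont_Mat0 y z p.1 p.2)) τ]
    congr 1
    exact Finset.sum_congr rfl fun p _ =>
      KK_const_mul β V (∑ i, b i p.1 * b i p.2) (Mat0 y z p.1 p.2) τ
  rw [hsplit]
  have hdiv : 0 ≤ (∑ i, ∑ j, b i j ^ 2) / (N : ℝ) := div_nonneg hnb (Nat.cast_nonneg N)
  have h5 := mul_le_mul_of_nonneg_left htr hdiv
  calc (∑ p : Fin N × Fin N, (∑ i, b i p.1 * b i p.2) * KK β V (Mat0 y z p.1 p.2) τ) +
        ((∑ i, ∑ j, b i j ^ 2) / N) * KK β V (fun S => ∑ m, co S y m * co S z m) τ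
      ≤ (∑ i, ∑ j, b i j ^ 2) * D + ((∑ i, ∑ j, b i j ^ 2) / N) * 1 := add_le_add hcs h5
    _ = (1 / N + D) * ∑ i, ∑ j, b i j ^ 2 := by ring

end Pool.Agent.H716R2.ON
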