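import Mathlib
import Pool.Agent.H716R2.ON.Base
import Pool.Agent.H716R2.ON.Ker1
import Pool.Agent.H716R2.ON.Ker2
import Pool.Agent.H716R2.ON.IBP2

/-!
# The abstract contraction step (task S2, helper508)
-/

set_option autoImplicit false

noncomputable section

namespace Pool.Agent.H716R2.ON

open MeasureTheory Pool.Agent.H5R2.ON

variable {N L : ℕ} [NeZero L]

omit [NeZero L] in
private theorem s2_co_glue {V : Finset (Tor L)} (σ τ : Conf N L) {x : Tor L} (hx : x ∉ V)
    (i : Fin N) : co (glue V σ τ) x i = co τ x i := by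
  unfold co glue
  rw [if_neg hx]

/-- `Hb a b` does not depend on the spins in `V₀` -/
private theorem s2_Off_Hb {V₀ : Finset (Tor L)} (a : Tor L → ℝ)
    (ha1 : ∀ y z : Tor L, (z = y + (1, 0) ∨ z = y + (0, 1)) → (y ∈ V₀ ∨ z ∈ V₀) → a z = a y)
    (b : Fin N → Fin N → ℝ) : Off V₀ (Hb a b) := by
  intro σ τ
  unfold Hb esum
  apply Finset.sum_congr rfl
  intro y _
  have key : ∀ z : Tor L, (z = y + (1, 0) ∨ z = y + (0, 1)) →
      (a z - a y) * ∑ i, ∑ j, co (glue V₀ σ τ) y i * b i j * co (glue V₀ σ τ) z j =
      (a z - a y) * ∑ i, ∑ j, co τ y i * b i j * co τ z j := by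
    intro z hz
    by_cases h : y ∈ V₀ ∨ z ∈ V₀
    · rw [ha1 y z hz h, sub_self, zero_mul, zero_mul]
    · push Not at h
      congr 1
      apply Finset.sum_congr rfl
      intro i _
      apply Finset.sum_congr rfl
      intro j _
      rw [s2_co_glue σ τ h.1, s2_co_glue σ τ h.2]
  exact congrArg₂ (· + ·) (key _ (Or.inl rfl)) (key _ (Or.inr rfl))

private theorem s2_cont_Hb (a : Tor L → ℝ) (b : Fin N → Fin N → ℝ) :
    Continuous (Hb a b : Conf N L → ℝ) := by
  unfold Hb esum
  apply continuous_finsetSum
  intro y _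
  apply Continuous.add
  · apply continuous_const.mul
    apply continuous_finsetSum
    intro i _
    apply continuous_finsetSum
    intro j _
    exact ((continuous_co y i).mul continuous_const).mul (continuous_co _ j)
  · apply continuous_const.mul
    apply continuous_finsetSum
    intro i _
    apply continuous_finsetSum
    intro j _
    exact ((continuous_co y i).mul continuous_const).mul (continuous_co _ j)

omit [NeZero L] in
private theorem s2_anti_gen (p k : Fin N) : Anti (gen p k) := by
  intro i j
  unfold gen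
  have e1 : (i = k ∧ j = p) ↔ (j = p ∧ i = k) := And.comm
  have e2 : (i = p ∧ j = k) ↔ (j = k ∧ i = p) := And.comm
  rw [if_congr e1 rfl rfl, if_congr e2 rfl rfl]
  ring

omit [NeZero L] in
private theorem s2_gen_swap (p k : Fin N) : gen k p = fun i j => - gen p k i j := by
  funext i j
  unfold gen
  ring

/-- linear combinations of the plane rotations -/
private theorem s2_Hb_sum (a : Tor L → ℝ) (c : Fin N → Fin N → ℝ) (S : Conf N L) :
    ∑ p, ∑ k, c p k * Hb a (gen p k) S = Hb a (fun i j => c j i - c i j) S := by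
  have hin : ∀ y z : Tor L, ∑ p, ∑ k, c p k * ((a z - a y) *
      ∑ i, ∑ j, co S y i * gen p k i j * co S z j) =
      (a z - a y) * ∑ i, ∑ j, co S y i * (c j i - c i j) * co S z j := by
    intro y z
    have h1 : ∀ i j : Fin N, ∑ p, ∑ k, c p k * gen p k i j = c j i - c i j := by
      intro i j
      unfold gen
      simp only [mul_sub, Finset.sum_sub_distrib]
      congr 1
      · rw [Finset.sum_eq_single j, Finset.sum_eq_single i]
        · simp
        · intro k _ hk
          rw [if_neg (fun h => hk h.1.symm), mul_zero]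
        · intro h
          exact absurd (Finset.mem_univ _) h
        · intro p _ hp
          apply Finset.sum_eq_zero
          intro k _
          rw [if_neg (fun h => hp h.2.symm), mul_zero]
        · intro h
          exact absurd (Finset.mem_univ _) h
      · rw [Finset.sum_eq_single i, Finset.sum_eq_single j]
        · simp
        · intro k _ hk
          rw [if_neg (fun h => hk h.2.symm), mul_zero]
        · intro h
          exact absurd (Finset.mem_univ _) h
        · intro p _ hp
          apply Finset.sum_eq_zero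
          intro k _
          rw [if_neg (fun h => hp h.1.symm), mul_zero]
        · intro h
          exact absurd (Finset.mem_univ _) h
    calc ∑ p, ∑ k, c p k * ((a z - a y) * ∑ i, ∑ j, co S y i * gen p k i j * co S z j)
        = ∑ p, ∑ k, ∑ i, ∑ j, (a z - a y) * (co S y i * (c p k * gen p k i j) * co S z j) := by
          apply Finset.sum_congr rfl
          intro p _
          apply Finset.sum_congr rfl
          intro k _
          rw [Finset.mul_sum, Finset.mul_sum]
          apply Finset.sum_congr rfl
          intro i _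
          rw [Finset.mul_sum, Finset.mul_sum]
          apply Finset.sum_congr rfl
          intro j _
          ring
      _ = ∑ i, ∑ j, ∑ p, ∑ k, (a z - a y) * (co S y i * (c p k * gen p k i j) * co S z j) := by
          have e1 : ∀ p : Fin N, ∑ k, ∑ i, ∑ j,
              (a z - a y) * (co S y i * (c p k * gen p k i j) * co S z j) =
              ∑ i, ∑ j, ∑ k, (a z - a y) * (co S y i * (c p k * gen p k i j) * co S z j) := by
            intro p
            rw [Finset.sum_comm]
            apply Finset.sum_congr rfl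
            intro i _
            rw [Finset.sum_comm]
          simp only [e1]
          rw [Finset.sum_comm]
          apply Finset.sum_congr rfl
          intro i _
          rw [Finset.sum_comm]
      _ = ∑ i, ∑ j, (a z - a y) * (co S y i * (c j i - c i j) * co S z j) := by
          apply Finset.sum_congr rfl
          intro i _
          apply Finset.sum_congr rfl
          intro j _
          rw [← h1 i j]
          simp only [Finset.mul_sum, Finset.sum_mul]
      _ = (a z - a y) * ∑ i, ∑ j, co S y i * (c j i - c i j) * co S z j := by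
          simp only [Finset.mul_sum]
  unfold Hb esum
  calc ∑ p, ∑ k, c p k * ∑ y : Tor L, ((a (y + (1, 0)) - a y) *
        (∑ i, ∑ j, co S y i * gen p k i j * co S (y + (1, 0)) j) +
        (a (y + (0, 1)) - a y) * ∑ i, ∑ j, co S y i * gen p k i j * co S (y + (0, 1)) j)
      = ∑ y : Tor L, ∑ p, ∑ k, (c p k * ((a (y + (1, 0)) - a y) *
        (∑ i, ∑ j, co S y i * gen p k i j * co S (y + (1, 0)) j)) +
        c p k * ((a (y + (0, 1)) - a y) *
          ∑ i, ∑ j, co S y i * gen p k i j * co S (y + (0, 1)) j)) := by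
        simp only [Finset.mul_sum (s := (Finset.univ : Finset (Tor L)))]
        rw [Finset.sum_congr rfl fun p _ => Finset.sum_comm, Finset.sum_comm]
        apply Finset.sum_congr rfl
        intro y _
        apply Finset.sum_congr rfl
        intro p _
        apply Finset.sum_congr rfl
        intro k _
        ring
    _ = _ := by
        apply Finset.sum_congr rfl
        intro y _
        simp only [Finset.sum_add_distrib]
        rw [hin y (y + (1, 0)), hin y (y + (0, 1))]

/-- The abstract contraction step: `φ_l` a family of functions, `D` the action of the plane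
rotations on it, `V₀ ⊆ V`, the profile `a` is one on `V₀` and its neighbours. -/
theorem step (hN : N ≠ 0) {β κ : ℝ} (hβ : 0 < β) (hκ : 0 < κ) {V₀ V : Finset (Tor L)}
    (hV : V₀ ⊆ V) (a : Tor L → ℝ) (ha : ∀ x ∉ V, a x = 0)
    (ha1 : ∀ y z : Tor L, (z = y + (1, 0) ∨ z = y + (0, 1)) → (y ∈ V₀ ∨ z ∈ V₀) → a z = a y)
    (hquad : ∀ b : Fin N → Fin N → ℝ, Anti b → ∀ τ : Conf N L,
      β ^ 2 * KK β V (fun S => Hb a b S ^ 2) τ ≤ κ * ∑ i, ∑ j, b i j ^ 2)
    {Λ : Type} [Fintype Λ] (φ : Λ → Conf N L → ℝ) (hφ : ∀ l, Continuous (φ l))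
    (D : Fin N → Fin N → Λ → Λ → ℝ) (τ : Conf N L)
    (hD : ∀ p k l, ∑ m, D p k l m * KK β V (φ m) τ +
      β * KK β V (fun S => φ l S * Hb a (gen p k) S) τ = 0) :
    ∑ l, (KK β V (φ l) τ) ^ 2 +
        (∑ p, ∑ k, ∑ l, (∑ m, D p k l m * KK β V (φ m) τ) ^ 2) / (4 * κ) ≤
      KK β V (fun S => ∑ l, (KK β V₀ (φ l) S) ^ 2) τ := by
  set f0 : Λ → Conf N L → ℝ := fun l => KK β V₀ (φ l) with hf0
  set f1 : Λ → ℝ := fun l => KK β V (φ l) τ with hf1
  set g : Fin N → Fin N → Λ → ℝ := fun p k l => ∑ m, D p k l m * KK β V (φ m) τ with hg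
  have hf0c : ∀ l, Continuous (f0 l) := fun l => continuous_KK hN β V₀ (hφ l)
  have hHc : ∀ b : Fin N → Fin N → ℝ, Continuous (Hb a b : Conf N L → ℝ) := s2_cont_Hb a
  have htow : ∀ l, KK β V (f0 l) τ = f1 l := fun l => KK_tower hN β hV (hφ l) τ
  -- the formula for `g`
  have hgf : ∀ p k l, g p k l = - (β * KK β V (fun S => (f0 l S - f1 l) * Hb a (gen p k) S) τ) := by
    intro p k l
    have h1 := hD p k l
    have h2 : KK β V (fun S => φ l S * Hb a (gen p k) S) τ =
        KK β V (fun S => (f0 l S - f1 l) * Hb a (gen p k) S) τ := by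
      have e1 : KK β V (fun S => φ l S * Hb a (gen p k) S) τ =
          KK β V (KK β V₀ (fun S => Hb a (gen p k) S * φ l S)) τ := by
        have c1 : Continuous (fun S : Conf N L => Hb a (gen p k) S * φ l S) :=
          (hHc _).mul (hφ l)
        rw [KK_tower hN β hV c1]
        refine congrArg (fun F => KK β V F τ) (funext fun S => ?_)
        ring
      have e2 : KK β V₀ (fun S => Hb a (gen p k) S * φ l S) =
          fun S => f0 l S * Hb a (gen p k) S := by
        funext S
        rw [KK_mul_off β V₀ (Hb a (gen p k)) (φ l) (s2_Off_Hb a ha1 _) S, mul_comm]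
      have e3 : KK β V (fun S => (f0 l S - f1 l) * Hb a (gen p k) S) τ =
          KK β V (fun S => f0 l S * Hb a (gen p k) S) τ := by
        have e4 : (fun S => (f0 l S - f1 l) * Hb a (gen p k) S) =
            fun S : Conf N L => f0 l S * Hb a (gen p k) S - f1 l * Hb a (gen p k) S := by
          funext S
          ring
        have c1 : Continuous (fun S : Conf N L => f0 l S * Hb a (gen p k) S) :=
          (hf0c l).mul (hHc _)
        have c2 : Continuous (fun S : Conf N L => f1 l * Hb a (gen p k) S) :=
          continuous_const.mul (hHc _)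
        have e5 : KK β V (fun S : Conf N L => f1 l * Hb a (gen p k) S) τ = 0 := by
          rw [KK_const_mul, KK_Hb_zero hN β hβ.ne' V a ha (s2_anti_gen p k) τ, mul_zero]
        rw [e4, KK_sub β V c1 c2, e5, sub_zero]
      rw [e1, e2, e3]
    rw [← h2]
    linarith
  -- antisymmetry of `g`
  have hganti : ∀ p k l, g k p l = - g p k l := by
    intro p k l
    rw [hgf, hgf, neg_neg]
    have e : (fun S : Conf N L => (f0 l S - f1 l) * Hb a (gen k p) S) =
        fun S => (-1) * ((f0 l S - f1 l) * Hb a (gen p k) S) := by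
      funext S
      have e1 : Hb a (gen k p) S = - Hb a (gen p k) S := by
        rw [s2_gen_swap p k]
        unfold Hb esum
        rw [← Finset.sum_neg_distrib]
        apply Finset.sum_congr rfl
        intro y _
        simp only [mul_neg, neg_mul, Finset.sum_neg_distrib]
        ring
      rw [e1]
      ring
    rw [e, KK_const_mul]
    ring
  set b : Λ → Fin N → Fin N → ℝ := fun l i j => g j i l - g i j l with hb
  have hbanti : ∀ l, Anti (b l) := by
    intro l i j
    simp only [hb]
    ring
  have hbsq : ∀ l, ∑ i, ∑ j, b l i j ^ 2 = 4 * ∑ i, ∑ j, g i j l ^ 2 := by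
    intro l
    rw [Finset.mul_sum]
    apply Finset.sum_congr rfl
    intro i _
    rw [Finset.mul_sum]
    apply Finset.sum_congr rfl
    intro j _
    simp only [hb]
    rw [hganti i j l]
    ring
  set A : ℝ := ∑ p, ∑ k, ∑ l, g p k l ^ 2 with hA
  set X : ℝ := KK β V (fun S => ∑ l, (f0 l S - f1 l) ^ 2) τ with hX
  have hsubc : ∀ l, Continuous (fun S => f0 l S - f1 l) := fun l => (hf0c l).sub continuous_const
  have hA2 : A = ∑ l, ∑ p, ∑ k, g p k l ^ 2 := by
    rw [hA]
    rw [Finset.sum_congr rfl fun p _ => Finset.sum_comm, Finset.sum_comm]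
  have hAf : A = - (β * KK β V (fun S => ∑ l, (f0 l S - f1 l) * Hb a (b l) S) τ) := by
    have e1 : ∀ l, ∑ p, ∑ k, g p k l ^ 2 =
        - (β * KK β V (fun S => (f0 l S - f1 l) * Hb a (b l) S) τ) := by
      intro l
      have e2 : (fun S : Conf N L => (f0 l S - f1 l) * Hb a (b l) S) =
          fun S => ∑ p, ∑ k, g p k l * ((f0 l S - f1 l) * Hb a (gen p k) S) := by
        funext S
        have e3 := s2_Hb_sum a (fun p k => g p k l) S
        have e4 : Hb a (b l) S = ∑ p, ∑ k, g p k l * Hb a (gen p k) S := e3.symm
        rw [e4, Finset.mul_sum]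
        apply Finset.sum_congr rfl
        intro p _
        rw [Finset.mul_sum]
        apply Finset.sum_congr rfl
        intro k _
        ring
      have cG : ∀ p k, Continuous (fun S : Conf N L =>
          g p k l * ((f0 l S - f1 l) * Hb a (gen p k) S)) :=
        fun p k => continuous_const.mul ((hsubc l).mul (hHc _))
      have cGs : ∀ p, Continuous (fun S : Conf N L =>
          ∑ k, g p k l * ((f0 l S - f1 l) * Hb a (gen p k) S)) :=
        fun p => continuous_finsetSum _ fun k _ => cG p k
      rw [e2, KK_sum β V Finset.univ (fun p _ => cGs p), Finset.mul_sum,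
        ← Finset.sum_neg_distrib]
      apply Finset.sum_congr rfl
      intro p _
      rw [KK_sum β V Finset.univ (fun k _ => cG p k), Finset.mul_sum, ← Finset.sum_neg_distrib]
      apply Finset.sum_congr rfl
      intro k _
      rw [KK_const_mul, pow_two]
      nth_rewrite 2 [hgf p k l]
      ring
    have cB : ∀ l, Continuous (fun S : Conf N L => (f0 l S - f1 l) * Hb a (b l) S) :=
      fun l => (hsubc l).mul (hHc _)
    rw [hA2, KK_sum β V Finset.univ (fun l _ => cB l), Finset.mul_sum,
      ← Finset.sum_neg_distrib]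
    exact Finset.sum_congr rfl fun l _ => e1 l
  have hA0 : 0 ≤ A := Finset.sum_nonneg fun p _ => Finset.sum_nonneg fun k _ =>
    Finset.sum_nonneg fun l _ => sq_nonneg _
  have hX0 : 0 ≤ X := by
    have h := KK_mono hN β V (φ := fun _ => 0) continuous_const
      (continuous_finsetSum Finset.univ fun l _ => (hsubc l).pow 2)
      (fun S => Finset.sum_nonneg fun l _ => sq_nonneg _) τ
    rw [KK_const hN] at h
    exact h
  have hcs := KK_cs hN β V (Finset.univ : Finset Λ) (φ := fun l S => f0 l S - f1 l)
    (ψ := fun l => Hb a (b l)) (fun l _ => hsubc l) (fun l _ => hHc (b l)) τ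
  have hsq : β ^ 2 * KK β V (fun S => ∑ l, Hb a (b l) S ^ 2) τ ≤ 4 * κ * A := by
    have cH : ∀ l, Continuous (fun S : Conf N L => Hb a (b l) S ^ 2) :=
      fun l => (hHc (b l)).pow 2
    rw [KK_sum β V Finset.univ (fun l _ => cH l), Finset.mul_sum, hA2, Finset.mul_sum]
    apply Finset.sum_le_sum
    intro l _
    refine (hquad (b l) (hbanti l) τ).trans (le_of_eq ?_)
    rw [hbsq]
    ring
  have hmain : A ≤ 4 * κ * X := by
    have h1 : A ^ 2 ≤ X * (4 * κ * A) := by
      calc A ^ 2 = β ^ 2 * (KK β V (fun S => ∑ l, (f0 l S - f1 l) * Hb a (b l) S) τ) ^ 2 := by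
            rw [hAf]
            ring
        _ ≤ β ^ 2 * (X * KK β V (fun S => ∑ l, Hb a (b l) S ^ 2) τ) :=
            mul_le_mul_of_nonneg_left hcs (by positivity)
        _ = X * (β ^ 2 * KK β V (fun S => ∑ l, Hb a (b l) S ^ 2) τ) := by ring
        _ ≤ X * (4 * κ * A) := mul_le_mul_of_nonneg_left hsq hX0
    rcases hA0.eq_or_lt with h0 | h0
    · rw [← h0]
      positivity
    · have h2 : A * A ≤ A * (4 * κ * X) := by nlinarith
      exact le_of_mul_le_mul_left h2 h0
  have hXe : X = KK β V (fun S => ∑ l, f0 l S ^ 2) τ - ∑ l, f1 l ^ 2 := by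
    have e1 : (fun S : Conf N L => ∑ l, (f0 l S - f1 l) ^ 2) =
        fun S => (∑ l, f0 l S ^ 2) - ∑ l, (2 * f1 l * f0 l S - f1 l ^ 2) := by
      funext S
      rw [← Finset.sum_sub_distrib]
      apply Finset.sum_congr rfl
      intro l _
      ring
    have c1 : Continuous (fun S : Conf N L => ∑ l, f0 l S ^ 2) :=
      continuous_finsetSum _ fun l _ => (hf0c l).pow 2
    have c2 : ∀ l, Continuous (fun S : Conf N L => 2 * f1 l * f0 l S) :=
      fun l => continuous_const.mul (hf0c l)
    have c3 : ∀ l, Continuous (fun S : Conf N L => 2 * f1 l * f0 l S - f1 l ^ 2) :=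
      fun l => (c2 l).sub continuous_const
    have c4 : Continuous (fun S : Conf N L => ∑ l, (2 * f1 l * f0 l S - f1 l ^ 2)) :=
      continuous_finsetSum _ fun l _ => c3 l
    have c5 : ∀ l, Continuous (fun _ : Conf N L => f1 l ^ 2) := fun l => continuous_const
    rw [hX, e1, KK_sub β V c1 c4, KK_sum β V Finset.univ (fun l _ => c3 l)]
    congr 1
    apply Finset.sum_congr rfl
    intro l _
    rw [KK_sub β V (c2 l) (c5 l), KK_const_mul, KK_const hN, htow]
    ring
  have hdiv : A / (4 * κ) ≤ X := by
    rw [div_le_iff₀ (by positivity)]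
    linarith
  have goal : ∑ l, f1 l ^ 2 + A / (4 * κ) ≤ KK β V (fun S => ∑ l, f0 l S ^ 2) τ := by
    linarith
  exact goal

end Pool.Agent.H716R2.ON
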