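import Mathlib
import Pool.Agent.H716R2.ON.Base
import Pool.Agent.H716R2.ON.Ker1
import Pool.Agent.H716R2.ON.IBP2
import Pool.Agent.H716R2.ON.Cas
import Pool.Agent.H716R2.ON.Step2

/-!
# Task S3: the contraction step for the spin, the traceless part and the current
-/

set_option autoImplicit false

noncomputable section

namespace Pool.Agent.H716R2.ON

open MeasureTheory Pool.Agent.H5R2.ON

variable {N L : ℕ} [NeZero L]

omit [NeZero L] in
theorem s3_anti_gen (p k : Fin N) : Anti (gen p k) := by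
  intro i j
  simp only [gen]
  have h1 : (i = k ∧ j = p) ↔ (j = p ∧ i = k) := and_comm
  have h2 : (i = p ∧ j = k) ↔ (j = k ∧ i = p) := and_comm
  simp only [h1, h2]
  ring

theorem s3_cont_Hb (a : Tor L → ℝ) (b : Fin N → Fin N → ℝ) :
    Continuous fun S : Conf N L => Hb a b S := by
  unfold Hb esum
  refine continuous_finsetSum _ fun z _ => ?_
  have h : ∀ y z : Tor L, Continuous fun S : Conf N L =>
      (a z - a y) * ∑ i, ∑ j, co S y i * b i j * co S z j := fun y z =>
    continuous_const.mul (continuous_finsetSum _ fun i _ => continuous_finsetSum _ fun j _ =>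
      ((continuous_co y i).mul continuous_const).mul (continuous_co z j))
  exact (h z _).add (h z _)

omit [NeZero L] in
theorem s3_cont_cc (y z : Tor L) (i j : Fin N) :
    Continuous fun S : Conf N L => co S y i * co S z j :=
  (continuous_co y i).mul (continuous_co z j)

omit [NeZero L] in
theorem s3_cont_Mat0 (y z : Tor L) (i j : Fin N) : Continuous (Mat0 (N := N) (L := L) y z i j) := by
  unfold Mat0
  refine (s3_cont_cc y z i j).sub ?_
  split_ifs
  · exact (continuous_finsetSum _ fun m _ => s3_cont_cc y z m m).div_const _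
  · exact continuous_const

omit [NeZero L] in
theorem s3_cont_Asy (y z : Tor L) (i j : Fin N) : Continuous (Asy (N := N) (L := L) y z i j) := by
  unfold Asy
  exact (s3_cont_cc y z i j).sub (s3_cont_cc y z j i)

theorem s3_sumc (β : ℝ) (V : Finset (Tor L)) (c : Fin N → ℝ) (φ : Fin N → Conf N L → ℝ)
    (hφ : ∀ m, Continuous (φ m)) (τ : Conf N L) :
    KK β V (fun S => ∑ m, c m * φ m S) τ = ∑ m, c m * KK β V (φ m) τ := by
  rw [KK_sum β V Finset.univ (φ := fun m S => c m * φ m S)
    (fun m _ => continuous_const.mul (hφ m)) τ]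
  exact Finset.sum_congr rfl fun m _ => KK_const_mul β V (c m) (φ m) τ

/-- upper bound of the right side of `step` -/
theorem s3_le (hN : N ≠ 0) {β M : ℝ} {V₀ V : Finset (Tor L)} {Λ : Type} [Fintype Λ]
    (φ : Λ → Conf N L → ℝ) (hφ : ∀ l, Continuous (φ l))
    (hM : ∀ τ : Conf N L, ∑ l, (KK β V₀ (φ l) τ) ^ 2 ≤ M) (τ : Conf N L) :
    KK β V (fun S => ∑ l, (KK β V₀ (φ l) S) ^ 2) τ ≤ M := by
  have h1 : Continuous fun S : Conf N L => ∑ l, (KK β V₀ (φ l) S) ^ 2 :=
    continuous_finsetSum _ fun l _ => (continuous_KK hN β V₀ (hφ l)).pow 2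
  calc KK β V (fun S => ∑ l, (KK β V₀ (φ l) S) ^ 2) τ ≤ KK β V (fun _ => M) τ :=
        KK_mono hN β V h1 continuous_const hM τ
    _ = M := KK_const hN β V M τ

/-- vector case -/
theorem step_vec (hN : N ≠ 0) {β κ M : ℝ} (hβ : 0 < β) (hκ : 0 < κ) {V₀ V : Finset (Tor L)}
    (hV : V₀ ⊆ V) (a : Tor L → ℝ) (ha : ∀ x ∉ V, a x = 0)
    (ha1 : ∀ y z : Tor L, (z = y + (1, 0) ∨ z = y + (0, 1)) → (y ∈ V₀ ∨ z ∈ V₀) → a z = a y)
    (hquad : ∀ b : Fin N → Fin N → ℝ, Anti b → ∀ τ : Conf N L,
      β ^ 2 * KK β V (fun S => Hb a b S ^ 2) τ ≤ κ * ∑ i, ∑ j, b i j ^ 2)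
    (x : Tor L) (hx : a x = 1)
    (hM : ∀ τ : Conf N L, ∑ i, (KK β V₀ (fun S => co S x i) τ) ^ 2 ≤ M) (τ : Conf N L) :
    (∑ i, (KK β V (fun S => co S x i) τ) ^ 2) * (1 + ((N : ℝ) - 1) / (2 * κ)) ≤ M := by
  have h1 := step hN hβ hκ hV a ha ha1 hquad (fun (i : Fin N) (S : Conf N L) => co S x i)
    (fun i => continuous_co x i) (fun p k i j => gen p k i j) τ (by
      intro p k i
      have h2 := ibp_one hN β V a ha (s3_anti_gen p k) x i τ
      simp only [hx, one_mul] at h2
      rw [s3_sumc β V (gen p k i) (fun j (S : Conf N L) => co S x j) (fun j => continuous_co x j) τ]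
        at h2
      exact h2)
  have h3 := s3_le (V := V) hN (fun (i : Fin N) (S : Conf N L) => co S x i)
    (fun i => continuous_co x i) hM τ
  rw [cas_vec] at h1
  have h4 := h1.trans h3
  have h5 : (∑ i, (KK β V (fun S => co S x i) τ) ^ 2) * (1 + ((N : ℝ) - 1) / (2 * κ)) =
      ∑ i, (KK β V (fun S => co S x i) τ) ^ 2 +
        2 * ((N : ℝ) - 1) * (∑ i, (KK β V (fun S => co S x i) τ) ^ 2) / (4 * κ) := by
    field_simp
    ring
  rw [h5]
  exact h4

/-- the integration by parts for the matrix `S_y ⊗ S_z` -/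
theorem s3_two (hN : N ≠ 0) {β : ℝ} {V : Finset (Tor L)} (a : Tor L → ℝ)
    (ha : ∀ x ∉ V, a x = 0) (y z : Tor L) (hy : a y = 1) (hz : a z = 1)
    {b : Fin N → Fin N → ℝ} (hb : Anti b) (i j : Fin N) (τ : Conf N L) :
    ∑ m, b i m * KK β V (fun S => co S y m * co S z j) τ +
      ∑ m, b j m * KK β V (fun S => co S y i * co S z m) τ +
      β * KK β V (fun S => co S y i * co S z j * Hb a b S) τ = 0 := by
  have h := ibp_two hN β V a ha hb y z i j τ
  simp only [hy, hz, one_mul] at h
  have e1 : KK β V (fun S => (∑ m, b i m * co S y m) * co S z j +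
        co S y i * ∑ m, b j m * co S z m) τ =
      ∑ m, b i m * KK β V (fun S => co S y m * co S z j) τ +
      ∑ m, b j m * KK β V (fun S => co S y i * co S z m) τ := by
    have e2 : (fun S : Conf N L => (∑ m, b i m * co S y m) * co S z j +
        co S y i * ∑ m, b j m * co S z m) =
        fun S => (∑ m, b i m * (co S y m * co S z j)) + ∑ m, b j m * (co S y i * co S z m) := by
      funext S
      rw [Finset.sum_mul, Finset.mul_sum]
      congr 1
      · exact Finset.sum_congr rfl fun m _ => by ring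
      · exact Finset.sum_congr rfl fun m _ => by ring
    rw [e2, KK_add β V (φ := fun S => ∑ m, b i m * (co S y m * co S z j))
      (ψ := fun S => ∑ m, b j m * (co S y i * co S z m))
      (continuous_finsetSum _ fun m _ => continuous_const.mul (s3_cont_cc y z m j))
      (continuous_finsetSum _ fun m _ => continuous_const.mul (s3_cont_cc y z i m)) τ,
      s3_sumc β V (b i) (fun m (S : Conf N L) => co S y m * co S z j)
        (fun m => s3_cont_cc y z m j) τ,
      s3_sumc β V (b j) (fun m (S : Conf N L) => co S y i * co S z m)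
        (fun m => s3_cont_cc y z i m) τ]
  rw [e1] at h
  exact h

/-- the sum over pairs of the action of a rotation -/
theorem s3_sum (p k i j : Fin N) (f : Fin N → Fin N → ℝ) :
    ∑ mn : Fin N × Fin N, (gen p k i mn.1 * (if mn.2 = j then 1 else 0) +
      gen p k j mn.2 * (if mn.1 = i then 1 else 0)) * f mn.1 mn.2 =
      ∑ m, gen p k i m * f m j + ∑ m, gen p k j m * f i m := by
  rw [Fintype.sum_prod_type]
  simp only [add_mul, Finset.sum_add_distrib]
  congr 1
  · refine Finset.sum_congr rfl fun m _ => ?_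
    rw [Finset.sum_eq_single j]
    · simp
    · intro n _ hn
      simp [hn]
    · simp
  · rw [Finset.sum_comm]
    refine Finset.sum_congr rfl fun n _ => ?_
    rw [Finset.sum_eq_single i]
    · simp
    · intro m _ hm
      simp [hm]
    · simp

/-- matrix case, traceless part of `S_y ⊗ S_z` -/
theorem step_mat (hN : N ≠ 0) {β κ M : ℝ} (hβ : 0 < β) (hκ : 0 < κ) {V₀ V : Finset (Tor L)}
    (hV : V₀ ⊆ V) (a : Tor L → ℝ) (ha : ∀ x ∉ V, a x = 0)
    (ha1 : ∀ y z : Tor L, (z = y + (1, 0) ∨ z = y + (0, 1)) → (y ∈ V₀ ∨ z ∈ V₀) → a z = a y)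
    (hquad : ∀ b : Fin N → Fin N → ℝ, Anti b → ∀ τ : Conf N L,
      β ^ 2 * KK β V (fun S => Hb a b S ^ 2) τ ≤ κ * ∑ i, ∑ j, b i j ^ 2)
    (y z : Tor L) (hy : a y = 1) (hz : a z = 1)
    (hM : ∀ τ : Conf N L, ∑ i, ∑ j, (KK β V₀ (Mat0 y z i j) τ) ^ 2 ≤ M) (τ : Conf N L) :
    (∑ i, ∑ j, (KK β V (Mat0 y z i j) τ) ^ 2) * (1 + ((N : ℝ) - 2) / κ) ≤ M := by
  have hN' : (N : ℝ) ≠ 0 := Nat.cast_ne_zero.2 hN
  -- the conditional expectations
  set g : Fin N → Fin N → ℝ := fun i j => KK β V (fun S => co S y i * co S z j) τ with hg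
  set f : Fin N → Fin N → ℝ := fun i j => KK β V (Mat0 y z i j) τ with hf
  have hT : KK β V (fun S => ∑ m, co S y m * co S z m) τ = ∑ m, g m m :=
    KK_sum β V Finset.univ (fun m _ => s3_cont_cc y z m m) τ
  have hfg : ∀ i j, f i j = g i j - (if i = j then (∑ m, g m m) / N else 0) := by
    intro i j
    have e : Mat0 (N := N) (L := L) y z i j = fun S => co S y i * co S z j -
        (if i = j then 1 / (N : ℝ) else 0) * ∑ m, co S y m * co S z m := by
      funext S
      unfold Mat0
      split_ifs <;> ring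
    simp only [hf]
    rw [e, KK_sub β V (φ := fun S => co S y i * co S z j)
      (ψ := fun S => (if i = j then 1 / (N : ℝ) else 0) * ∑ m, co S y m * co S z m)
      (s3_cont_cc y z i j)
      (continuous_const.mul (continuous_finsetSum _ fun m _ => s3_cont_cc y z m m)) τ,
      KK_const_mul, hT]
    split_ifs
    · ring
    · ring
  have htr : ∑ i, f i i = 0 := by
    simp only [hfg, if_true, Finset.sum_sub_distrib, Finset.sum_const, Finset.card_univ,
      Fintype.card_fin, nsmul_eq_mul]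
    field_simp
    ring
  have hD : ∀ p k : Fin N, ∀ i j : Fin N, ∑ m, gen p k i m * f m j + ∑ m, gen p k j m * f i m +
      β * KK β V (fun S => Mat0 y z i j S * Hb a (gen p k) S) τ = 0 := by
    intro p k i j
    have hb := s3_anti_gen (N := N) p k
    have h1 := s3_two (β := β) hN a ha y z hy hz hb
    have hsum : β * KK β V (fun S => (∑ m, co S y m * co S z m) * Hb a (gen p k) S) τ = 0 := by
      have e : (fun S : Conf N L => (∑ m, co S y m * co S z m) * Hb a (gen p k) S) =
          fun S => ∑ m, co S y m * co S z m * Hb a (gen p k) S := by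
        funext S
        rw [Finset.sum_mul]
      rw [e, KK_sum β V Finset.univ (φ := fun m S => co S y m * co S z m * Hb a (gen p k) S)
        (fun m _ => (s3_cont_cc y z m m).mul (s3_cont_Hb a (gen p k))) τ, Finset.mul_sum]
      have e2 : ∀ m, β * KK β V (fun S => co S y m * co S z m * Hb a (gen p k) S) τ =
          -(∑ n, gen p k m n * g n m) - ∑ n, gen p k m n * g m n := by
        intro m
        have := h1 m m τ
        simp only [hg]
        linarith
      rw [Finset.sum_congr rfl fun m _ => e2 m, Finset.sum_sub_distrib, Finset.sum_neg_distrib]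
      have e3 : ∑ m, ∑ n, gen p k m n * g n m = -∑ m, ∑ n, gen p k m n * g m n := by
        rw [Finset.sum_comm, ← Finset.sum_neg_distrib]
        refine Finset.sum_congr rfl fun m _ => ?_
        rw [← Finset.sum_neg_distrib]
        refine Finset.sum_congr rfl fun n _ => ?_
        rw [hb n m]
        ring
      rw [e3]
      ring
    have e4 : β * KK β V (fun S => Mat0 y z i j S * Hb a (gen p k) S) τ =
        β * KK β V (fun S => co S y i * co S z j * Hb a (gen p k) S) τ := by
      have e : (fun S : Conf N L => Mat0 y z i j S * Hb a (gen p k) S) = fun S =>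
          co S y i * co S z j * Hb a (gen p k) S - (if i = j then 1 / (N : ℝ) else 0) *
            ((∑ m, co S y m * co S z m) * Hb a (gen p k) S) := by
        funext S
        unfold Mat0
        split_ifs <;> ring
      rw [e, KK_sub β V (φ := fun S => co S y i * co S z j * Hb a (gen p k) S)
        (ψ := fun S => (if i = j then 1 / (N : ℝ) else 0) *
            ((∑ m, co S y m * co S z m) * Hb a (gen p k) S))
        ((s3_cont_cc y z i j).mul (s3_cont_Hb a (gen p k)))
        (continuous_const.mul ((continuous_finsetSum _ fun m _ => s3_cont_cc y z m m).mul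
          (s3_cont_Hb a (gen p k)))) τ, KK_const_mul, mul_sub, mul_left_comm β, hsum]
      ring
    have e5 : ∑ m, gen p k i m * f m j + ∑ m, gen p k j m * f i m =
        ∑ m, gen p k i m * g m j + ∑ m, gen p k j m * g i m := by
      have e6 : ∑ m, gen p k i m * f m j = ∑ m, gen p k i m * g m j -
          gen p k i j * ((∑ m, g m m) / N) := by
        simp only [hfg, mul_sub, Finset.sum_sub_distrib]
        congr 1
        rw [Finset.sum_eq_single j]
        · simp
        · intro m _ hm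
          simp [hm]
        · simp
      have e7 : ∑ m, gen p k j m * f i m = ∑ m, gen p k j m * g i m -
          gen p k j i * ((∑ m, g m m) / N) := by
        simp only [hfg, mul_sub, Finset.sum_sub_distrib]
        congr 1
        rw [Finset.sum_eq_single i]
        · simp
        · intro m _ hm
          simp [Ne.symm hm]
        · simp
      rw [e6, e7, hb i j]
      ring
    rw [e4, e5]
    exact h1 i j τ
  have h1 := step hN hβ hκ hV a ha ha1 hquad
    (fun (l : Fin N × Fin N) => Mat0 (N := N) (L := L) y z l.1 l.2)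
    (fun l => s3_cont_Mat0 y z l.1 l.2)
    (fun p k l m => gen p k l.1 m.1 * (if m.2 = l.2 then 1 else 0) +
      gen p k l.2 m.2 * (if m.1 = l.1 then 1 else 0)) τ (by
      intro p k l
      rw [s3_sum p k l.1 l.2 f]
      exact hD p k l.1 l.2)
  have h3 := s3_le (V := V) (β := β) (V₀ := V₀) (M := M) hN
    (fun (l : Fin N × Fin N) => Mat0 (N := N) (L := L) y z l.1 l.2)
    (fun l => s3_cont_Mat0 y z l.1 l.2) (fun τ => by
      rw [Fintype.sum_prod_type]
      exact hM τ) τ
  have h4 := h1.trans h3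
  have e8 : ∑ p, ∑ k, ∑ l : Fin N × Fin N, (∑ m : Fin N × Fin N,
      (gen p k l.1 m.1 * (if m.2 = l.2 then 1 else 0) +
        gen p k l.2 m.2 * (if m.1 = l.1 then 1 else 0)) * KK β V (Mat0 y z m.1 m.2) τ) ^ 2 =
      ∑ p, ∑ k, ∑ i, ∑ j, (∑ m, gen p k i m * f m j + ∑ m, gen p k j m * f i m) ^ 2 := by
    refine Finset.sum_congr rfl fun p _ => Finset.sum_congr rfl fun k _ => ?_
    rw [Fintype.sum_prod_type]
    refine Finset.sum_congr rfl fun i _ => Finset.sum_congr rfl fun j _ => ?_
    rw [s3_sum p k i j f]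
  rw [e8] at h4
  have h5 := cas_mat_ge f htr
  have e9 : ∑ l : Fin N × Fin N, (KK β V (Mat0 y z l.1 l.2) τ) ^ 2 = ∑ i, ∑ j, f i j ^ 2 := by
    rw [Fintype.sum_prod_type]
  rw [e9] at h4
  have h6 : 4 * ((N : ℝ) - 2) * (∑ i, ∑ j, f i j ^ 2) / (4 * κ) ≤
      (∑ p, ∑ k, ∑ i, ∑ j, (∑ m, gen p k i m * f m j + ∑ m, gen p k j m * f i m) ^ 2) /
        (4 * κ) := div_le_div_of_nonneg_right h5 (by positivity)
  have h7 : (∑ i, ∑ j, f i j ^ 2) * (1 + ((N : ℝ) - 2) / κ) = (∑ i, ∑ j, f i j ^ 2) +
      4 * ((N : ℝ) - 2) * (∑ i, ∑ j, f i j ^ 2) / (4 * κ) := by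
    field_simp
  rw [h7]
  linarith

/-- matrix case, antisymmetric part of `S_y ⊗ S_z` -/
theorem step_asy (hN : N ≠ 0) {β κ M : ℝ} (hβ : 0 < β) (hκ : 0 < κ) {V₀ V : Finset (Tor L)}
    (hV : V₀ ⊆ V) (a : Tor L → ℝ) (ha : ∀ x ∉ V, a x = 0)
    (ha1 : ∀ y z : Tor L, (z = y + (1, 0) ∨ z = y + (0, 1)) → (y ∈ V₀ ∨ z ∈ V₀) → a z = a y)
    (hquad : ∀ b : Fin N → Fin N → ℝ, Anti b → ∀ τ : Conf N L,
      β ^ 2 * KK β V (fun S => Hb a b S ^ 2) τ ≤ κ * ∑ i, ∑ j, b i j ^ 2)
    (y z : Tor L) (hy : a y = 1) (hz : a z = 1)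
    (hM : ∀ τ : Conf N L, ∑ i, ∑ j, (KK β V₀ (Asy y z i j) τ) ^ 2 ≤ M) (τ : Conf N L) :
    (∑ i, ∑ j, (KK β V (Asy y z i j) τ) ^ 2) * (1 + ((N : ℝ) - 2) / κ) ≤ M := by
  set g : Fin N → Fin N → ℝ := fun i j => KK β V (fun S => co S y i * co S z j) τ with hg
  set f : Fin N → Fin N → ℝ := fun i j => KK β V (Asy y z i j) τ with hf
  have hfg : ∀ i j, f i j = g i j - g j i := by
    intro i j
    simp only [hf, hg]
    exact KK_sub β V (s3_cont_cc y z i j) (s3_cont_cc y z j i) τ
  have hD : ∀ p k : Fin N, ∀ i j : Fin N, ∑ m, gen p k i m * f m j + ∑ m, gen p k j m * f i m +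
      β * KK β V (fun S => Asy y z i j S * Hb a (gen p k) S) τ = 0 := by
    intro p k i j
    have h1 := s3_two (β := β) hN a ha y z hy hz (s3_anti_gen (N := N) p k)
    have e4 : KK β V (fun S => Asy y z i j S * Hb a (gen p k) S) τ =
        KK β V (fun S => co S y i * co S z j * Hb a (gen p k) S) τ -
        KK β V (fun S => co S y j * co S z i * Hb a (gen p k) S) τ := by
      have e : (fun S : Conf N L => Asy y z i j S * Hb a (gen p k) S) = fun S =>
          co S y i * co S z j * Hb a (gen p k) S - co S y j * co S z i * Hb a (gen p k) S := by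
        funext S
        unfold Asy
        ring
      rw [e, KK_sub β V (φ := fun S => co S y i * co S z j * Hb a (gen p k) S)
        (ψ := fun S => co S y j * co S z i * Hb a (gen p k) S)
        ((s3_cont_cc y z i j).mul (s3_cont_Hb a (gen p k)))
        ((s3_cont_cc y z j i).mul (s3_cont_Hb a (gen p k))) τ]
    have h2 := h1 i j τ
    have h3 := h1 j i τ
    have e5 : ∑ m, gen p k i m * f m j = ∑ m, gen p k i m * g m j - ∑ m, gen p k i m * g j m := by
      simp only [hfg, mul_sub, Finset.sum_sub_distrib]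
    have e6 : ∑ m, gen p k j m * f i m = ∑ m, gen p k j m * g i m - ∑ m, gen p k j m * g m i := by
      simp only [hfg, mul_sub, Finset.sum_sub_distrib]
    rw [e4, e5, e6]
    simp only [hg]
    linear_combination h2 - h3
  have h1 := step hN hβ hκ hV a ha ha1 hquad
    (fun (l : Fin N × Fin N) => Asy (N := N) (L := L) y z l.1 l.2)
    (fun l => s3_cont_Asy y z l.1 l.2)
    (fun p k l m => gen p k l.1 m.1 * (if m.2 = l.2 then 1 else 0) +
      gen p k l.2 m.2 * (if m.1 = l.1 then 1 else 0)) τ (by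
      intro p k l
      rw [s3_sum p k l.1 l.2 f]
      exact hD p k l.1 l.2)
  have h3 := s3_le (V := V) (β := β) (V₀ := V₀) (M := M) hN
    (fun (l : Fin N × Fin N) => Asy (N := N) (L := L) y z l.1 l.2)
    (fun l => s3_cont_Asy y z l.1 l.2) (fun τ => by
      rw [Fintype.sum_prod_type]
      exact hM τ) τ
  have h4 := h1.trans h3
  have e8 : ∑ p, ∑ k, ∑ l : Fin N × Fin N, (∑ m : Fin N × Fin N,
      (gen p k l.1 m.1 * (if m.2 = l.2 then 1 else 0) +
        gen p k l.2 m.2 * (if m.1 = l.1 then 1 else 0)) * KK β V (Asy y z m.1 m.2) τ) ^ 2 =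
      ∑ p, ∑ k, ∑ i, ∑ j, (∑ m, gen p k i m * f m j + ∑ m, gen p k j m * f i m) ^ 2 := by
    refine Finset.sum_congr rfl fun p _ => Finset.sum_congr rfl fun k _ => ?_
    rw [Fintype.sum_prod_type]
    refine Finset.sum_congr rfl fun i _ => Finset.sum_congr rfl fun j _ => ?_
    rw [s3_sum p k i j f]
  rw [e8, cas_mat] at h4
  have e9 : ∑ l : Fin N × Fin N, (KK β V (Asy y z l.1 l.2) τ) ^ 2 = ∑ i, ∑ j, f i j ^ 2 := by
    rw [Fintype.sum_prod_type]
  have e10 : ∑ i, f i i = 0 := Finset.sum_eq_zero fun i _ => by rw [hfg]; ring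
  have e11 : ∑ i, ∑ j, f i j * f j i = -∑ i, ∑ j, f i j ^ 2 := by
    rw [← Finset.sum_neg_distrib]
    refine Finset.sum_congr rfl fun i _ => ?_
    rw [← Finset.sum_neg_distrib]
    refine Finset.sum_congr rfl fun j _ => ?_
    rw [hfg i j, hfg j i]
    ring
  rw [e9, e10, e11] at h4
  have h7 : (∑ i, ∑ j, f i j ^ 2) * (1 + ((N : ℝ) - 2) / κ) = (∑ i, ∑ j, f i j ^ 2) +
      (4 * ((N : ℝ) - 1) * (∑ i, ∑ j, f i j ^ 2) - 4 * (0 : ℝ) ^ 2 +
        4 * (-∑ i, ∑ j, f i j ^ 2)) / (4 * κ) := by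
    field_simp
    ring
  rw [h7]
  exact h4

end Pool.Agent.H716R2.ON
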