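import Mathlib
import Pool.Agent.H716R2.ON.Base
import Pool.Agent.H716R2.ON.Ker1
import Pool.Agent.H716R2.ON.Ker2
import Pool.Agent.H716R2.ON.IBP2
import Pool.Agent.H716R2.ON.Cas
import Pool.Agent.H716R2.ON.Step1
import Pool.Agent.H716R2.ON.Step2
import Pool.Agent.H716R2.ON.Step3
import Pool.Agent.H716R2.ON.Flux
import Pool.Agent.H716R2.ON.Energy
import Pool.Agent.H716R2.ON.Iter
import Pool.Agent.H716R2.ON.Rec
import Pool.Agent.H716R2.ON.Box
import Pool.Agent.H5R2.ON.Dist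
import Pool.Agent.H5R2.ON.Disc

/-!
# Power law decay of conditional expectations (iteration over annuli)
-/

set_option autoImplicit false

noncomputable section

namespace Pool.Agent.H716R2.ON

open MeasureTheory Pool.Agent.H5R2.ON

/-! ### geometry of discs -/

section geo

variable {L : ℕ} [NeZero L]

theorem mem_disc {c z : Tor L} {r : ℝ} : z ∈ disc c r ↔ tnorm (z - c) ≤ r := by
  simp [disc]

theorem disc_mono (c : Tor L) {r s : ℝ} (h : r ≤ s) : disc c r ⊆ disc c s := by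
  intro z hz
  rw [mem_disc] at hz ⊢
  exact hz.trans h

theorem disc_trans (c y : Tor L) {s r : ℝ} (h : tnorm (y - c) + s ≤ r) : disc y s ⊆ disc c r := by
  intro z hz
  rw [mem_disc] at hz ⊢
  have h1 := tnorm_add_le (z - y) (y - c)
  rw [sub_add_sub_cancel] at h1
  linarith

theorem nbr_tnorm (c : Tor L) {y z : Tor L} (h : z = y + (1, 0) ∨ z = y + (0, 1)) :
    |tnorm (y - c) - tnorm (z - c)| ≤ 1 := by
  rcases h with rfl | rfl
  · exact Dsc.step c y (1, 0) Dsc.u1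
  · exact Dsc.step c y (0, 1) Dsc.u3

theorem nbr_one {y z : Tor L} (h : z = y + (1, 0) ∨ z = y + (0, 1)) : tnorm (z - y) ≤ 1 := by
  have h1 := nbr_tnorm y h
  rw [sub_self, tnorm_zero, zero_sub, abs_neg] at h1
  exact (le_abs_self _).trans h1

end geo

section cont

variable {N L : ℕ} [NeZero L]

omit [NeZero L] in
theorem continuous_Mat0 (y z : Tor L) (i j : Fin N) :
    Continuous fun S : Conf N L => Mat0 y z i j S := by
  unfold Mat0
  have h1 := (continuous_co (N := N) y i).mul (continuous_co (N := N) z j)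
  refine h1.sub ?_
  split_ifs
  · exact (continuous_finsetSum _ fun m _ =>
      (continuous_co (N := N) y m).mul (continuous_co (N := N) z m)).div_const _
  · exact continuous_const

omit [NeZero L] in
theorem continuous_Asy (y z : Tor L) (i j : Fin N) :
    Continuous fun S : Conf N L => Asy y z i j S := by
  unfold Asy
  exact ((continuous_co (N := N) y i).mul (continuous_co (N := N) z j)).sub
    ((continuous_co (N := N) y j).mul (continuous_co (N := N) z i))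

omit [NeZero L] in
theorem abs_coco (S : Conf N L) (y z : Tor L) (i j : Fin N) : |co S y i * co S z j| ≤ 1 := by
  rw [abs_mul]
  exact mul_le_one₀ (abs_co_le S y i) (abs_nonneg _) (abs_co_le S z j)

omit [NeZero L] in
theorem abs_Mat0_le (hN : N ≠ 0) (y z : Tor L) (i j : Fin N) (S : Conf N L) :
    |Mat0 y z i j S| ≤ 2 := by
  unfold Mat0
  have h1 := abs_coco S y z i j
  have h2 : |(if i = j then (∑ m, co S y m * co S z m) / (N : ℝ) else 0)| ≤ 1 := by
    split_ifs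
    · have hN' : (0 : ℝ) < N := by positivity
      rw [abs_div, abs_of_pos hN', div_le_one hN']
      refine (Finset.abs_sum_le_sum_abs _ _).trans ?_
      refine (Finset.sum_le_sum fun m _ => abs_coco S y z m m).trans ?_
      simp
    · simp
  exact (abs_sub _ _).trans (by linarith)

omit [NeZero L] in
theorem abs_Asy_le (y z : Tor L) (i j : Fin N) (S : Conf N L) : |Asy y z i j S| ≤ 2 := by
  unfold Asy
  have h1 := abs_coco S y z i j
  have h2 := abs_coco S y z j i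
  exact (abs_sub _ _).trans (by linarith)

/-- monotonicity in the volume of the bound of a vector of conditional expectations -/
theorem sup_mono (hN : N ≠ 0) (β : ℝ) {V W : Finset (Tor L)} (h : V ⊆ W) {Λ : Type}
    [Fintype Λ] (φ : Λ → Conf N L → ℝ) (hφ : ∀ l, Continuous (φ l)) {M : ℝ}
    (hM : ∀ τ, ∑ l, (KK β V (φ l) τ) ^ 2 ≤ M) (τ : Conf N L) :
    ∑ l, (KK β W (φ l) τ) ^ 2 ≤ M := by
  have hc : ∀ l, Continuous (KK β V (φ l)) := fun l => continuous_KK hN β V (hφ l)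
  have h1 := KK_norm_sq_le hN β W (Finset.univ : Finset Λ) (φ := fun l => KK β V (φ l))
    (fun l _ => hc l) τ
  have h2 : ∀ l, KK β W (KK β V (φ l)) τ = KK β W (φ l) τ := fun l => KK_tower hN β h (hφ l) τ
  simp only [h2] at h1
  refine h1.trans ?_
  refine (KK_mono hN β W (continuous_finsetSum _ fun l _ => (hc l).pow 2)
    (continuous_const (y := M)) hM τ).trans_eq (KK_const hN β W M τ)

theorem sup_mono2 (hN : N ≠ 0) (β : ℝ) {V W : Finset (Tor L)} (h : V ⊆ W)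
    (φ : Fin N → Fin N → Conf N L → ℝ) (hφ : ∀ i j, Continuous (φ i j)) {M : ℝ}
    (hM : ∀ τ, ∑ i, ∑ j, (KK β V (φ i j) τ) ^ 2 ≤ M) (τ : Conf N L) :
    ∑ i, ∑ j, (KK β W (φ i j) τ) ^ 2 ≤ M := by
  have := sup_mono hN β h (Λ := Fin N × Fin N) (fun l => φ l.1 l.2) (fun l => hφ l.1 l.2) (M := M)
    (fun τ => by rw [Fintype.sum_prod_type]; exact hM τ) τ
  rwa [Fintype.sum_prod_type] at this

theorem sup_le1 (hN : N ≠ 0) (β : ℝ) (V : Finset (Tor L)) (x : Tor L) (τ : Conf N L) :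
    ∑ i, (KK β V (fun S : Conf N L => co S x i) τ) ^ 2 ≤ 4 * (N : ℝ) ^ 2 := by
  have h1 : ∀ i ∈ (Finset.univ : Finset (Fin N)),
      (KK β V (fun S : Conf N L => co S x i) τ) ^ 2 ≤ 1 := by
    intro i _
    have := abs_KK_le hN β V (continuous_co (N := N) x i) (M := 1) (fun S => abs_co_le S x i) τ
    rw [← sq_abs]
    exact pow_le_one₀ (abs_nonneg _) this
  refine (Finset.sum_le_sum h1).trans ?_
  have hN' : (1 : ℝ) ≤ N := by exact_mod_cast Nat.one_le_iff_ne_zero.2 hN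
  simp only [Finset.sum_const, Finset.card_univ, Fintype.card_fin, nsmul_eq_mul, mul_one]
  nlinarith

theorem sup_le2 (hN : N ≠ 0) (β : ℝ) (V : Finset (Tor L))
    (φ : Fin N → Fin N → Conf N L → ℝ) (hφ : ∀ i j, Continuous (φ i j))
    (h2 : ∀ i j S, |φ i j S| ≤ 2) (τ : Conf N L) :
    ∑ i, ∑ j, (KK β V (φ i j) τ) ^ 2 ≤ 4 * (N : ℝ) ^ 2 := by
  have h1 : ∀ i ∈ (Finset.univ : Finset (Fin N)), ∀ j ∈ (Finset.univ : Finset (Fin N)),
      (KK β V (φ i j) τ) ^ 2 ≤ 4 := by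
    intro i _ j _
    have := abs_KK_le hN β V (hφ i j) (M := 2) (fun S => h2 i j S) τ
    rw [← sq_abs]
    nlinarith [abs_nonneg (KK β V (φ i j) τ)]
  refine (Finset.sum_le_sum fun i hi => Finset.sum_le_sum fun j hj => h1 i hi j hj).trans ?_
  simp only [Finset.sum_const, Finset.card_univ, Fintype.card_fin, nsmul_eq_mul]
  exact le_of_eq (by ring)

end cont

/-! ### the iteration over the annuli -/

/-- A quantity attached to the volumes which contracts at every annulus decays like a power. -/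
theorem uniform_decay (N : ℕ) {C q : ℝ} (hC : 0 < C) (hq0 : 0 < q) (hq : q < C / (2 * Real.pi))
    (g : ℝ) (hg : 2 ≤ g) {M₀ : ℝ} (hM₀ : 0 ≤ M₀) :
    ∃ ν K : ℝ, 0 < ν ∧ 0 < K ∧ ∀ (L : ℕ) [NeZero L] (c : Tor L)
      (Q : Finset (Tor L) → Conf N L → ℝ) (R : ℝ), 0 < R → 2 * R + 8 < L →
      (∀ V τ, Q V τ ≤ M₀) →
      (∀ V W : Finset (Tor L), V ⊆ W → ∀ M, (∀ τ, Q V τ ≤ M) → ∀ τ, Q W τ ≤ M) →
      (∀ (r r' : ℝ) (a : Tor L → ℝ), 0 ≤ r → r ≤ r' → r' ≤ R →
        (∀ z, tnorm (z - c) ≤ r + 2 → a z = 1) → (∀ z, r' - g ≤ tnorm (z - c) → a z = 0) →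
        0 ≤ Wd a → ∀ M, (∀ τ, Q (disc c r) τ ≤ M) →
          ∀ τ, Q (disc c r') τ * (1 + C / (Wd a + ν)) ≤ M) →
      ∀ τ, Q (disc c R) τ ≤ K * R ^ (-q) := by
  obtain ⟨lam, η, ν, hlam, hη, hη1, hν, hit⟩ := iter_real hC hq0 hq
  obtain ⟨r₀, hr₀, hprof⟩ := profiles lam hlam η hη hη1 g hg
  obtain ⟨K₁, hK₁, hprod⟩ := hit r₀ hr₀
  have hr0 : 0 < r₀ := by linarith
  have hlam0 : 0 < lam := by linarith
  refine ⟨ν, M₀ * r₀ ^ q + M₀ * K₁ + 1, hν, by positivity, ?_⟩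
  intro L _ c Q R hR hRL hQ0 hQm hstep τ
  have hRq : 0 < R ^ (-q) := Real.rpow_pos_of_pos hR _
  rcases lt_or_ge R r₀ with hlt | hge
  · have h1 : 1 ≤ r₀ ^ q * R ^ (-q) := by
      rw [Real.rpow_neg hR.le, ← div_eq_mul_inv, one_le_div (Real.rpow_pos_of_pos hR _)]
      exact Real.rpow_le_rpow hR.le hlt.le hq0.le
    calc Q (disc c R) τ ≤ M₀ := hQ0 _ _
      _ ≤ M₀ * (r₀ ^ q * R ^ (-q)) := le_mul_of_one_le_right hM₀ h1
      _ ≤ (M₀ * r₀ ^ q + M₀ * K₁ + 1) * R ^ (-q) := by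
        have : 0 ≤ (M₀ * K₁ + 1) * R ^ (-q) := by positivity
        nlinarith
  · obtain ⟨n, hn1, hn2⟩ := exists_nat_pow_near (x := R / r₀) (y := lam)
      (by rwa [one_le_div hr0]) hlam
    rw [le_div_iff₀ hr0, mul_comm] at hn1
    rw [div_lt_iff₀ hr0, mul_comm] at hn2
    obtain ⟨a, ha, hasum⟩ := hprof n L c (by linarith)
    have hpw := hprod n (fun k => Wd (a k)) (fun k hk => (ha k hk).2.2) hasum
    have hind : ∀ k ≤ n, ∀ τ, Q (disc c (r₀ * lam ^ k)) τ ≤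
        M₀ * ∏ j ∈ Finset.range k, (1 + C / (Wd (a j) + ν))⁻¹ := by
      intro k
      induction k with
      | zero =>
        intro _ τ
        simpa using hQ0 _ τ
      | succ k ih =>
        intro hk τ
        have hk' : k < n := hk
        obtain ⟨h1, h2, h3⟩ := ha k hk'
        have hle : r₀ * lam ^ k ≤ r₀ * lam ^ (k + 1) :=
          mul_le_mul_of_nonneg_left (pow_le_pow_right₀ hlam.le (Nat.le_succ k)) hr0.le
        have hle2 : r₀ * lam ^ (k + 1) ≤ R := by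
          refine le_trans ?_ hn1
          exact mul_le_mul_of_nonneg_left (pow_le_pow_right₀ hlam.le hk) hr0.le
        have := hstep (r₀ * lam ^ k) (r₀ * lam ^ (k + 1)) (a k) (by positivity) hle hle2 h1 h2 h3 _
          (ih hk'.le) τ
        have hpos : 0 < 1 + C / (Wd (a k) + ν) := by
          have : 0 < C / (Wd (a k) + ν) := div_pos hC (by linarith)
          linarith
        rw [Finset.prod_range_succ, ← mul_assoc, ← div_eq_mul_inv, le_div_iff₀ hpos]
        exact this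
    have h4 : Q (disc c R) τ ≤ M₀ * ∏ j ∈ Finset.range n, (1 + C / (Wd (a j) + ν))⁻¹ :=
      hQm _ _ (disc_mono c hn1) _ (hind n le_rfl) τ
    have h5 : (r₀ * lam ^ (n + 1)) ^ (-q) ≤ R ^ (-q) :=
      Real.rpow_le_rpow_of_nonpos hR hn2.le (by linarith)
    calc Q (disc c R) τ ≤ M₀ * (K₁ * (r₀ * lam ^ (n + 1)) ^ (-q)) :=
          h4.trans (mul_le_mul_of_nonneg_left hpw hM₀)
      _ ≤ M₀ * (K₁ * R ^ (-q)) := by gcongr
      _ ≤ (M₀ * r₀ ^ q + M₀ * K₁ + 1) * R ^ (-q) := by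
        have : 0 ≤ (M₀ * r₀ ^ q + 1) * R ^ (-q) := by positivity
        nlinarith

/-! ### the profile of one annulus -/

section ann

variable {L : ℕ} [NeZero L]

theorem prof_off {c : Tor L} {r' g : ℝ} (hg : 0 ≤ g) {a : Tor L → ℝ}
    (ha : ∀ z, r' - g ≤ tnorm (z - c) → a z = 0) : ∀ x ∉ disc c r', a x = 0 := by
  intro x hx
  rw [mem_disc, not_le] at hx
  exact ha x (by linarith)

theorem prof_one {c : Tor L} {r : ℝ} {a : Tor L → ℝ}
    (ha : ∀ z, tnorm (z - c) ≤ r + 2 → a z = 1) :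
    ∀ y z : Tor L, (z = y + (1, 0) ∨ z = y + (0, 1)) → (y ∈ disc c r ∨ z ∈ disc c r) →
      a z = a y := by
  intro y z h h'
  have h1 := abs_le.1 (nbr_tnorm c h)
  rw [mem_disc, mem_disc] at h'
  rcases h' with h' | h'
  · rw [ha y (by linarith), ha z (by linarith)]
  · rw [ha y (by linarith), ha z (by linarith)]

theorem prof_near {c : Tor L} {r' g : ℝ} {a : Tor L → ℝ}
    (ha : ∀ z, r' - g ≤ tnorm (z - c) → a z = 0) {y z : Tor L}
    (h : z = y + (1, 0) ∨ z = y + (0, 1)) (hne : a z ≠ a y) :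
    tnorm (y - c) ≤ r' - g + 1 := by
  have h1 := abs_le.1 (nbr_tnorm c h)
  by_contra hcon
  push Not at hcon
  exact hne (by rw [ha y (by linarith), ha z (by linarith)])

end ann

/-! ### small traceless part -/

theorem exists_R {K q D : ℝ} (hq : 0 < q) (hD : 0 < D) : ∃ R : ℝ, 1 ≤ R ∧ K * R ^ (-q) ≤ D := by
  have h1 : Filter.Tendsto (fun R : ℝ => K * R ^ (-q)) Filter.atTop (nhds (K * 0)) :=
    (tendsto_rpow_neg_atTop hq).const_mul K
  rw [mul_zero] at h1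
  have h2 := (h1.eventually (ge_mem_nhds hD)).and (Filter.eventually_ge_atTop 1)
  obtain ⟨R, hR⟩ := h2.exists
  exact ⟨R, hR.2, hR.1⟩

theorem mat_small {N : ℕ} (hN : 3 ≤ N) {β : ℝ} (hβ : 0 < β) {D : ℝ} (hD : 0 < D) :
    ∃ ρ : ℝ, 1 ≤ ρ ∧ ∀ (L : ℕ) [NeZero L], 2 * ρ + 8 < L → ∀ y z : Tor L,
      (z = y + (1, 0) ∨ z = y + (0, 1)) → ∀ τ : Conf N L,
        ∑ i, ∑ j, (KK β (disc y ρ) (Mat0 y z i j) τ) ^ 2 ≤ D ^ 2 := by
  have hN0 : N ≠ 0 := by omega
  have hN3 : (3 : ℝ) ≤ N := by exact_mod_cast hN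
  have hC : 0 < ((N : ℝ) - 2) / β := div_pos (by linarith) hβ
  have hpi := Real.pi_pos
  obtain ⟨ν, K, hν, hK, hmain⟩ := uniform_decay N hC
    (q := ((N : ℝ) - 2) / β / (4 * Real.pi)) (by positivity)
    (div_lt_div_of_pos_left hC (by positivity) (by linarith)) 2 le_rfl
    (M₀ := 4 * (N : ℝ) ^ 2) (by positivity)
  obtain ⟨R, hR1, hR⟩ := exists_R (K := K) (q := ((N : ℝ) - 2) / β / (4 * Real.pi)) (D := D ^ 2)
    (by positivity) (by positivity)
  refine ⟨R, hR1, ?_⟩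
  intro L _ hL y z hyz τ
  refine (hmain L y (fun V τ => ∑ i, ∑ j, (KK β V (Mat0 y z i j) τ) ^ 2) R (by linarith) hL
    (fun V τ => sup_le2 hN0 β V _ (fun i j => continuous_Mat0 y z i j)
      (fun i j S => abs_Mat0_le hN0 y z i j S) τ)
    (fun V W h M hM τ => sup_mono2 hN0 β h _ (fun i j => continuous_Mat0 y z i j) hM τ)
    ?_ τ).trans hR
  intro r r' a hr hrr' hr'R h1 h2 h3 M hM τ
  have hκ : 0 < β * (Wd a + ν) := mul_pos hβ (by linarith)
  have hb2 : ∀ b : Fin N → Fin N → ℝ, 0 ≤ ∑ i, ∑ j, b i j ^ 2 := fun b =>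
    Finset.sum_nonneg fun i _ => Finset.sum_nonneg fun j _ => sq_nonneg _
  have key := step_mat hN0 hβ hκ (disc_mono y hrr') a (prof_off (by norm_num) h2) (prof_one h1)
    (fun b hb τ => (quad_crude hN0 hβ (disc y r') a (prof_off (by norm_num) h2) hb τ).trans
      (mul_le_mul_of_nonneg_right (by nlinarith) (hb2 b))) y z
    (h1 y (by rw [sub_self, tnorm_zero]; linarith)) (h1 z (by have := nbr_one hyz; linarith)) hM τ
  have e : ((N : ℝ) - 2) / (β * (Wd a + ν)) = ((N : ℝ) - 2) / β / (Wd a + ν) := by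
    rw [div_div]
  rw [e] at key
  exact key

theorem choose_D {N : ℕ} (hN : N ≠ 0) {c₀ q : ℝ} (hq0 : 0 < q)
    (h : q < N * c₀ / (2 * Real.pi)) :
    ∃ D : ℝ, 0 < D ∧ q < c₀ / (1 / N + D) / (2 * Real.pi) := by
  have hpi := Real.pi_pos
  have hN' : (0 : ℝ) < N := by positivity
  have h1 : q * (2 * Real.pi) < N * c₀ := by rwa [lt_div_iff₀ (by positivity)] at h
  have h2 : 0 < q * (2 * Real.pi) := by positivity
  have h3 : 1 / (N : ℝ) < c₀ / (q * (2 * Real.pi)) := by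
    rw [div_lt_div_iff₀ hN' h2]
    linarith
  refine ⟨(c₀ / (q * (2 * Real.pi)) - 1 / N) / 2, by linarith, ?_⟩
  set u := c₀ / (q * (2 * Real.pi)) with hu
  have h4 : 0 < 1 / (N : ℝ) := by positivity
  have h5 : 0 < 1 / (N : ℝ) + (u - 1 / N) / 2 := by linarith
  have h6 : c₀ = u * (q * (2 * Real.pi)) := by
    rw [hu, div_mul_cancel₀ _ h2.ne']
  rw [div_div, lt_div_iff₀ (by positivity), h6]
  have h7 : 1 / (N : ℝ) + (u - 1 / N) / 2 < u := by linarith
  nlinarith [mul_lt_mul_of_pos_right h7 h2]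

/-- the isotropy hypothesis of `quad_fine` for the profiles with a wide margin -/
theorem iso_of {N L : ℕ} [NeZero L] {β D ρ R : ℝ} (hRL : 2 * R + 8 < L)
    (hρ : ∀ (L : ℕ) [NeZero L], 2 * ρ + 8 < L → ∀ y z : Tor L,
      (z = y + (1, 0) ∨ z = y + (0, 1)) → ∀ τ : Conf N L,
        ∑ i, ∑ j, (KK β (disc y ρ) (Mat0 y z i j) τ) ^ 2 ≤ D ^ 2)
    {c : Tor L} {r' : ℝ} (hr' : r' ≤ R) {a : Tor L → ℝ}
    (ha : ∀ z, r' - (ρ + 2) ≤ tnorm (z - c) → a z = 0) :
    ∀ y z : Tor L, (z = y + (1, 0) ∨ z = y + (0, 1)) → a z ≠ a y →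
      ∃ U : Finset (Tor L), U ⊆ disc c r' ∧ ∀ τ : Conf N L,
        ∑ i, ∑ j, (KK β U (Mat0 y z i j) τ) ^ 2 ≤ D ^ 2 := by
  intro y z hyz hne
  have h1 := prof_near ha hyz hne
  have h2 := tnorm_nonneg (y - c)
  refine ⟨disc y ρ, disc_trans c y (by linarith), fun τ => hρ L (by linarith) y z hyz τ⟩

/-- decay of the currents, exponent `q < N (N - 2) / (2 π β)` for the squares -/
theorem asy_decay {N : ℕ} (hN : 3 ≤ N) {β : ℝ} (hβ : 0 < β) {q : ℝ} (hq0 : 0 < q)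
    (hq : q < N * (N - 2) / (2 * Real.pi * β)) :
    ∃ K : ℝ, 0 < K ∧ ∀ (L : ℕ) [NeZero L] (R : ℝ), 0 < R → 2 * R + 8 < L → ∀ y z : Tor L,
      (z = y + (1, 0) ∨ z = y + (0, 1)) → ∀ τ : Conf N L,
        ∑ i, ∑ j, (KK β (disc y R) (Asy y z i j) τ) ^ 2 ≤ K * R ^ (-q) := by
  have hN0 : N ≠ 0 := by omega
  have hN3 : (3 : ℝ) ≤ N := by exact_mod_cast hN
  have hpi := Real.pi_pos
  obtain ⟨D, hD, hqD⟩ := choose_D hN0 (c₀ := ((N : ℝ) - 2) / β) hq0 (by
    refine hq.trans_eq ?_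
    field_simp)
  obtain ⟨ρ, hρ1, hρ⟩ := mat_small hN hβ hD
  have hθ : 0 < 1 / (N : ℝ) + D := by positivity
  have hC : 0 < ((N : ℝ) - 2) / β / (1 / N + D) := div_pos (div_pos (by linarith) hβ) hθ
  obtain ⟨ν, K, hν, hK, hmain⟩ := uniform_decay N hC hq0 hqD (ρ + 2) (by linarith)
    (M₀ := 4 * (N : ℝ) ^ 2) (by positivity)
  refine ⟨K, hK, ?_⟩
  intro L _ R hR hRL y z hyz τ
  refine hmain L y (fun V τ => ∑ i, ∑ j, (KK β V (Asy y z i j) τ) ^ 2) R hR hRL
    (fun V τ => sup_le2 hN0 β V _ (fun i j => continuous_Asy y z i j)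
      (fun i j S => abs_Asy_le y z i j S) τ)
    (fun V W h M hM τ => sup_mono2 hN0 β h _ (fun i j => continuous_Asy y z i j) hM τ)
    ?_ τ
  intro r r' a hr hrr' hr'R h1 h2 h3 M hM τ
  have hκ : 0 < β * (1 / N + D) * (Wd a + ν) := mul_pos (by positivity) (by linarith)
  have hb2 : ∀ b : Fin N → Fin N → ℝ, 0 ≤ ∑ i, ∑ j, b i j ^ 2 := fun b =>
    Finset.sum_nonneg fun i _ => Finset.sum_nonneg fun j _ => sq_nonneg _
  have hoff := prof_off (c := y) (r' := r') (g := ρ + 2) (by linarith) h2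
  have key := step_asy hN0 hβ hκ (disc_mono y hrr') a hoff (prof_one h1)
    (fun b hb τ => (quad_fine hN0 hβ hD.le (disc y r') a hoff
      (iso_of hRL hρ hr'R h2) hb τ).trans
      (mul_le_mul_of_nonneg_right (by
        have : 0 < β * (1 / N + D) := by positivity
        nlinarith) (hb2 b))) y z
    (h1 y (by rw [sub_self, tnorm_zero]; linarith)) (h1 z (by have := nbr_one hyz; linarith)) hM τ
  have e : ((N : ℝ) - 2) / (β * (1 / N + D) * (Wd a + ν)) =
      ((N : ℝ) - 2) / β / (1 / N + D) / (Wd a + ν) := by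
    rw [div_div, div_div, mul_assoc]
  rw [e] at key
  exact key

/-- decay of the magnetisation, exponent `q < N (N - 1) / (4 π β)` for the squares -/
theorem vec_decay {N : ℕ} (hN : 3 ≤ N) {β : ℝ} (hβ : 0 < β) {q : ℝ} (hq0 : 0 < q)
    (hq : q < N * (N - 1) / (4 * Real.pi * β)) :
    ∃ K : ℝ, 0 < K ∧ ∀ (L : ℕ) [NeZero L] (R : ℝ), 0 < R → 2 * R + 8 < L → ∀ x : Tor L,
      ∀ τ : Conf N L,
        ∑ i, (KK β (disc x R) (fun S => co S x i) τ) ^ 2 ≤ K * R ^ (-q) := by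
  have hN0 : N ≠ 0 := by omega
  have hN3 : (3 : ℝ) ≤ N := by exact_mod_cast hN
  have hpi := Real.pi_pos
  obtain ⟨D, hD, hqD⟩ := choose_D hN0 (c₀ := ((N : ℝ) - 1) / (2 * β)) hq0 (by
    refine hq.trans_eq ?_
    field_simp
    ring)
  obtain ⟨ρ, hρ1, hρ⟩ := mat_small hN hβ hD
  have hθ : 0 < 1 / (N : ℝ) + D := by positivity
  have hC : 0 < ((N : ℝ) - 1) / (2 * β) / (1 / N + D) :=
    div_pos (div_pos (by linarith) (by positivity)) hθ
  obtain ⟨ν, K, hν, hK, hmain⟩ := uniform_decay N hC hq0 hqD (ρ + 2) (by linarith)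
    (M₀ := 4 * (N : ℝ) ^ 2) (by positivity)
  refine ⟨K, hK, ?_⟩
  intro L _ R hR hRL x τ
  refine hmain L x (fun V τ => ∑ i, (KK β V (fun S => co S x i) τ) ^ 2) R hR hRL
    (fun V τ => sup_le1 hN0 β V x τ)
    (fun V W h M hM τ => sup_mono hN0 β h _ (fun i => continuous_co x i) hM τ)
    ?_ τ
  intro r r' a hr hrr' hr'R h1 h2 h3 M hM τ
  have hκ : 0 < β * (1 / N + D) * (Wd a + ν) := mul_pos (by positivity) (by linarith)
  have hb2 : ∀ b : Fin N → Fin N → ℝ, 0 ≤ ∑ i, ∑ j, b i j ^ 2 := fun b =>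
    Finset.sum_nonneg fun i _ => Finset.sum_nonneg fun j _ => sq_nonneg _
  have hoff := prof_off (c := x) (r' := r') (g := ρ + 2) (by linarith) h2
  have key := step_vec hN0 hβ hκ (disc_mono x hrr') a hoff (prof_one h1)
    (fun b hb τ => (quad_fine hN0 hβ hD.le (disc x r') a hoff
      (iso_of hRL hρ hr'R h2) hb τ).trans
      (mul_le_mul_of_nonneg_right (by
        have : 0 < β * (1 / N + D) := by positivity
        nlinarith) (hb2 b))) x
    (h1 x (by rw [sub_self, tnorm_zero]; linarith)) hM τ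
  have e : ((N : ℝ) - 1) / (2 * (β * (1 / N + D) * (Wd a + ν))) =
      ((N : ℝ) - 1) / (2 * β) / (1 / N + D) / (Wd a + ν) := by
    rw [div_div, div_div]
    congr 1
    ring
  rw [e] at key
  exact key

end Pool.Agent.H716R2.ON
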