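import Mathlib
import Pool.Agent.H716R2.ON.Decay

/-!
# The flux recursion
-/

set_option autoImplicit false

noncomputable section

namespace Pool.Agent.H716R2.ON

open MeasureTheory Pool.Agent.H5R2.ON

/-- `M` bounds the conditional expectation of the currents at the centre of all boxes of radius
`R`. -/
def PJ (N : ℕ) (β : ℝ) (R : ℕ) (M : ℝ) : Prop :=
  0 ≤ M ∧ ∀ (L : ℕ) [NeZero L], 2 * (R : ℝ) + 8 < L → ∀ y z : Tor L,
    (z = y + (1, 0) ∨ z = y + (0, 1)) → ∀ τ : Conf N L,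
      ∑ i, ∑ j, (KK β (box y R) (Asy y z i j) τ) ^ 2 ≤ M ^ 2

/-- `M` bounds the conditional expectation of the spin at the centre of all boxes of radius `R`. -/
def PV (N : ℕ) (β : ℝ) (R : ℕ) (M : ℝ) : Prop :=
  0 ≤ M ∧ ∀ (L : ℕ) [NeZero L], 2 * (R : ℝ) + 8 < L → ∀ x : Tor L, ∀ τ : Conf N L,
    ∑ i, (KK β (box x R) (fun S => co S x i) τ) ^ 2 ≤ M ^ 2

theorem PJ_big {N : ℕ} (hN : N ≠ 0) (β : ℝ) (R : ℕ) : PJ N β R (2 * N) := by
  refine ⟨by positivity, ?_⟩
  intro L _ _ y z _ τ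
  refine (sup_le2 hN β _ _ (fun i j => continuous_Asy y z i j)
    (fun i j S => abs_Asy_le y z i j S) τ).trans (le_of_eq (by ring))

theorem PV_big {N : ℕ} (hN : N ≠ 0) (β : ℝ) (R : ℕ) : PV N β R (2 * N) := by
  refine ⟨by positivity, ?_⟩
  intro L _ _ x τ
  exact (sup_le1 hN β _ x τ).trans (le_of_eq (by ring))

theorem PJ_mono {N : ℕ} (hN : N ≠ 0) {β : ℝ} {R R' : ℕ} (h : R ≤ R') {M : ℝ}
    (hM : PJ N β R M) : PJ N β R' M := by
  refine ⟨hM.1, ?_⟩
  intro L _ hL y z hyz τ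
  have h' : (R : ℝ) ≤ R' := by exact_mod_cast h
  exact sup_mono2 hN β (box_mono y h) _ (fun i j => continuous_Asy y z i j)
    (fun τ => hM.2 L (by linarith) y z hyz τ) τ

theorem PV_mono {N : ℕ} (hN : N ≠ 0) {β : ℝ} {R R' : ℕ} (h : R ≤ R') {M : ℝ}
    (hM : PV N β R M) : PV N β R' M := by
  refine ⟨hM.1, ?_⟩
  intro L _ hL x τ
  have h' : (R : ℝ) ≤ R' := by exact_mod_cast h
  exact sup_mono hN β (box_mono x h) _ (fun i => continuous_co x i)
    (fun τ => hM.2 L (by linarith) x τ) τ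

/-- the indicator profile of a box -/
def bx {L : ℕ} [NeZero L] (c : Tor L) (r : ℕ) (x : Tor L) : ℝ := if x ∈ box c r then 1 else 0

section cut

variable {L : ℕ} [NeZero L]

theorem bx_ne {c : Tor L} {r : ℕ} {y z : Tor L} :
    bx c r z ≠ bx c r y ↔ ¬ (z ∈ box c r ↔ y ∈ box c r) := by
  unfold bx
  by_cases h1 : z ∈ box c r <;> by_cases h2 : y ∈ box c r <;> simp [h1, h2]

theorem bx_self_mem (c : Tor L) (r : ℕ) : c ∈ box c r := by
  simp [box]

/-- all the geometric hypotheses of the flux steps for the cut at `box c (R + w + 2)` -/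
theorem cut_geo {N : ℕ} {β : ℝ} (c : Tor L) (R w : ℕ) {ε : ℝ} (hε : PJ N β w ε)
    (hL : 2 * ((R + 2 * w + 4 : ℕ) : ℝ) + 8 < L) :
    (∀ x ∉ box c (R + 2 * w + 4), bx c (R + w + 2) x = 0) ∧
    (∀ x, bx c (R + w + 2) x = 0 ∨ bx c (R + w + 2) x = 1) ∧
    (∀ y z : Tor L, (z = y + (1, 0) ∨ z = y + (0, 1)) → (y ∈ box c R ∨ z ∈ box c R) →
      bx c (R + w + 2) z = bx c (R + w + 2) y) ∧
    ((Finset.univ.filter fun y : Tor L => bx c (R + w + 2) (y + (1, 0)) ≠ bx c (R + w + 2) y).card +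
      (Finset.univ.filter fun y : Tor L => bx c (R + w + 2) (y + (0, 1)) ≠
        bx c (R + w + 2) y).card ≤ 8 * (R + w + 2) + 4) ∧
    (∀ y z : Tor L, (z = y + (1, 0) ∨ z = y + (0, 1)) → bx c (R + w + 2) z ≠ bx c (R + w + 2) y →
      ∃ U : Finset (Tor L), U ⊆ box c (R + 2 * w + 4) ∧ Far U (box c R) ∧ ∀ τ : Conf N L,
        ∑ i, ∑ j, (KK β U (Asy y z i j) τ) ^ 2 ≤ ε ^ 2) := by
  refine ⟨?_, ?_, ?_, ?_, ?_⟩
  · intro x hx
    unfold bx
    rw [if_neg]
    exact fun h => hx (box_mono c (by omega) h)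
  · intro x
    unfold bx
    by_cases h : x ∈ box c (R + w + 2) <;> simp [h]
  · intro y z hyz h
    have hb := box_succ c R y z hyz
    have hboth : y ∈ box c (R + 1) ∧ z ∈ box c (R + 1) := by
      rcases h with h | h
      · exact ⟨box_mono c (by omega) h, hb.1 h⟩
      · exact ⟨hb.2 h, box_mono c (by omega) h⟩
    unfold bx
    rw [if_pos (box_mono c (by omega) hboth.1), if_pos (box_mono c (by omega) hboth.2)]
  · have := box_cut_card c (R + w + 2)
    simp only [bx_ne]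
    exact this
  · intro y z hyz hne
    rw [bx_ne] at hne
    have hb := box_succ c (R + w + 1) y z hyz
    have hb2 := box_succ c (R + w + 2) y z hyz
    have hy1 : y ∉ box c (R + w + 1) := by
      intro h
      exact hne ⟨fun _ => box_mono c (by omega) h, fun _ => hb.1 h⟩
    have hy2 : y ∈ box c (R + w + 3) := by
      by_cases hy : y ∈ box c (R + w + 2)
      · exact box_mono c (by omega) hy
      · by_cases hz : z ∈ box c (R + w + 2)
        · exact hb2.2 hz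
        · exact absurd ⟨fun h => absurd h hz, fun h => absurd h hy⟩ hne
    refine ⟨box y w, ?_, box_far c y hy1, ?_⟩
    · exact (box_trans c y hy2).trans (box_mono c (by omega))
    · intro τ
      refine hε.2 L ?_ y z hyz τ
      push_cast at hL
      have : (0 : ℝ) ≤ R := Nat.cast_nonneg R
      have : (0 : ℝ) ≤ w := Nat.cast_nonneg w
      linarith

end cut

theorem PJ_step {N : ℕ} (hN : 3 ≤ N) {β : ℝ} (hβ : 0 < β) {R w : ℕ} (hR : 1 ≤ R) {M ε : ℝ}
    (hM : PJ N β R M) (hε : PJ N β w ε) :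
    PJ N β (R + 2 * w + 4) (N * β * (8 * (R + w + 2) + 4 : ℕ) * ε * M) := by
  refine ⟨mul_nonneg (mul_nonneg (by positivity) hε.1) hM.1, ?_⟩
  intro L _ hL y z hyz τ
  obtain ⟨h1, h2, h3, h4, h5⟩ := cut_geo y R w hε hL
  have hz : z ∈ box y R := by
    refine box_mono y hR ?_
    exact (box_succ y 0 y z hyz).1 (bx_self_mem y 0)
  refine flux_asy hN hβ hε.1 hM.1 (box_mono y (by omega)) (bx y (R + w + 2)) h1 h2 h3 h4 h5 y z
    ?_ ?_ (bx_self_mem y R) hz (fun τ => hM.2 L ?_ y z hyz τ) τ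
  · unfold bx
    rw [if_pos (bx_self_mem y _)]
  · unfold bx
    rw [if_pos (box_mono y (by omega) hz)]
  · push_cast at hL
    have : (0 : ℝ) ≤ w := Nat.cast_nonneg w
    linarith

theorem PV_step {N : ℕ} (hN : 3 ≤ N) {β : ℝ} (hβ : 0 < β) {R w : ℕ} {M ε : ℝ}
    (hM : PV N β R M) (hε : PJ N β w ε) :
    PV N β (R + 2 * w + 4) (N * β * (8 * (R + w + 2) + 4 : ℕ) * ε * M) := by
  refine ⟨mul_nonneg (mul_nonneg (by positivity) hε.1) hM.1, ?_⟩
  intro L _ hL x τ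
  obtain ⟨h1, h2, h3, h4, h5⟩ := cut_geo x R w hε hL
  refine flux_vec (by omega) hβ hε.1 hM.1 (box_mono x (by omega)) (bx x (R + w + 2)) h1 h2 h3 h4
    h5 x ?_ (bx_self_mem x R) (fun τ => hM.2 L ?_ x τ) τ
  · unfold bx
    rw [if_pos (bx_self_mem x _)]
  · push_cast at hL
    have : (0 : ℝ) ≤ w := Nat.cast_nonneg w
    linarith

/-- the infimum of an attained set of bounds -/
theorem inf_bound {P : ℝ → Prop} {B : ℝ} (hB : P B) (h0 : ∀ M, P M → 0 ≤ M) {s : ℝ}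
    (hs : ∀ M, P M → s ≤ M ^ 2) : s ≤ (sInf {M | P M}) ^ 2 := by
  have hne : Set.Nonempty {M | P M} := ⟨B, hB⟩
  have hnn : 0 ≤ sInf {M | P M} := le_csInf hne h0
  by_contra hcon
  push Not at hcon
  have h1 : sInf {M | P M} < Real.sqrt s := by
    rw [Real.lt_sqrt hnn]
    exact hcon
  obtain ⟨M, hM, hlt⟩ := exists_lt_of_csInf_lt hne h1
  have h2 := hs M hM
  rw [Real.lt_sqrt (h0 M hM)] at hlt
  linarith

/-- the optimal bounds -/
def jj (N : ℕ) (β : ℝ) (R : ℕ) : ℝ := sInf {M | PJ N β R M}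

def vv (N : ℕ) (β : ℝ) (R : ℕ) : ℝ := sInf {M | PV N β R M}

theorem jj_nonneg {N : ℕ} (hN : N ≠ 0) (β : ℝ) (R : ℕ) : 0 ≤ jj N β R :=
  le_csInf ⟨_, PJ_big hN β R⟩ fun _ h => h.1

theorem vv_nonneg {N : ℕ} (hN : N ≠ 0) (β : ℝ) (R : ℕ) : 0 ≤ vv N β R :=
  le_csInf ⟨_, PV_big hN β R⟩ fun _ h => h.1

theorem PJ_jj {N : ℕ} (hN : N ≠ 0) (β : ℝ) (R : ℕ) : PJ N β R (jj N β R) := by
  refine ⟨jj_nonneg hN β R, ?_⟩
  intro L _ hL y z hyz τ
  exact inf_bound (PJ_big hN β R) (fun M h => h.1) fun M h => h.2 L hL y z hyz τ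

theorem PV_vv {N : ℕ} (hN : N ≠ 0) (β : ℝ) (R : ℕ) : PV N β R (vv N β R) := by
  refine ⟨vv_nonneg hN β R, ?_⟩
  intro L _ hL x τ
  exact inf_bound (PV_big hN β R) (fun M h => h.1) fun M h => h.2 L hL x τ

theorem jj_le {N : ℕ} {β : ℝ} {R : ℕ} {M : ℝ} (h : PJ N β R M) : jj N β R ≤ M :=
  csInf_le ⟨0, fun _ h => h.1⟩ h

theorem vv_le {N : ℕ} {β : ℝ} {R : ℕ} {M : ℝ} (h : PV N β R M) : vv N β R ≤ M :=
  csInf_le ⟨0, fun _ h => h.1⟩ h

/-- `rec_real` with the value at zero replaced by a large number -/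
def jb (N : ℕ) (β : ℝ) (R : ℕ) : ℝ := if R = 0 then jj N β 0 + 1 else jj N β R

theorem boot {N : ℕ} (hN : 3 ≤ N) {β : ℝ} (hβ : 0 < β) {K p : ℝ} (hp : 1 < p)
    (hj : ∀ R : ℕ, 1 ≤ R → jj N β R ≤ K * (R : ℝ) ^ (-p)) :
    ∃ c K' : ℝ, 0 < c ∧ 0 < K' ∧ ∀ R : ℕ,
      vv N β R ≤ K' * Real.exp (-(c * R / Real.log (R + 2) ^ 2)) := by
  have hN0 : N ≠ 0 := by omega
  have hanti : Antitone (jj N β) := fun R R' h => jj_le (PJ_mono hN0 h (PJ_jj hN0 β R))
  have hvanti : Antitone (vv N β) := fun R R' h => vv_le (PV_mono hN0 h (PV_vv hN0 β R))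
  have hjb1 : ∀ R, jj N β R ≤ jb N β R := by
    intro R
    unfold jb
    split_ifs with h
    · rw [h]; linarith
    · exact le_rfl
  have hjb0 : ∀ R, 0 ≤ jb N β R := fun R => (jj_nonneg hN0 β R).trans (hjb1 R)
  have hNb : 0 < (N : ℝ) * β := by positivity
  have hcoef : ∀ R w : ℕ, (N : ℝ) * β * ((8 * (R + w + 2) + 4 : ℕ) : ℝ) ≤
      (8 * N * β + 1) * (R + 2 * w + 4) := by
    intro R w
    push_cast
    have h1 : (0 : ℝ) ≤ R := Nat.cast_nonneg R
    have h2 : (0 : ℝ) ≤ w := Nat.cast_nonneg w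
    nlinarith [mul_nonneg hNb.le h2]
  have hcoef1 : ∀ R w : ℕ, (1 : ℝ) ≤ (8 * N * β + 1) * (R + 2 * w + 4) := by
    intro R w
    have h1 : (0 : ℝ) ≤ R := Nat.cast_nonneg R
    have h2 : (0 : ℝ) ≤ w := Nat.cast_nonneg w
    nlinarith [mul_nonneg hNb.le h2, mul_nonneg hNb.le h1]
  have hjb00 : 1 ≤ jb N β 0 := by
    unfold jb
    rw [if_pos rfl]
    have := jj_nonneg hN0 β 0
    linarith
  have hjban : Antitone (jb N β) := by
    intro R R' h
    by_cases h0 : R' = 0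
    · have : R = 0 := by omega
      rw [h0, this]
    · unfold jb
      rw [if_neg h0]
      split_ifs with h1
      · rw [h1] at h
        have := hanti h
        linarith
      · exact hanti h
  refine rec_real (jb N β) (vv N β) hjb0 (vv_nonneg hN0 β) hjban hvanti
    (C := 8 * N * β + 1) (by positivity) ?_ ?_ hp (K := K) ?_
  · intro R w
    rcases Nat.eq_zero_or_pos R with rfl | hR
    · -- trivial
      have h1 : jb N β (0 + 2 * w + 4) ≤ jb N β w := hjban (by omega)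
      have h2 := hcoef1 0 w
      calc jb N β (0 + 2 * w + 4) ≤ 1 * jb N β w * 1 := by rw [one_mul, mul_one]; exact h1
        _ ≤ (8 * N * β + 1) * (((0 : ℕ) : ℝ) + 2 * w + 4) * jb N β w * jb N β 0 := by
          apply mul_le_mul _ hjb00 zero_le_one
          · exact mul_nonneg (by linarith) (hjb0 w)
          · exact mul_le_mul_of_nonneg_right h2 (hjb0 w)
    · have hb : jb N β (R + 2 * w + 4) = jj N β (R + 2 * w + 4) := by
        unfold jb
        rw [if_neg (by omega)]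
      have h1 := jj_le (PJ_step hN hβ hR (PJ_jj hN0 β R) (PJ_jj hN0 β w))
      rw [hb]
      refine h1.trans ?_
      have h2 := hcoef R w
      apply mul_le_mul _ (hjb1 R) (jj_nonneg hN0 β R)
      · exact mul_nonneg ((by linarith [hcoef1 R w] : (0 : ℝ) ≤ _)) (hjb0 w)
      · exact mul_le_mul h2 (hjb1 w) (jj_nonneg hN0 β w) (by linarith [hcoef1 R w])
  · intro R w
    have h1 := vv_le (PV_step hN hβ (PV_vv hN0 β R) (PJ_jj hN0 β w))
    refine h1.trans ?_
    have h2 := hcoef R w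
    apply mul_le_mul_of_nonneg_right _ (vv_nonneg hN0 β R)
    exact mul_le_mul h2 (hjb1 w) (jj_nonneg hN0 β w) (by linarith [hcoef1 R w])
  · intro R hR
    unfold jb
    rw [if_neg (by omega)]
    exact hj R hR

/-- quasi-exponential decay of the magnetisation in a box -/
theorem vv_decay {N : ℕ} (hN : 3 ≤ N) {β : ℝ} (hβ : 0 < β)
    (hβN : β < N * (N - 2) / (4 * Real.pi)) :
    ∃ c K' : ℝ, 0 < c ∧ 0 < K' ∧ ∀ R : ℕ,
      vv N β R ≤ K' * Real.exp (-(c * R / Real.log (R + 2) ^ 2)) := by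
  have hN0 : N ≠ 0 := by omega
  have hpi := Real.pi_pos
  have hN3 : (3 : ℝ) ≤ N := by exact_mod_cast hN
  set B : ℝ := N * (N - 2) / (2 * Real.pi * β) with hB
  have hB2 : 2 < B := by
    rw [hB, lt_div_iff₀ (by positivity)]
    rw [lt_div_iff₀ (by positivity)] at hβN
    linarith
  obtain ⟨K, hK, hdec⟩ := asy_decay hN hβ (q := (2 + B) / 2) (by linarith) (by
    rw [← hB]; linarith)
  refine boot hN hβ (K := Real.sqrt K) (p := (2 + B) / 4) (by linarith) ?_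
  intro R hR
  have hR0 : (0 : ℝ) < R := by exact_mod_cast hR
  refine jj_le ⟨by positivity, ?_⟩
  intro L _ hL y z hyz τ
  have h1 := sup_mono2 hN0 β (disc_subset_box y R) _ (fun i j => continuous_Asy y z i j)
    (fun τ => hdec L R hR0 hL y z hyz τ) τ
  refine h1.trans (le_of_eq ?_)
  rw [mul_pow, Real.sq_sqrt hK.le, ← Real.rpow_natCast, ← Real.rpow_mul hR0.le]
  congr 2
  push_cast
  ring

end Pool.Agent.H716R2.ON
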