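import Mathlib
import Pool.Agent.H716R2.ON.Base
import Pool.Agent.H716R2.ON.Ker1
import Pool.Agent.H716R2.ON.Ker2

/-!
# The two point function from the conditional expectations
-/

set_option autoImplicit false

noncomputable section

namespace Pool.Agent.H716R2.ON

open MeasureTheory Pool.Agent.H5R2.ON

variable {N L : ℕ} [NeZero L]

private theorem twopt_cs {ι : Type*} (s : Finset ι) (f g : ι → ℝ) {A B : ℝ} (hA : 0 ≤ A)
    (hB : 0 ≤ B) (hf : ∑ i ∈ s, f i ^ 2 ≤ A ^ 2) (hg : ∑ i ∈ s, g i ^ 2 ≤ B ^ 2) :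
    |∑ i ∈ s, f i * g i| ≤ A * B := by
  have h1 := Finset.sum_mul_sq_le_sq_mul_sq s f g
  have h2 : (∑ i ∈ s, f i * g i) ^ 2 ≤ (A * B) ^ 2 := by
    refine h1.trans ?_
    rw [mul_pow]
    exact mul_le_mul hf hg (Finset.sum_nonneg fun i _ => sq_nonneg _) (sq_nonneg _)
  exact abs_le_of_sq_le_sq h2 (mul_nonneg hA hB)

private theorem twopt_bound (hN : N ≠ 0) (β : ℝ) (F : Conf N L → ℝ) {C : ℝ}
    (h : ∀ S, |F S| ≤ C) : |∫ S, F S ∂(gm N L β)| ≤ C := by
  have := gm_isProbabilityMeasure N L hN β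
  have h1 := norm_integral_le_of_norm_le_const (μ := gm N L β) (f := F) (C := C)
    (Filter.Eventually.of_forall fun S => by simpa using h S)
  simpa using h1

private theorem twopt_step (hN : N ≠ 0) (β : ℝ) (V : Finset (Tor L)) (x y : Tor L)
    (hy : y ∉ V) :
    ∫ S, inner ℝ (S x : EuclideanSpace ℝ (Fin N)) (S y) ∂(gm N L β) =
      ∫ S, ∑ i, co S y i * KK β V (fun S => co S x i) S ∂(gm N L β) := by
  have hc : Continuous fun S : Conf N L => ∑ i, co S y i * co S x i :=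
    continuous_finsetSum _ fun i _ => (continuous_co y i).mul (continuous_co x i)
  have h1 : ∫ S, inner ℝ (S x : EuclideanSpace ℝ (Fin N)) (S y) ∂(gm N L β) =
      ∫ S, (∑ i, co S y i * co S x i) ∂(gm N L β) := by
    refine integral_congr_ae (Filter.Eventually.of_forall fun S => ?_)
    refine (inner_eq_co S x y).trans ?_
    exact Finset.sum_congr rfl fun i _ => mul_comm _ _
  rw [h1, ← gm_KK hN β V hc]
  congr 1
  funext τ
  rw [KK_sum β V Finset.univ (φ := fun i S => co S y i * co S x i)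
    (fun i _ => (continuous_co y i).mul (continuous_co x i)) τ]
  exact Finset.sum_congr rfl fun i _ => KK_mul_off β V _ _ (Off_co hy i) τ

theorem two_pt_one (hN : N ≠ 0) (β : ℝ) (V : Finset (Tor L)) (x y : Tor L) (hy : y ∉ V) {M : ℝ}
    (hM0 : 0 ≤ M) (hM : ∀ τ : Conf N L, ∑ i, (KK β V (fun S => co S x i) τ) ^ 2 ≤ M ^ 2) :
    |∫ S, inner ℝ (S x : EuclideanSpace ℝ (Fin N)) (S y) ∂(gm N L β)| ≤ M := by
  rw [twopt_step hN β V x y hy]
  refine twopt_bound hN β _ fun S => ?_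
  have h := twopt_cs Finset.univ (fun i => co S y i) (fun i => KK β V (fun S => co S x i) S)
    zero_le_one hM0 (by rw [sum_co_sq]; norm_num) (hM S)
  simpa using h

theorem two_pt_two (hN : N ≠ 0) (β : ℝ) (Vx Vy : Finset (Tor L)) (hfar : Far Vy Vx)
    (x y : Tor L) (hx : x ∈ Vx) (hy : y ∈ Vy) {M M' : ℝ} (hM0 : 0 ≤ M) (hM0' : 0 ≤ M')
    (hM : ∀ τ : Conf N L, ∑ i, (KK β Vx (fun S => co S x i) τ) ^ 2 ≤ M ^ 2)
    (hM' : ∀ τ : Conf N L, ∑ i, (KK β Vy (fun S => co S y i) τ) ^ 2 ≤ M' ^ 2) :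
    |∫ S, inner ℝ (S x : EuclideanSpace ℝ (Fin N)) (S y) ∂(gm N L β)| ≤ M * M' := by
  have hyx : y ∉ Vx := fun h => (hfar y hy y h).1 rfl
  have hxy : x ∉ Vy := fun h => (hfar x h x hx).1 rfl
  have hK : ∀ i, Continuous (KK β Vx (fun S : Conf N L => co S x i)) := fun i =>
    continuous_KK hN β Vx (continuous_co x i)
  have hoff : ∀ i, Off Vy (KK β Vx (fun S : Conf N L => co S x i)) := fun i =>
    KK_markov β hfar (Off_co hxy i)
  have h2 : ∫ S, ∑ i, co S y i * KK β Vx (fun S => co S x i) S ∂(gm N L β) =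
      ∫ S, ∑ i, KK β Vx (fun S => co S x i) S * KK β Vy (fun S => co S y i) S ∂(gm N L β) := by
    have hc : Continuous fun S : Conf N L =>
        ∑ i, KK β Vx (fun S => co S x i) S * co S y i :=
      continuous_finsetSum _ fun i _ => (hK i).mul (continuous_co y i)
    have h3 : ∫ S, ∑ i, co S y i * KK β Vx (fun S => co S x i) S ∂(gm N L β) =
        ∫ S, ∑ i, KK β Vx (fun S => co S x i) S * co S y i ∂(gm N L β) := by
      congr 1
      funext S
      exact Finset.sum_congr rfl fun i _ => mul_comm _ _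
    rw [h3, ← gm_KK hN β Vy hc]
    congr 1
    funext τ
    rw [KK_sum β Vy Finset.univ (φ := fun i S => KK β Vx (fun S => co S x i) S * co S y i)
      (fun i _ => (hK i).mul (continuous_co y i)) τ]
    exact Finset.sum_congr rfl fun i _ => KK_mul_off β Vy _ _ (hoff i) τ
  rw [twopt_step hN β Vx x y hyx, h2]
  exact twopt_bound hN β _ fun S => twopt_cs Finset.univ _ _ hM0 hM0' (hM S) (hM' S)

end Pool.Agent.H716R2.ON
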