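import Mathlib
import Pool.Agent.H716R2.ON.Decay
import Pool.Agent.H716R2.ON.Boot
import Pool.Agent.H716R2.ON.TwoPt

/-!
# Decay of the two point function
-/

set_option autoImplicit false

noncomputable section

namespace Pool.Agent.H716R2.ON

open MeasureTheory Pool.Agent.H5R2.ON



section

variable {L : ℕ} [NeZero L]

theorem crd_sq_le (u : ZMod L) : ((u.valMinAbs : ℤ) : ℝ) ^ 2 * 4 ≤ (L : ℝ) ^ 2 := by
  have h1 := ZMod.natAbs_valMinAbs_le u
  have h2 : u.valMinAbs.natAbs * 2 ≤ L := by omega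
  have h3 : ((u.valMinAbs.natAbs : ℕ) : ℝ) * 2 ≤ L := by exact_mod_cast h2
  have h4 : (0 : ℝ) ≤ ((u.valMinAbs.natAbs : ℕ) : ℝ) := Nat.cast_nonneg _
  rw [← cast_sq_natAbs]
  nlinarith

theorem tnorm_le_L (x : Tor L) : 2 * tnorm x ^ 2 ≤ (L : ℝ) ^ 2 := by
  have h1 := crd_sq_le x.1
  have h2 := crd_sq_le x.2
  unfold tnorm
  rw [Real.sq_sqrt (by positivity)]
  linarith

theorem lt_L_of {t : ℝ} (ht : 64 ≤ t) (h : 2 * t ^ 2 ≤ (L : ℝ) ^ 2) : t + 8 < L := by
  have hL : (0 : ℝ) ≤ L := Nat.cast_nonneg L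
  by_contra hcon
  push Not at hcon
  nlinarith

theorem far_disc (x y : Tor L) {r s : ℝ} (h : r + s + 1 < tnorm (x - y)) :
    Far (disc y s) (disc x r) := by
  have key : ∀ u ∈ disc y s, ∀ v ∈ disc x r, 1 < tnorm (v - u) := by
    intro u hu v hv
    rw [mem_disc] at hu hv
    have h1 := tnorm_add_le (x - v) (v - y)
    rw [sub_add_sub_cancel] at h1
    have h2 := tnorm_add_le (v - u) (u - y)
    rw [sub_add_sub_cancel] at h2
    rw [tnorm_sub_comm x v] at h1
    linarith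
  intro u hu v hv
  have h1 := key u hu v hv
  have e1 : tnorm ((1, 0) : Tor L) ≤ 1 := tnorm_unit_le (Or.inl rfl)
  have e2 : tnorm ((0, 1) : Tor L) ≤ 1 := tnorm_unit_le (Or.inr (Or.inr (Or.inl rfl)))
  refine ⟨?_, ?_, ?_, ?_, ?_⟩
  · rintro rfl
    rw [sub_self, tnorm_zero] at h1
    linarith
  · rintro rfl
    rw [add_sub_cancel_left] at h1
    linarith
  · rintro rfl
    rw [add_sub_cancel_left] at h1
    linarith
  · rintro rfl
    rw [tnorm_sub_comm, add_sub_cancel_left] at h1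
    linarith
  · rintro rfl
    rw [tnorm_sub_comm, add_sub_cancel_left] at h1
    linarith

theorem not_mem_box (x y : Tor L) {R : ℕ} (h : 2 * (R : ℝ) ^ 2 < tnorm (y - x) ^ 2) :
    y ∉ box x R := by
  intro hy
  simp only [box, Finset.mem_filter, Finset.mem_univ, true_and] at hy
  have h1 : ((((y - x).1.valMinAbs).natAbs : ℕ) : ℝ) ≤ R := by exact_mod_cast hy.1
  have h2 : ((((y - x).2.valMinAbs).natAbs : ℕ) : ℝ) ≤ R := by exact_mod_cast hy.2
  unfold tnorm at h
  rw [Real.sq_sqrt (by positivity), ← cast_sq_natAbs, ← cast_sq_natAbs] at h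
  have h3 : (0 : ℝ) ≤ (((y - x).1.valMinAbs.natAbs : ℕ) : ℝ) := Nat.cast_nonneg _
  have h4 : (0 : ℝ) ≤ (((y - x).2.valMinAbs.natAbs : ℕ) : ℝ) := Nat.cast_nonneg _
  nlinarith

end

theorem corr_le_one {N : ℕ} (hN : N ≠ 0) (L : ℕ) [NeZero L] (β : ℝ) (x y : Tor L) :
    |∫ S, inner ℝ (S x : EuclideanSpace ℝ (Fin N)) (S y) ∂(gm N L β)| ≤ 1 := by
  have := gm_isProbabilityMeasure N L hN β
  rw [← Real.norm_eq_abs]
  refine (norm_integral_le_of_norm_le_const (C := 1)
    (Filter.Eventually.of_forall fun S => ?_)).trans ?_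
  · rw [Real.norm_eq_abs]
    have h1 := abs_real_inner_le_norm (S x : EuclideanSpace ℝ (Fin N)) (S y)
    have h2 : ‖(S x : EuclideanSpace ℝ (Fin N))‖ = 1 := by simp
    have h3 : ‖(S y : EuclideanSpace ℝ (Fin N))‖ = 1 := by simp
    rw [h2, h3] at h1
    linarith
  · simp

/-- power law for all `β` -/
theorem power_law (N : ℕ) (hN : 3 ≤ N) (β : ℝ) (hβ : 0 < β) (p : ℝ)
    (hp : p < (N : ℝ) * (N - 1) / (4 * Real.pi * β)) :
    ∃ C : ℝ, ∀ (L : ℕ) [NeZero L] (x y : Tor L),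
      |∫ S, inner ℝ (S x : EuclideanSpace ℝ (Fin N)) (S y) ∂(gm N L β)| ≤
        C * (1 + tnorm (x - y)) ^ (-p) := by
  have hN0 : N ≠ 0 := by omega
  have hN3 : (3 : ℝ) ≤ N := by exact_mod_cast hN
  have hpi := Real.pi_pos
  set B : ℝ := (N : ℝ) * (N - 1) / (4 * Real.pi * β) with hB
  have hB0 : 0 < B := by
    rw [hB]
    exact div_pos (mul_pos (by linarith) (by linarith)) (by positivity)
  obtain ⟨q, hq0, hpq, hqB⟩ : ∃ q, 0 < q ∧ p ≤ q ∧ q < B := by
    refine ⟨max (B / 2) ((p + B) / 2), ?_, ?_, ?_⟩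
    · exact lt_of_lt_of_le (by linarith) (le_max_left _ _)
    · exact le_trans (by linarith) (le_max_right _ _)
    · exact max_lt (by linarith) (by linarith)
  obtain ⟨K, hK, hdec⟩ := vec_decay hN hβ hq0 hqB
  refine ⟨(65 : ℝ) ^ q + K * 4 ^ q, ?_⟩
  intro L _ x y
  have ht0 := tnorm_nonneg (x - y)
  set t := tnorm (x - y) with ht
  have hbase : (1 + t) ^ (-q) ≤ (1 + t) ^ (-p) :=
    Real.rpow_le_rpow_of_exponent_le (by linarith) (by linarith)
  have hpos : 0 < (1 + t) ^ (-q) := Real.rpow_pos_of_pos (by linarith) _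
  have h65 : (0 : ℝ) < (65 : ℝ) ^ q := by positivity
  have h4q : (0 : ℝ) < (4 : ℝ) ^ q := by positivity
  rcases lt_or_ge t 64 with hlt | hge
  · have h1 : 1 ≤ (65 : ℝ) ^ q * (1 + t) ^ (-q) := by
      rw [Real.rpow_neg (by linarith), ← div_eq_mul_inv,
        one_le_div (Real.rpow_pos_of_pos (by linarith) _)]
      exact Real.rpow_le_rpow (by linarith) (by linarith) hq0.le
    calc _ ≤ (1 : ℝ) := corr_le_one hN0 L β x y
      _ ≤ (65 : ℝ) ^ q * (1 + t) ^ (-q) := h1
      _ ≤ ((65 : ℝ) ^ q + K * 4 ^ q) * (1 + t) ^ (-q) := by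
        apply mul_le_mul_of_nonneg_right _ hpos.le
        have : 0 < K * 4 ^ q := by positivity
        linarith
      _ ≤ _ := mul_le_mul_of_nonneg_left hbase (by positivity)
  · have hL := lt_L_of hge (tnorm_le_L (x - y))
    set R : ℝ := t / 2 - 1 with hR
    have hR0 : 0 < R := by rw [hR]; linarith
    have hRL : 2 * R + 8 < L := by rw [hR]; linarith
    have hKR : 0 ≤ K * R ^ (-q) := by positivity
    have h1 := two_pt_two hN0 β (disc x R) (disc y R) (far_disc x y (by rw [hR]; linarith)) x y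
      (by rw [mem_disc, sub_self, tnorm_zero]; exact hR0.le)
      (by rw [mem_disc, sub_self, tnorm_zero]; exact hR0.le)
      (M := Real.sqrt (K * R ^ (-q))) (M' := Real.sqrt (K * R ^ (-q)))
      (Real.sqrt_nonneg _) (Real.sqrt_nonneg _)
      (fun τ => by rw [Real.sq_sqrt hKR]; exact hdec L R hR0 hRL x τ)
      (fun τ => by rw [Real.sq_sqrt hKR]; exact hdec L R hR0 hRL y τ)
    rw [Real.mul_self_sqrt hKR] at h1
    have h2 : R ^ (-q) ≤ 4 ^ q * (1 + t) ^ (-q) := by
      have h3 : (1 + t) / 4 ≤ R := by rw [hR]; linarith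
      have h4 : R ^ (-q) ≤ ((1 + t) / 4) ^ (-q) :=
        Real.rpow_le_rpow_of_nonpos (by linarith) h3 (by linarith)
      refine h4.trans (le_of_eq ?_)
      rw [Real.div_rpow (by linarith) (by norm_num), Real.rpow_neg (by norm_num : (0 : ℝ) ≤ 4)]
      rw [div_inv_eq_mul, mul_comm]
    calc _ ≤ K * R ^ (-q) := h1
      _ ≤ K * (4 ^ q * (1 + t) ^ (-q)) := mul_le_mul_of_nonneg_left h2 hK.le
      _ ≤ ((65 : ℝ) ^ q + K * 4 ^ q) * (1 + t) ^ (-q) := by nlinarith [mul_pos h65 hpos]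
      _ ≤ _ := mul_le_mul_of_nonneg_left hbase (by positivity)

/-- quasi-exponential decay for `β < N (N - 2) / (4 π)` -/
theorem quasi_exp (N : ℕ) (hN : 3 ≤ N) (β : ℝ) (hβ : 0 < β)
    (hβN : β < (N : ℝ) * (N - 2) / (4 * Real.pi)) :
    ∃ c K : ℝ, 0 < c ∧ 0 < K ∧ ∀ (L : ℕ) [NeZero L] (x y : Tor L),
      |∫ S, inner ℝ (S x : EuclideanSpace ℝ (Fin N)) (S y) ∂(gm N L β)| ≤
        K * Real.exp (-(c * tnorm (x - y) / Real.log (2 + tnorm (x - y)) ^ 2)) := by
  have hN0 : N ≠ 0 := by omega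
  obtain ⟨c, K, hc, hK, hdec⟩ := vv_decay hN hβ hβN
  refine ⟨c / 4, K + Real.exp (64 * c), by positivity, by positivity, ?_⟩
  intro L _ x y
  have ht0 := tnorm_nonneg (x - y)
  set t := tnorm (x - y) with ht
  have hlog2 : 0 < Real.log (2 + t) := Real.log_pos (by linarith)
  rcases lt_or_ge t 64 with hlt | hge
  · have hl : (1 / 4 : ℝ) ≤ Real.log (2 + t) ^ 2 := by
      have h1 : Real.log 2 ≤ Real.log (2 + t) := Real.log_le_log (by norm_num) (by linarith)
      have h2 : (0.5 : ℝ) ≤ Real.log 2 := by linarith [Real.log_two_gt_d9]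
      nlinarith
    have h1 : c / 4 * t / Real.log (2 + t) ^ 2 ≤ 64 * c := by
      rw [div_le_iff₀ (by positivity)]
      nlinarith
    calc _ ≤ (1 : ℝ) := corr_le_one hN0 L β x y
      _ = Real.exp (64 * c) * Real.exp (-(64 * c)) := by rw [← Real.exp_add]; simp
      _ ≤ (K + Real.exp (64 * c)) * Real.exp (-(c / 4 * t / Real.log (2 + t) ^ 2)) := by
        apply mul_le_mul _ (Real.exp_le_exp.2 (by linarith)) (Real.exp_pos _).le (by positivity)
        linarith
  · have hL := lt_L_of hge (tnorm_le_L (x - y))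
    set R : ℕ := ⌊t / 2⌋₊ with hR
    have hR1 : (R : ℝ) ≤ t / 2 := Nat.floor_le (by linarith)
    have hR2 : t / 2 - 1 < R := by
      have := Nat.lt_floor_add_one (t / 2)
      rw [← hR] at this
      linarith
    have hR0 : (0 : ℝ) ≤ R := Nat.cast_nonneg R
    have hy : y ∉ box x R := by
      apply not_mem_box
      rw [tnorm_sub_comm, ← ht]
      nlinarith
    have h1 := two_pt_one hN0 β (box x R) x y hy (vv_nonneg hN0 β R)
      (fun τ => (PV_vv hN0 β R).2 L (by linarith) x τ)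
    refine h1.trans ((hdec R).trans ?_)
    apply mul_le_mul _ _ (Real.exp_pos _).le (by positivity)
    · have := Real.exp_pos (64 * c)
      linarith
    · apply Real.exp_le_exp.2
      rw [neg_le_neg_iff]
      have hlogR : 0 < Real.log (R + 2) := Real.log_pos (by linarith)
      have hmono : Real.log (R + 2) ≤ Real.log (2 + t) :=
        Real.log_le_log (by linarith) (by linarith)
      apply div_le_div₀ (by positivity) _ (by positivity)
        (pow_le_pow_left₀ hlogR.le hmono 2)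
      nlinarith

end Pool.Agent.H716R2.ON
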