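import Mathlib
import Pool.Agent.H716R2.ON.Base
import Pool.Agent.H5R2.ON.Dist
import Pool.Agent.H5R2.ON.Disc
import Pool.Agent.H12R2.ON.LocRot

/-! STUBS. Never land this file. Every task goes into its own file (see the task notes). -/

set_option autoImplicit false

noncomputable section

namespace Pool.Agent.H716R2.ON

open MeasureTheory Pool.Agent.H5R2.ON

variable {N L : ℕ} [NeZero L]

/-! ## Task K1 (file Ker1.lean): basics of glue, II, KK -/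

omit [NeZero L] in
theorem continuous_glue (V : Finset (Tor L)) :
    Continuous fun p : Conf N L × Conf N L => glue V p.1 p.2 := by sorry

omit [NeZero L] in
theorem continuous_co (x : Tor L) (i : Fin N) : Continuous fun S : Conf N L => co S x i := by sorry

omit [NeZero L] in
theorem abs_co_le (S : Conf N L) (x : Tor L) (i : Fin N) : |co S x i| ≤ 1 := by sorry

omit [NeZero L] in
theorem sum_co_sq (S : Conf N L) (x : Tor L) : ∑ i, co S x i ^ 2 = 1 := by sorry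

omit [NeZero L] in
theorem inner_eq_co (S : Conf N L) (x y : Tor L) :
    inner ℝ (S x : EuclideanSpace ℝ (Fin N)) (S y) = ∑ i, co S x i * co S y i := by sorry

theorem pairSum_eq (S : Conf N L) : pairSum S = esum fun y z => ∑ i, co S y i * co S z i := by
  sorry

theorem continuous_II (β : ℝ) (V : Finset (Tor L)) {φ : Conf N L → ℝ} (hφ : Continuous φ) :
    Continuous (II β V φ) := by sorry

theorem II_one_pos (hN : N ≠ 0) (β : ℝ) (V : Finset (Tor L)) (τ : Conf N L) :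
    0 < II β V (fun _ => 1) τ := by sorry

theorem continuous_KK (hN : N ≠ 0) (β : ℝ) (V : Finset (Tor L)) {φ : Conf N L → ℝ}
    (hφ : Continuous φ) : Continuous (KK β V φ) := by sorry

theorem KK_const (hN : N ≠ 0) (β : ℝ) (V : Finset (Tor L)) (c : ℝ) (τ : Conf N L) :
    KK β V (fun _ => c) τ = c := by sorry

theorem KK_add (β : ℝ) (V : Finset (Tor L)) {φ ψ : Conf N L → ℝ} (hφ : Continuous φ)
    (hψ : Continuous ψ) (τ : Conf N L) :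
    KK β V (fun S => φ S + ψ S) τ = KK β V φ τ + KK β V ψ τ := by sorry

theorem KK_const_mul (β : ℝ) (V : Finset (Tor L)) (c : ℝ) (φ : Conf N L → ℝ) (τ : Conf N L) :
    KK β V (fun S => c * φ S) τ = c * KK β V φ τ := by sorry

theorem KK_sub (β : ℝ) (V : Finset (Tor L)) {φ ψ : Conf N L → ℝ} (hφ : Continuous φ)
    (hψ : Continuous ψ) (τ : Conf N L) :
    KK β V (fun S => φ S - ψ S) τ = KK β V φ τ - KK β V ψ τ := by sorry

theorem KK_sum (β : ℝ) (V : Finset (Tor L)) {ι : Type*} (s : Finset ι) {φ : ι → Conf N L → ℝ}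
    (hφ : ∀ i ∈ s, Continuous (φ i)) (τ : Conf N L) :
    KK β V (fun S => ∑ i ∈ s, φ i S) τ = ∑ i ∈ s, KK β V (φ i) τ := by sorry

theorem KK_mono (hN : N ≠ 0) (β : ℝ) (V : Finset (Tor L)) {φ ψ : Conf N L → ℝ}
    (hφ : Continuous φ) (hψ : Continuous ψ) (h : ∀ S, φ S ≤ ψ S) (τ : Conf N L) :
    KK β V φ τ ≤ KK β V ψ τ := by sorry

theorem abs_KK_le (hN : N ≠ 0) (β : ℝ) (V : Finset (Tor L)) {φ : Conf N L → ℝ}
    (hφ : Continuous φ) {M : ℝ} (h : ∀ S, |φ S| ≤ M) (τ : Conf N L) : |KK β V φ τ| ≤ M := by sorry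

theorem KK_cs (hN : N ≠ 0) (β : ℝ) (V : Finset (Tor L)) {ι : Type*} (s : Finset ι)
    {φ ψ : ι → Conf N L → ℝ} (hφ : ∀ i ∈ s, Continuous (φ i)) (hψ : ∀ i ∈ s, Continuous (ψ i))
    (τ : Conf N L) :
    (KK β V (fun S => ∑ i ∈ s, φ i S * ψ i S) τ) ^ 2 ≤
      KK β V (fun S => ∑ i ∈ s, φ i S ^ 2) τ * KK β V (fun S => ∑ i ∈ s, ψ i S ^ 2) τ := by sorry

/-- Jensen for vectors: the norm of the conditional expectation -/
theorem KK_norm_sq_le (hN : N ≠ 0) (β : ℝ) (V : Finset (Tor L)) {ι : Type*} (s : Finset ι)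
    {φ : ι → Conf N L → ℝ} (hφ : ∀ i ∈ s, Continuous (φ i)) (τ : Conf N L) :
    ∑ i ∈ s, (KK β V (φ i) τ) ^ 2 ≤ KK β V (fun S => ∑ i ∈ s, φ i S ^ 2) τ := by sorry

/-! ## Task K2 (file Ker2.lean): locality, tower property, Markov property, Gibbs measure -/

theorem KK_off (β : ℝ) (V : Finset (Tor L)) (φ : Conf N L → ℝ) : Off V (KK β V φ) := by sorry

theorem KK_mul_off (β : ℝ) (V : Finset (Tor L)) (g φ : Conf N L → ℝ) (hg : Off V g)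
    (τ : Conf N L) : KK β V (fun S => g S * φ S) τ = g τ * KK β V φ τ := by sorry

theorem KK_of_off (hN : N ≠ 0) (β : ℝ) (V : Finset (Tor L)) (g : Conf N L → ℝ) (hg : Off V g)
    (τ : Conf N L) : KK β V g τ = g τ := by sorry

theorem prior_resample (V : Finset (Tor L)) (F : Conf N L → ℝ) (hF : Continuous F) :
    ∫ S, F S ∂(prior N L) = ∫ S, ∫ σ, F (glue V σ S) ∂(prior N L) ∂(prior N L) := by sorry

theorem KK_tower (hN : N ≠ 0) (β : ℝ) {V W : Finset (Tor L)} (h : V ⊆ W) {φ : Conf N L → ℝ}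
    (hφ : Continuous φ) (τ : Conf N L) : KK β W (KK β V φ) τ = KK β W φ τ := by sorry

theorem Off_co {U : Finset (Tor L)} {x : Tor L} (hx : x ∉ U) (i : Fin N) :
    Off U fun S : Conf N L => co S x i := by sorry

theorem KK_markov (β : ℝ) {U V : Finset (Tor L)} (h : Far U V) {φ : Conf N L → ℝ}
    (hφ : Off U φ) : Off U (KK β V φ) := by sorry

theorem gm_KK (hN : N ≠ 0) (β : ℝ) (V : Finset (Tor L)) {φ : Conf N L → ℝ} (hφ : Continuous φ) :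
    ∫ S, KK β V φ S ∂(gm N L β) = ∫ S, φ S ∂(gm N L β) := by sorry

/-! ## Task I (file IBP.lean): integration by parts -/

/-- `a` vanishes off `V`. General form: `F` is continuous, `F'` is its derivative along the
rotations of angle `θ * a x` in the plane `(p, k)`. -/
theorem ibp (hN : N ≠ 0) (β : ℝ) (V : Finset (Tor L)) (a : Tor L → ℝ) (ha : ∀ x ∉ V, a x = 0)
    {p k : Fin N} (hpk : p ≠ k) {F F' : Conf N L → ℝ} (hF : Continuous F) (hF' : Continuous F')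
    (hd : ∀ S : Conf N L, HasDerivAt
      (fun θ : ℝ => F (Pool.Agent.H12R2.ON.rotC p k hpk (fun x => θ * a x) S)) (F' S) 0)
    (τ : Conf N L) :
    KK β V F' τ + β * KK β V (fun S => F S * Hb a (gen p k) S) τ = 0 := by sorry

theorem ibp_one (hN : N ≠ 0) (β : ℝ) (V : Finset (Tor L)) (a : Tor L → ℝ)
    (ha : ∀ x ∉ V, a x = 0) {b : Fin N → Fin N → ℝ} (hb : Anti b) (x : Tor L) (i : Fin N)
    (τ : Conf N L) :
    KK β V (fun S => a x * ∑ j, b i j * co S x j) τ +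
      β * KK β V (fun S => co S x i * Hb a b S) τ = 0 := by sorry

theorem ibp_two (hN : N ≠ 0) (β : ℝ) (V : Finset (Tor L)) (a : Tor L → ℝ)
    (ha : ∀ x ∉ V, a x = 0) {b : Fin N → Fin N → ℝ} (hb : Anti b) (y z : Tor L) (i j : Fin N)
    (τ : Conf N L) :
    KK β V (fun S => a y * (∑ m, b i m * co S y m) * co S z j +
        a z * co S y i * ∑ m, b j m * co S z m) τ +
      β * KK β V (fun S => co S y i * co S z j * Hb a b S) τ = 0 := by sorry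

theorem KK_Hb_zero (hN : N ≠ 0) (β : ℝ) (hβ : β ≠ 0) (V : Finset (Tor L)) (a : Tor L → ℝ)
    (ha : ∀ x ∉ V, a x = 0) {b : Fin N → Fin N → ℝ} (hb : Anti b) (τ : Conf N L) :
    KK β V (Hb a b) τ = 0 := by sorry

theorem KK_Hb_sq (hN : N ≠ 0) (β : ℝ) (V : Finset (Tor L)) (a : Tor L → ℝ)
    (ha : ∀ x ∉ V, a x = 0) {b : Fin N → Fin N → ℝ} (hb : Anti b) (τ : Conf N L) :
    β * KK β V (fun S => Hb a b S ^ 2) τ =
      esum fun y z => (a z - a y) ^ 2 *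
        KK β V (fun S => ∑ i, (∑ j, b i j * co S y j) * ∑ j, b i j * co S z j) τ := by sorry

/-! ## Task C (file Cas.lean): Casimir identities -/

omit [NeZero L] in
theorem cas_vec (f : Fin N → ℝ) :
    ∑ p, ∑ k, ∑ i, (∑ j, gen p k i j * f j) ^ 2 = 2 * (N - 1) * ∑ i, f i ^ 2 := by sorry

omit [NeZero L] in
theorem cas_mat (f : Fin N → Fin N → ℝ) :
    ∑ p, ∑ k, ∑ i, ∑ j, (∑ m, gen p k i m * f m j + ∑ m, gen p k j m * f i m) ^ 2 =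
      4 * (N - 1) * (∑ i, ∑ j, f i j ^ 2) - 4 * (∑ i, f i i) ^ 2 +
        4 * ∑ i, ∑ j, f i j * f j i := by sorry

omit [NeZero L] in
theorem cas_mat_ge (f : Fin N → Fin N → ℝ) (hf : ∑ i, f i i = 0) :
    4 * ((N : ℝ) - 2) * (∑ i, ∑ j, f i j ^ 2) ≤
      ∑ p, ∑ k, ∑ i, ∑ j, (∑ m, gen p k i m * f m j + ∑ m, gen p k j m * f i m) ^ 2 := by sorry

omit [NeZero L] in
theorem sum_gen (b : Fin N → Fin N → ℝ) (hb : Anti b) (i j : Fin N) :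
    ∑ p, ∑ k, b p k * gen p k i j = - 2 * b i j := by sorry

/-! ## Task S (file Step.lean): the contraction step -/

/-- quadratic bound without information -/
theorem quad_crude (hN : N ≠ 0) {β : ℝ} (hβ : 0 < β) (V : Finset (Tor L)) (a : Tor L → ℝ)
    (ha : ∀ x ∉ V, a x = 0) {b : Fin N → Fin N → ℝ} (hb : Anti b) (τ : Conf N L) :
    β ^ 2 * KK β V (fun S => Hb a b S ^ 2) τ ≤ β * Wd a * ∑ i, ∑ j, b i j ^ 2 := by sorry

/-- quadratic bound with isotropy: for every edge with `a z ≠ a y` there is a set `U ⊆ V` on which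
the traceless part of `S_y ⊗ S_z` has small conditional expectation. -/
theorem quad_fine (hN : N ≠ 0) {β D : ℝ} (hβ : 0 < β) (hD : 0 ≤ D) (V : Finset (Tor L))
    (a : Tor L → ℝ) (ha : ∀ x ∉ V, a x = 0)
    (hiso : ∀ y z : Tor L, (z = y + (1, 0) ∨ z = y + (0, 1)) → a z ≠ a y →
      ∃ U : Finset (Tor L), U ⊆ V ∧ ∀ τ : Conf N L,
        ∑ i, ∑ j, (KK β U (Mat0 y z i j) τ) ^ 2 ≤ D ^ 2)
    {b : Fin N → Fin N → ℝ} (hb : Anti b) (τ : Conf N L) :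
    β ^ 2 * KK β V (fun S => Hb a b S ^ 2) τ ≤
      β * (1 / N + D) * Wd a * ∑ i, ∑ j, b i j ^ 2 := by sorry

/-- The abstract contraction step: `φ_l` a family of functions, `D` the action of the plane
rotations on it, `V₀ ⊆ V`, the profile `a` is one on `V₀` and its neighbours. -/
theorem step (hN : N ≠ 0) {β κ : ℝ} (hβ : 0 < β) (hκ : 0 < κ) {V₀ V : Finset (Tor L)}
    (hV : V₀ ⊆ V) (a : Tor L → ℝ) (ha : ∀ x ∉ V, a x = 0)
    (ha1 : ∀ y z : Tor L, (z = y + (1, 0) ∨ z = y + (0, 1)) → (y ∈ V₀ ∨ z ∈ V₀) → a z = a y)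
    (hquad : ∀ b : Fin N → Fin N → ℝ, Anti b → ∀ τ : Conf N L,
      β ^ 2 * KK β V (fun S => Hb a b S ^ 2) τ ≤ κ * ∑ i, ∑ j, b i j ^ 2)
    {Λ : Type} [Fintype Λ] (φ : Λ → Conf N L → ℝ) (hφ : ∀ l, Continuous (φ l))
    (D : Fin N → Fin N → Λ → Λ → ℝ) (τ : Conf N L)
    (hD : ∀ p k l, ∑ m, D p k l m * KK β V (φ m) τ +
      β * KK β V (fun S => φ l S * Hb a (gen p k) S) τ = 0) :
    ∑ l, (KK β V (φ l) τ) ^ 2 +
        (∑ p, ∑ k, ∑ l, (∑ m, D p k l m * KK β V (φ m) τ) ^ 2) / (4 * κ) ≤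
      KK β V (fun S => ∑ l, (KK β V₀ (φ l) S) ^ 2) τ := by sorry

/-- vector case -/
theorem step_vec (hN : N ≠ 0) {β κ M : ℝ} (hβ : 0 < β) (hκ : 0 < κ) {V₀ V : Finset (Tor L)}
    (hV : V₀ ⊆ V) (a : Tor L → ℝ) (ha : ∀ x ∉ V, a x = 0)
    (ha1 : ∀ y z : Tor L, (z = y + (1, 0) ∨ z = y + (0, 1)) → (y ∈ V₀ ∨ z ∈ V₀) → a z = a y)
    (hquad : ∀ b : Fin N → Fin N → ℝ, Anti b → ∀ τ : Conf N L,
      β ^ 2 * KK β V (fun S => Hb a b S ^ 2) τ ≤ κ * ∑ i, ∑ j, b i j ^ 2)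
    (x : Tor L) (hx : a x = 1)
    (hM : ∀ τ : Conf N L, ∑ i, (KK β V₀ (fun S => co S x i) τ) ^ 2 ≤ M) (τ : Conf N L) :
    (∑ i, (KK β V (fun S => co S x i) τ) ^ 2) * (1 + ((N : ℝ) - 1) / (2 * κ)) ≤ M := by sorry

/-- matrix case, traceless part of `S_y ⊗ S_z` -/
theorem step_mat (hN : N ≠ 0) {β κ M : ℝ} (hβ : 0 < β) (hκ : 0 < κ) {V₀ V : Finset (Tor L)}
    (hV : V₀ ⊆ V) (a : Tor L → ℝ) (ha : ∀ x ∉ V, a x = 0)
    (ha1 : ∀ y z : Tor L, (z = y + (1, 0) ∨ z = y + (0, 1)) → (y ∈ V₀ ∨ z ∈ V₀) → a z = a y)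
    (hquad : ∀ b : Fin N → Fin N → ℝ, Anti b → ∀ τ : Conf N L,
      β ^ 2 * KK β V (fun S => Hb a b S ^ 2) τ ≤ κ * ∑ i, ∑ j, b i j ^ 2)
    (y z : Tor L) (hy : a y = 1) (hz : a z = 1)
    (hM : ∀ τ : Conf N L, ∑ i, ∑ j, (KK β V₀ (Mat0 y z i j) τ) ^ 2 ≤ M) (τ : Conf N L) :
    (∑ i, ∑ j, (KK β V (Mat0 y z i j) τ) ^ 2) * (1 + ((N : ℝ) - 2) / κ) ≤ M := by sorry

/-- matrix case, antisymmetric part of `S_y ⊗ S_z` -/
theorem step_asy (hN : N ≠ 0) {β κ M : ℝ} (hβ : 0 < β) (hκ : 0 < κ) {V₀ V : Finset (Tor L)}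
    (hV : V₀ ⊆ V) (a : Tor L → ℝ) (ha : ∀ x ∉ V, a x = 0)
    (ha1 : ∀ y z : Tor L, (z = y + (1, 0) ∨ z = y + (0, 1)) → (y ∈ V₀ ∨ z ∈ V₀) → a z = a y)
    (hquad : ∀ b : Fin N → Fin N → ℝ, Anti b → ∀ τ : Conf N L,
      β ^ 2 * KK β V (fun S => Hb a b S ^ 2) τ ≤ κ * ∑ i, ∑ j, b i j ^ 2)
    (y z : Tor L) (hy : a y = 1) (hz : a z = 1)
    (hM : ∀ τ : Conf N L, ∑ i, ∑ j, (KK β V₀ (Asy y z i j) τ) ^ 2 ≤ M) (τ : Conf N L) :
    (∑ i, ∑ j, (KK β V (Asy y z i j) τ) ^ 2) * (1 + ((N : ℝ) - 2) / κ) ≤ M := by sorry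

/-! ## Task F (file Flux.lean): the flux step -/

/-- The flux of the current through a cutset is small. `n` bounds the number of the oriented edges
`(y, z)` with `a z ≠ a y`; for each of them there is a set `U ⊆ V`, far from `V₀`, on which the
current `S_y ∧ S_z` has conditional expectation at most `ε`. -/
theorem flux (hN : N ≠ 0) {β ε M : ℝ} {n : ℕ} (hβ : 0 < β) (hε : 0 ≤ ε) (hM0 : 0 ≤ M)
    {V₀ V : Finset (Tor L)} (hV : V₀ ⊆ V) (a : Tor L → ℝ) (ha : ∀ x ∉ V, a x = 0)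
    (ha01 : ∀ x, a x = 0 ∨ a x = 1)
    (ha1 : ∀ y z : Tor L, (z = y + (1, 0) ∨ z = y + (0, 1)) → (y ∈ V₀ ∨ z ∈ V₀) → a z = a y)
    (hn : (Finset.univ.filter fun y : Tor L => a (y + (1, 0)) ≠ a y).card +
      (Finset.univ.filter fun y : Tor L => a (y + (0, 1)) ≠ a y).card ≤ n)
    (hcur : ∀ y z : Tor L, (z = y + (1, 0) ∨ z = y + (0, 1)) → a z ≠ a y →
      ∃ U : Finset (Tor L), U ⊆ V ∧ Far U V₀ ∧ ∀ τ : Conf N L,
        ∑ i, ∑ j, (KK β U (Asy y z i j) τ) ^ 2 ≤ ε ^ 2)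
    {Λ : Type} [Fintype Λ] (φ : Λ → Conf N L → ℝ) (hφ : ∀ l, Continuous (φ l))
    (hloc : ∀ U : Finset (Tor L), Far U V₀ → ∀ l, Off U (φ l))
    (hM : ∀ τ : Conf N L, ∑ l, (KK β V₀ (φ l) τ) ^ 2 ≤ M ^ 2) (p k : Fin N) (τ : Conf N L) :
    ∑ l, (β * KK β V (fun S => φ l S * Hb a (gen p k) S) τ) ^ 2 ≤ (β * n * ε * M) ^ 2 := by
  sorry

/-- flux step for the spin -/
theorem flux_vec (hN : 2 ≤ N) {β ε M : ℝ} {n : ℕ} (hβ : 0 < β) (hε : 0 ≤ ε) (hM0 : 0 ≤ M)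
    {V₀ V : Finset (Tor L)} (hV : V₀ ⊆ V) (a : Tor L → ℝ) (ha : ∀ x ∉ V, a x = 0)
    (ha01 : ∀ x, a x = 0 ∨ a x = 1)
    (ha1 : ∀ y z : Tor L, (z = y + (1, 0) ∨ z = y + (0, 1)) → (y ∈ V₀ ∨ z ∈ V₀) → a z = a y)
    (hn : (Finset.univ.filter fun y : Tor L => a (y + (1, 0)) ≠ a y).card +
      (Finset.univ.filter fun y : Tor L => a (y + (0, 1)) ≠ a y).card ≤ n)
    (hcur : ∀ y z : Tor L, (z = y + (1, 0) ∨ z = y + (0, 1)) → a z ≠ a y →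
      ∃ U : Finset (Tor L), U ⊆ V ∧ Far U V₀ ∧ ∀ τ : Conf N L,
        ∑ i, ∑ j, (KK β U (Asy y z i j) τ) ^ 2 ≤ ε ^ 2)
    (x : Tor L) (hx : a x = 1) (hx0 : x ∈ V₀)
    (hM : ∀ τ : Conf N L, ∑ i, (KK β V₀ (fun S => co S x i) τ) ^ 2 ≤ M ^ 2) (τ : Conf N L) :
    ∑ i, (KK β V (fun S => co S x i) τ) ^ 2 ≤ (N * β * n * ε * M) ^ 2 := by sorry

/-- flux step for the current -/
theorem flux_asy (hN : 3 ≤ N) {β ε M : ℝ} {n : ℕ} (hβ : 0 < β) (hε : 0 ≤ ε) (hM0 : 0 ≤ M)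
    {V₀ V : Finset (Tor L)} (hV : V₀ ⊆ V) (a : Tor L → ℝ) (ha : ∀ x ∉ V, a x = 0)
    (ha01 : ∀ x, a x = 0 ∨ a x = 1)
    (ha1 : ∀ y z : Tor L, (z = y + (1, 0) ∨ z = y + (0, 1)) → (y ∈ V₀ ∨ z ∈ V₀) → a z = a y)
    (hn : (Finset.univ.filter fun y : Tor L => a (y + (1, 0)) ≠ a y).card +
      (Finset.univ.filter fun y : Tor L => a (y + (0, 1)) ≠ a y).card ≤ n)
    (hcur : ∀ y z : Tor L, (z = y + (1, 0) ∨ z = y + (0, 1)) → a z ≠ a y →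
      ∃ U : Finset (Tor L), U ⊆ V ∧ Far U V₀ ∧ ∀ τ : Conf N L,
        ∑ i, ∑ j, (KK β U (Asy y z i j) τ) ^ 2 ≤ ε ^ 2)
    (y z : Tor L) (hy : a y = 1) (hz : a z = 1) (hy0 : y ∈ V₀) (hz0 : z ∈ V₀)
    (hM : ∀ τ : Conf N L, ∑ i, ∑ j, (KK β V₀ (Asy y z i j) τ) ^ 2 ≤ M ^ 2) (τ : Conf N L) :
    ∑ i, ∑ j, (KK β V (Asy y z i j) τ) ^ 2 ≤ (N * β * n * ε * M) ^ 2 := by sorry

/-! ## Task E (file Energy.lean): logarithmic profiles on annuli -/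

theorem profiles (lam : ℝ) (hlam : 1 < lam) (η : ℝ) (hη : 0 < η) (hη1 : η < 1) (g : ℝ)
    (hg : 2 ≤ g) :
    ∃ r₀ : ℝ, 4 ≤ r₀ ∧ ∀ (n L : ℕ) [NeZero L] (c : Tor L), 2 * (r₀ * lam ^ n) + 8 < L →
      ∃ a : ℕ → Tor L → ℝ,
        (∀ k < n, (∀ z, tnorm (z - c) ≤ r₀ * lam ^ k + 2 → a k z = 1) ∧
          (∀ z, r₀ * lam ^ (k + 1) - g ≤ tnorm (z - c) → a k z = 0) ∧ 0 ≤ Wd (a k)) ∧
        ∑ k ∈ Finset.range n, Wd (a k) ≤
          (2 * Real.pi * Real.log (r₀ * lam ^ n + 1) + 600) / ((1 - η) * Real.log lam) ^ 2 := by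
  sorry

/-! ## Task R1 (file Iter.lean): products, pure real analysis -/

theorem prod_bound {C ν A : ℝ} (hC : 0 ≤ C) (hν : 0 < ν) {n : ℕ} (hn : 0 < n) (W : ℕ → ℝ)
    (hW : ∀ k < n, 0 ≤ W k) (hA : ∑ k ∈ Finset.range n, W k ≤ A) :
    ∏ k ∈ Finset.range n, (1 + C / (W k + ν))⁻¹ ≤ ((1 + C / (A / n + ν))⁻¹) ^ n := by sorry

theorem iter_real {C q : ℝ} (hC : 0 < C) (hq0 : 0 < q) (hq : q < C / (2 * Real.pi)) :
    ∃ lam η ν : ℝ, 1 < lam ∧ 0 < η ∧ η < 1 ∧ 0 < ν ∧ ∀ r₀ : ℝ, 4 ≤ r₀ → ∃ K : ℝ, 0 < K ∧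
      ∀ (n : ℕ) (W : ℕ → ℝ), (∀ k < n, 0 ≤ W k) →
        ∑ k ∈ Finset.range n, W k ≤
          (2 * Real.pi * Real.log (r₀ * lam ^ n + 1) + 600) / ((1 - η) * Real.log lam) ^ 2 →
        ∏ k ∈ Finset.range n, (1 + C / (W k + ν))⁻¹ ≤ K * (r₀ * lam ^ (n + 1)) ^ (-q) := by sorry

/-! ## Task R2 (file Rec.lean): the bootstrap recursion, pure real analysis -/

theorem rec_real (j v : ℕ → ℝ) (hj0 : ∀ R, 0 ≤ j R) (hv0 : ∀ R, 0 ≤ v R) (hja : Antitone j)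
    (hva : Antitone v) {C : ℝ} (hC : 0 < C)
    (h1 : ∀ R w : ℕ, j (R + 2 * w + 4) ≤ C * (R + 2 * w + 4) * j w * j R)
    (h2 : ∀ R w : ℕ, v (R + 2 * w + 4) ≤ C * (R + 2 * w + 4) * j w * v R)
    {K p : ℝ} (hp : 1 < p) (h3 : ∀ R : ℕ, 1 ≤ R → j R ≤ K * (R : ℝ) ^ (-p)) :
    ∃ c K' : ℝ, 0 < c ∧ 0 < K' ∧ ∀ R : ℕ, v R ≤ K' * Real.exp (-(c * R / Real.log (R + 2) ^ 2)) := by
  sorry

/-! ## Task B (file Box.lean): boxes -/

theorem disc_subset_box (c : Tor L) (r : ℕ) : disc c (r : ℝ) ⊆ box c r := by sorry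

theorem box_mono (c : Tor L) {r s : ℕ} (h : r ≤ s) : box c r ⊆ box c s := by sorry

theorem box_succ (c : Tor L) (r : ℕ) (y z : Tor L) (h : z = y + (1, 0) ∨ z = y + (0, 1)) :
    (y ∈ box c r → z ∈ box c (r + 1)) ∧ (z ∈ box c r → y ∈ box c (r + 1)) := by sorry

theorem box_trans (c y : Tor L) {r s : ℕ} (hy : y ∈ box c r) : box y s ⊆ box c (r + s) := by sorry

/-- a box around a point off a large box is far from a smaller box -/
theorem box_far (c y : Tor L) {R w : ℕ} (hy : y ∉ box c (R + w + 1)) :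
    Far (box y w) (box c R) := by sorry

theorem box_cut_card (c : Tor L) (R : ℕ) :
    (Finset.univ.filter fun y : Tor L => ¬ ((y + (1, 0) ∈ box c R) ↔ (y ∈ box c R))).card +
      (Finset.univ.filter fun y : Tor L => ¬ ((y + (0, 1) ∈ box c R) ↔ (y ∈ box c R))).card ≤
        8 * R + 4 := by sorry

end Pool.Agent.H716R2.ON
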